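import Pool.Agent.Lib.MP_a325a5_ag.NE.Pol

/-! Accumulation of the common zeros away from the nodes.
Proof: if the set `E` is unbounded then `∃ᶠ t in Bornology.cobounded ℂ, t ∈ E`; since
`u β c t = (∑ c_i) * log ‖t‖ + ∑ c_i * log ‖1 - β_i / t‖` and the second sum tends to `0`, both sums `∑ A_i`, `∑ B_i` vanish.
If `E` is bounded it has an accumulation point `t₀` (`Set.Infinite.exists_accPt_of_subset_isCompact`).  If `t₀ = β_i` and
`c_i ≠ 0` (`c = A` or `c = B`) then `u β c t = c_i * log ‖t - β_i‖ + (continuous at β_i)` is unbounded near `β_i`, against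
`u β c t = 0` frequently. -/

open Filter Topology

namespace NE

variable {ι : Type} [Fintype ι] [DecidableEq ι]

private theorem acc_aux {l : Filter ℂ} {L G : ℂ → ℝ} {c g : ℝ} (hc : c ≠ 0) (hL : Tendsto L l atTop)
    (hG : Tendsto G l (𝓝 g)) : ∀ᶠ t in l, c * L t + G t ≠ 0 := by
  have h1 : Tendsto (fun t => - G t / c) l (𝓝 (- g / c)) := hG.neg.div_const c
  have h2 : ∀ᶠ t in l, - G t / c < - g / c + 1 := h1.eventually_lt_const (by linarith)
  filter_upwards [h2, hL.eventually_gt_atTop (- g / c + 1)] with t h3 h4 h5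
  have h6 : L t = - G t / c := by
    rw [eq_div_iff hc]
    linarith [mul_comm (L t) c]
  rw [← h6] at h3
  linarith

private theorem acc_ne_cobounded (b : ℂ) : ∀ᶠ t in Bornology.cobounded ℂ, t ≠ b := by
  have h1 := (tendsto_norm_cobounded_atTop (E := ℂ)).eventually_gt_atTop ‖b‖
  filter_upwards [h1] with t ht h
  rw [h] at ht
  exact lt_irrefl _ ht

private theorem acc_unb (β : ι → ℂ) (c : ι → ℝ) {κ : ℝ}
    (hfr : ∃ᶠ t in Bornology.cobounded ℂ, u β c t = κ) : ∑ i, c i = 0 := by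
  by_contra hc
  have e0 : ∀ᶠ t in Bornology.cobounded ℂ, ∀ i, t ≠ β i := by
    rw [eventually_all]
    intro i
    exact acc_ne_cobounded (β i)
  have hL : Tendsto (fun t : ℂ => Real.log ‖t‖) (Bornology.cobounded ℂ) atTop :=
    Real.tendsto_log_atTop.comp tendsto_norm_cobounded_atTop
  have hG : Tendsto (fun t : ℂ => ∑ i, c i * Real.log ‖1 - β i * t⁻¹‖) (Bornology.cobounded ℂ)
      (𝓝 (∑ i, c i * 0)) := by
    refine tendsto_finsetSum _ fun i _ => ?_
    refine Tendsto.const_mul (c i) ?_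
    have h1 : ContinuousAt (fun z : ℂ => Real.log ‖1 - β i * z‖) 0 := by
      have h2 : ContinuousAt (fun z : ℂ => ‖1 - β i * z‖) 0 := by fun_prop
      refine h2.log ?_
      rw [mul_zero, sub_zero, norm_one]
      exact one_ne_zero
    have h3 := h1.tendsto.comp (tendsto_inv₀_cobounded (α := ℂ))
    rw [mul_zero, sub_zero, norm_one, Real.log_one] at h3
    exact h3
  have h4 := acc_aux hc hL (hG.sub_const κ)
  have h5 := hfr.and_eventually (h4.and (e0.and (acc_ne_cobounded 0)))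
  obtain ⟨t, h6, h7, h8, h9⟩ := h5.exists
  apply h7
  rw [← add_sub_assoc, sub_eq_zero, ← h6]
  unfold u
  rw [Finset.sum_mul, ← Finset.sum_add_distrib]
  refine Finset.sum_congr rfl fun i _ => ?_
  have h10 : t - β i = t * (1 - β i * t⁻¹) := by
    field_simp
  have h11 : 1 - β i * t⁻¹ ≠ 0 := by
    intro h12
    rw [h12, mul_zero] at h10
    exact sub_ne_zero.2 (h8 i) h10
  rw [h10, norm_mul, Real.log_mul (norm_ne_zero_iff.2 h9) (norm_ne_zero_iff.2 h11)]
  ring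

private theorem acc_node {β : ι → ℂ} (hβ : Function.Injective β) {c : ι → ℝ} {i : ι} (hc : c i ≠ 0)
    {κ : ℝ} (hfr : ∃ᶠ t in 𝓝[≠] (β i), u β c t = κ) : False := by
  have h0 : Tendsto (fun t : ℂ => ‖t - β i‖) (𝓝[≠] (β i)) (𝓝[≠] 0) := by
    refine tendsto_nhdsWithin_iff.2 ⟨?_, ?_⟩
    · have h1 : ContinuousAt (fun t : ℂ => ‖t - β i‖) (β i) := by fun_prop
      have h2 := h1.tendsto
      rw [sub_self, norm_zero] at h2
      exact h2.mono_left nhdsWithin_le_nhds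
    · have h3 : ∀ᶠ t in 𝓝[≠] (β i), t ≠ β i := eventually_mem_nhdsWithin
      refine h3.mono fun t ht => ?_
      exact norm_ne_zero_iff.2 (sub_ne_zero.2 ht)
  have hL : Tendsto (fun t : ℂ => - Real.log ‖t - β i‖) (𝓝[≠] (β i)) atTop :=
    tendsto_neg_atBot_atTop.comp (Real.tendsto_log_nhdsNE_zero.comp h0)
  have hG : Tendsto (fun t : ℂ => ∑ j ∈ Finset.univ.erase i, c j * Real.log ‖t - β j‖) (𝓝[≠] (β i))
      (𝓝 (∑ j ∈ Finset.univ.erase i, c j * Real.log ‖β i - β j‖)) := by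
    refine tendsto_finsetSum _ fun j hj => ?_
    refine Tendsto.const_mul (c j) ?_
    have h2 : ContinuousAt (fun z : ℂ => ‖z - β j‖) (β i) := by fun_prop
    have h3 : ContinuousAt (fun z : ℂ => Real.log ‖z - β j‖) (β i) := by
      refine h2.log ?_
      refine norm_ne_zero_iff.2 (sub_ne_zero.2 ?_)
      intro h4
      exact (Finset.mem_erase.1 hj).1 (hβ h4).symm
    exact h3.tendsto.mono_left nhdsWithin_le_nhds
  have h4 := acc_aux (neg_ne_zero.2 hc) hL (hG.sub_const κ)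
  obtain ⟨t, h5, h6⟩ := (hfr.and_eventually h4).exists
  apply h6
  rw [← add_sub_assoc, sub_eq_zero, neg_mul_neg, Finset.add_sum_erase Finset.univ (fun j => c j * Real.log ‖t - β j‖) (Finset.mem_univ i)]
  exact h5

theorem acc {β : ι → ℂ} (hβ : Function.Injective β) {A B : ι → ℝ} (hact : ∀ i, A i ≠ 0 ∨ B i ≠ 0)
    {c₁ c₂ : ℝ} (hE : {t | (∀ i, t ≠ β i) ∧ u β A t = c₁ ∧ u β B t = c₂}.Infinite) :
    (∃ t₀ : ℂ, (∀ i, t₀ ≠ β i) ∧ ∃ᶠ t in 𝓝[≠] t₀, u β A t = c₁ ∧ u β B t = c₂) ∨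
    (∑ i, A i = 0 ∧ ∑ i, B i = 0 ∧
      ∃ᶠ t in Bornology.cobounded ℂ, u β A t = c₁ ∧ u β B t = c₂) := by
  by_cases hb : Bornology.IsBounded {t | (∀ i, t ≠ β i) ∧ u β A t = c₁ ∧ u β B t = c₂}
  · left
    obtain ⟨r, hr⟩ := hb.subset_closedBall 0
    obtain ⟨t₀, _, ht₀⟩ := hE.exists_accPt_of_subset_isCompact (isCompact_closedBall (0 : ℂ) r) hr
    rw [accPt_iff_frequently_nhdsNE] at ht₀
    refine ⟨t₀, ?_, ht₀.mono fun t ht => ht.2⟩
    intro i hi
    rw [hi] at ht₀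
    rcases hact i with h1 | h1
    · exact acc_node hβ h1 (ht₀.mono fun t ht => ht.2.1)
    · exact acc_node hβ h1 (ht₀.mono fun t ht => ht.2.2)
  · right
    have hfr : ∃ᶠ t in Bornology.cobounded ℂ, t ∈ {t | (∀ i, t ≠ β i) ∧ u β A t = c₁ ∧ u β B t = c₂} := by
      intro h1
      exact hb (Bornology.isBounded_def.2 h1)
    exact ⟨acc_unb β A (hfr.mono fun t ht => ht.2.1), acc_unb β B (hfr.mono fun t ht => ht.2.2),
      hfr.mono fun t ht => ht.2⟩

end NE
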