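import Pool.Agent.Lib.MP_a325a5_ag.NE.Pol

/-! The local exponents of `F` at a pair of nodes.
Proof: `XX β c F = H * F`.  Setting the inner variable equal to `β j` (the ring homomorphism `mapRingHom (evalRingHom (β j))`), `G = F.map ..`:
`H(β_j, s) * G = C (c_j q'(β_j)) * q~ * derivative G` (`q_eval_node`, `P_eval_node`).  If `G = (s - β~_i) ^ a * G₁`, `G₁ (β~_i) ≠ 0`, this gives
`H(β_j, β~_i) = a c_j q'(β_j) q~'(β~_i)` (cancel `(s - β~_i) ^ a`, evaluate).  Setting the outer variable equal to `β~_i`, `G' = F.eval (C β~_i)`,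
in the same way: `H(β_j, β~_i) = - a' c_i q~'(β~_i) q'(β_j)`.  Divide by `q'(β_j) q~'(β~_i) ≠ 0`. -/

open Polynomial

namespace NE

variable {ι : Type} [Fintype ι] [DecidableEq ι]

/-- the univariate computation -/
theorem Al1_uni {K G Q : ℂ[X]} {κ b : ℂ} (hG : G ≠ 0) (h : K * G = C κ * Q * derivative G)
    (hQ : Q.eval b = 0) :
    K.eval b = κ * (derivative Q).eval b * (G.rootMultiplicity b : ℂ) := by
  obtain ⟨Q₁, rfl⟩ := dvd_iff_isRoot.mpr hQ
  obtain ⟨G₁, h1, h2⟩ := exists_eq_pow_rootMultiplicity_mul_and_not_dvd G hG b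
  set a := G.rootMultiplicity b with ha
  have h3 : G₁.eval b ≠ 0 := fun h0 => h2 (dvd_iff_isRoot.mpr h0)
  have h4 : (X - C b) * derivative G =
      (X - C b) ^ a * ((a : ℂ[X]) * G₁ + (X - C b) * derivative G₁) := by
    rw [h1, derivative_mul, derivative_X_sub_C_pow]
    rcases Nat.eq_zero_or_pos a with h0 | h0
    · rw [h0]
      simp
    · obtain ⟨a', ha'⟩ : ∃ a', a = a' + 1 := ⟨a - 1, by omega⟩
      rw [ha']
      simp only [Nat.add_sub_cancel, C_eq_natCast]
      ring
  have h5 : K * G₁ = C κ * Q₁ * ((a : ℂ[X]) * G₁ + (X - C b) * derivative G₁) := by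
    have h6 : (X - C b) ^ a ≠ 0 := pow_ne_zero _ (X_sub_C_ne_zero b)
    apply mul_left_cancel₀ h6
    calc (X - C b) ^ a * (K * G₁) = K * ((X - C b) ^ a * G₁) := by ring
      _ = K * G := by rw [← h1]
      _ = C κ * Q₁ * ((X - C b) * derivative G) := by rw [h]; ring
      _ = _ := by rw [h4]; ring
  have h7 := congrArg (eval b) h5
  simp only [eval_mul, eval_C, eval_add, eval_natCast, eval_sub, eval_X, sub_self, zero_mul,
    add_zero] at h7
  have h8 : (derivative ((X - C b) * Q₁)).eval b = Q₁.eval b := by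
    simp
  rw [h8]
  apply mul_right_cancel₀ h3
  rw [h7]
  ring

theorem Al1_inner (β : ι → ℂ) (c : ι → ℝ) {F H : ℂ[X][X]} (hF : XX β c F = H * F) (j : ι) :
    H.map (evalRingHom (β j)) * F.map (evalRingHom (β j)) =
      C ((P β c).eval (β j)) * q (cj β) * derivative (F.map (evalRingHom (β j))) := by
  have h1 := congrArg (fun G => G.map (evalRingHom (β j))) hF
  simp only [XX, Polynomial.map_sub, Polynomial.map_mul, Polynomial.map_C, coe_evalRingHom,
    q_eval_node] at h1
  have h2 : ∀ p : ℂ[X], (p.map C).map (evalRingHom (β j)) = p := by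
    intro p
    rw [Polynomial.map_map]
    have h3 : (evalRingHom (β j)).comp C = RingHom.id ℂ := by
      ext x
      simp
    rw [h3, Polynomial.map_id]
  rw [h2, h2, map_zero, mul_zero, zero_mul, sub_zero] at h1
  rw [← h1, derivative_map]

theorem Al1_dT (F : ℂ[X][X]) (b : ℂ) : (dT F).eval (C b) = derivative (F.eval (C b)) := by
  rw [dT, sum_def, eval_finsetSum, eval_eq_sum, sum_def, derivative_sum]
  refine Finset.sum_congr rfl fun n _ => ?_
  rw [eval_monomial, ← C_pow, derivative_mul, derivative_C, mul_zero, add_zero]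

theorem Al1_outer (β : ι → ℂ) (c : ι → ℝ) {F H : ℂ[X][X]} (hF : XX β c F = H * F) (i : ι) :
    H.eval (C (cj β i)) * F.eval (C (cj β i)) =
      C (- (P (cj β) c).eval (cj β i)) * q β * derivative (F.eval (C (cj β i))) := by
  have h1 := congrArg (fun G => G.eval (C (cj β i))) hF
  have h2 : ∀ p : ℂ[X], (p.map C).eval (C (cj β i)) = C (p.eval (cj β i)) := by
    intro p
    rw [eval_map, eval₂_at_apply]
  simp only [XX, eval_sub, eval_mul, eval_C, h2, Al1_dT, q_eval_node] at h1
  rw [← h1, C_neg, map_zero]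
  ring

theorem al1 {β : ι → ℂ} (hβ : Function.Injective β) (c : ι → ℝ) {F : ℂ[X][X]}
    (hF : F ∣ XX β c F) (i j : ι) (hG : F.map (evalRingHom (β j)) ≠ 0)
    (hG' : F.eval (C (cj β i)) ≠ 0) :
    ((F.map (evalRingHom (β j))).rootMultiplicity (cj β i) : ℝ) * c j =
      - (((F.eval (C (cj β i))).rootMultiplicity (β j) : ℝ) * c i) := by
  obtain ⟨H, hH⟩ := hF
  rw [mul_comm] at hH
  have h1 := Al1_uni (b := cj β i) hG (Al1_inner β c hH j) (q_eval_node (cj β) i)
  have h2 := Al1_uni (b := β j) hG' (Al1_outer β c hH i) (q_eval_node β j)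
  have h3 : (H.map (evalRingHom (β j))).eval (cj β i) = (H.eval (C (cj β i))).eval (β j) := by
    rw [map_evalRingHom_eval]
  rw [h3, h2, P_eval_node, P_eval_node] at h1
  have h4 := q_deriv_ne hβ j
  have h5 := q_deriv_ne (cj_injective hβ) i
  have h6 : (((F.map (evalRingHom (β j))).rootMultiplicity (cj β i) : ℝ) : ℂ) * (c j : ℂ) =
      - ((((F.eval (C (cj β i))).rootMultiplicity (β j) : ℝ) : ℂ) * (c i : ℂ)) := by
    apply mul_right_cancel₀ (mul_ne_zero h4 h5)
    push_cast
    linear_combination -h1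
  exact_mod_cast h6

end NE
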