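import Pool.Agent.Lib.MP_a325a5_ag.NE.Al1

/-! The roots of `F(β_j, s)` are conjugates of nodes; the exponents at infinity.
`al2`: `XX β c F = H * F` at `t = β j`: `H(β_j, s) * G = C (c_j q'(β_j)) * q~ * derivative G`; a root of `G` of multiplicity `a` has multiplicity
`a - 1` in `derivative G`, so it is a root of `q~` (`q_root`).
`al3`: `n = natDegree F` and `F(β_j, s)` is a nonzero constant.  `natDegree H ≤ N - 1` in `s`, `N = card ι` (`natDegree (XX β c F) ≤ N - 1 + n`).  `H(β_j, s) * const = 0`, so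
`H(β_j, s) = 0`.  Coefficient of `s ^ (N - 1 + n)` in `XX β c F = H * F`: `h_{N-1} * f_n = n * P β c * f_n - (∑ c_i) * q β * derivative f_n` in `ℂ[t]`, `f_n = leadingCoeff F`
(`P_coeff`, `q_monic`).  Write `f_n = (t - β_j) ^ a * g`, `g (β_j) ≠ 0`, cancel `(t - β_j) ^ a`, evaluate at `β_j`:
`0 = h_{N-1}(β_j) = n c_j q'(β_j) - (∑ c_i) a q'(β_j)`.  `a ≥ 1` because `f_n (β_j) = 0` (`n ≥ 1`). -/

open Polynomial

namespace NE

variable {ι : Type} [Fintype ι] [DecidableEq ι]

theorem al2 {β : ι → ℂ} (hβ : Function.Injective β) (c : ι → ℝ) {F : ℂ[X][X]}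
    (hF : F ∣ XX β c F) (j : ι) (hc : c j ≠ 0) (hG : F.map (evalRingHom (β j)) ≠ 0) {σ : ℂ}
    (hσ : (F.map (evalRingHom (β j))).eval σ = 0) : ∃ i, σ = cj β i := by
  obtain ⟨H, hH⟩ := hF
  rw [mul_comm] at hH
  have h := Al1_inner β c hH j
  apply q_root
  have hκ : (P β c).eval (β j) ≠ 0 := by
    rw [P_eval_node]
    exact mul_ne_zero (Complex.ofReal_ne_zero.mpr hc) (q_deriv_ne hβ j)
  revert h hκ hG hσ
  generalize (P β c).eval (β j) = κ
  generalize H.map (evalRingHom (β j)) = K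
  generalize F.map (evalRingHom (β j)) = G
  intro hG hσ h hκ
  obtain ⟨G₁, h1, h2⟩ := exists_eq_pow_rootMultiplicity_mul_and_not_dvd G hG σ
  have ha : 0 < G.rootMultiplicity σ := (rootMultiplicity_pos hG).mpr hσ
  obtain ⟨a, ha'⟩ : ∃ a, G.rootMultiplicity σ = a + 1 := ⟨G.rootMultiplicity σ - 1, by omega⟩
  rw [ha'] at h1
  have h3 : G₁.eval σ ≠ 0 := fun h0 => h2 (dvd_iff_isRoot.mpr h0)
  have h4 : derivative G = (X - C σ) ^ a * (((a : ℂ[X]) + 1) * G₁ + (X - C σ) * derivative G₁) := by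
    rw [h1, derivative_mul, derivative_X_sub_C_pow]
    push_cast
    simp only [C_eq_natCast, map_add, map_one]
    ring
  have h5 : K * (X - C σ) * G₁ =
      C κ * q (cj β) * (((a : ℂ[X]) + 1) * G₁ + (X - C σ) * derivative G₁) := by
    have h6 : (X - C σ) ^ a ≠ 0 := pow_ne_zero _ (X_sub_C_ne_zero σ)
    apply mul_left_cancel₀ h6
    calc (X - C σ) ^ a * (K * (X - C σ) * G₁) = K * ((X - C σ) ^ (a + 1) * G₁) := by ring
      _ = K * G := by rw [← h1]
      _ = C κ * q (cj β) * derivative G := h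
      _ = _ := by rw [h4]; ring
  have h7 := congrArg (eval σ) h5
  simp only [eval_mul, eval_C, eval_add, eval_natCast, eval_sub, eval_X, sub_self, zero_mul,
    mul_zero, add_zero, eval_one] at h7
  have h8 : ((a : ℂ) + 1) ≠ 0 := by exact_mod_cast Nat.succ_ne_zero a
  have h9 : κ * (q (cj β)).eval σ * (((a : ℂ) + 1) * G₁.eval σ) = 0 := h7.symm
  rcases mul_eq_zero.mp h9 with h10 | h10
  · rcases mul_eq_zero.mp h10 with h11 | h11
    · exact absurd h11 hκ
    · exact h11
  · exact absurd h10 (mul_ne_zero h8 h3)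

theorem Al2_deg (β : ι → ℂ) (c : ι → ℝ) (F : ℂ[X][X]) (hι : 1 ≤ Fintype.card ι)
    (hn : 1 ≤ F.natDegree) :
    (XX β c F).natDegree ≤ (Fintype.card ι - 1) + F.natDegree ∧
    (XX β c F).coeff ((Fintype.card ι - 1) + F.natDegree) =
      P β c * (F.leadingCoeff * (F.natDegree : ℂ[X])) -
        C ((∑ i, c i : ℝ) : ℂ) * (q β * derivative F.leadingCoeff) := by
  have e1 : ((q (cj β)).map (C : ℂ →+* ℂ[X])).natDegree ≤ Fintype.card ι :=
    natDegree_map_le.trans (q_natDegree _).le
  have e2 : (derivative F).natDegree ≤ F.natDegree - 1 := natDegree_derivative_le F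
  have e3 : ((P (cj β) c).map (C : ℂ →+* ℂ[X])).natDegree ≤ Fintype.card ι - 1 :=
    natDegree_map_le.trans (P_natDegree_le _ _)
  have e4 : (C (q β) * dT F).natDegree ≤ F.natDegree := by
    refine (natDegree_C_mul_le _ _).trans ?_
    rw [natDegree_le_iff_coeff_eq_zero]
    intro N hN
    rw [coeff_dT, coeff_eq_zero_of_natDegree_lt hN, derivative_zero]
  have e5 : Fintype.card ι + (F.natDegree - 1) = (Fintype.card ι - 1) + F.natDegree := by omega
  have e6 : (((q (cj β)).map (C : ℂ →+* ℂ[X])) * derivative F).natDegree ≤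
      (Fintype.card ι - 1) + F.natDegree := by
    rw [← e5]
    exact natDegree_mul_le.trans (add_le_add e1 e2)
  have e7 : (((P (cj β) c).map (C : ℂ →+* ℂ[X])) * (C (q β) * dT F)).natDegree ≤
      (Fintype.card ι - 1) + F.natDegree := natDegree_mul_le.trans (add_le_add e3 e4)
  have hX : XX β c F = C (P β c) * (((q (cj β)).map C) * derivative F) -
      ((P (cj β) c).map C) * (C (q β) * dT F) := by
    rw [XX]
    ring
  rw [hX]
  constructor
  · exact (natDegree_sub_le _ _).trans (max_le ((natDegree_C_mul_le _ _).trans e6) e7)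
  · rw [coeff_sub, coeff_C_mul, coeff_mul_add_eq_of_natDegree_le e3 e4, coeff_C_mul, coeff_dT, coeff_map,
      P_coeff, ← e5, coeff_mul_add_eq_of_natDegree_le e1 e2, coeff_map, coeff_derivative]
    have h1 : (q (cj β)).coeff (Fintype.card ι) = 1 := by
      have h2 := (q_monic (cj β)).coeff_natDegree
      rwa [q_natDegree] at h2
    have h3 : F.natDegree - 1 + 1 = F.natDegree := by omega
    rw [h1, h3, map_one, one_mul]
    have h4 : (((F.natDegree - 1 : ℕ) : ℂ[X]) + 1) = (F.natDegree : ℂ[X]) := by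
      rw [← Nat.cast_succ, Nat.succ_eq_add_one, h3]
    rw [h4]
    rfl

theorem al3 {β : ι → ℂ} (hβ : Function.Injective β) (c : ι → ℝ) {F : ℂ[X][X]}
    (hF : F ∣ XX β c F) (j : ι) (hn : 1 ≤ F.natDegree) (hG : F.map (evalRingHom (β j)) ≠ 0)
    (hG0 : (F.map (evalRingHom (β j))).natDegree = 0) :
    1 ≤ F.leadingCoeff.rootMultiplicity (β j) ∧
    (F.natDegree : ℝ) * c j = (F.leadingCoeff.rootMultiplicity (β j) : ℝ) * ∑ i, c i := by
  obtain ⟨H, hH⟩ := hF
  rw [mul_comm] at hH
  have hι : 1 ≤ Fintype.card ι := Fintype.card_pos_iff.mpr ⟨j⟩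
  have hF0 : F ≠ 0 := by
    rintro rfl
    simp at hn
  have h1 := Al1_inner β c hH j
  have h2 : derivative (F.map (evalRingHom (β j))) = 0 := by
    rw [eq_C_of_natDegree_eq_zero hG0, derivative_C]
  rw [h2, mul_zero, mul_eq_zero] at h1
  have h3 : H.map (evalRingHom (β j)) = 0 := h1.resolve_right hG
  obtain ⟨h4, h5⟩ := Al2_deg β c F hι hn
  have h6 : H.natDegree ≤ Fintype.card ι - 1 := by
    by_cases hH0 : H = 0
    · rw [hH0, natDegree_zero]
      exact Nat.zero_le _
    · rw [hH, natDegree_mul hH0 hF0] at h4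
      omega
  rw [hH, coeff_mul_add_eq_of_natDegree_le h6 le_rfl, coeff_natDegree] at h5
  have h7 : F.leadingCoeff ≠ 0 := leadingCoeff_ne_zero.mpr hF0
  have h8 : (P β c * (F.natDegree : ℂ[X]) - H.coeff (Fintype.card ι - 1)) * F.leadingCoeff =
      C ((∑ i, c i : ℝ) : ℂ) * q β * derivative F.leadingCoeff := by
    linear_combination -h5
  have h9 := Al1_uni h7 h8 (q_eval_node β j)
  have h10 : (H.coeff (Fintype.card ι - 1)).eval (β j) = 0 := by
    have h11 := congrArg (fun G => G.coeff (Fintype.card ι - 1)) h3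
    simpa using h11
  rw [eval_sub, eval_mul, eval_natCast, h10, P_eval_node, sub_zero] at h9
  constructor
  · have h11 : F.leadingCoeff.eval (β j) = 0 := by
      have h12 : (F.map (evalRingHom (β j))).coeff F.natDegree = 0 :=
        coeff_eq_zero_of_natDegree_lt (by omega)
      simpa using h12
    exact (rootMultiplicity_pos h7).mpr h11
  · have h12 : ((F.natDegree : ℝ) : ℂ) * (c j : ℂ) =
        ((F.leadingCoeff.rootMultiplicity (β j) : ℝ) : ℂ) * ((∑ i, c i : ℝ) : ℂ) := by
      apply mul_right_cancel₀ (q_deriv_ne hβ j)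
      rw [Complex.ofReal_natCast, Complex.ofReal_natCast]
      linear_combination h9
    exact_mod_cast h12

end NE
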