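import Pool.Agent.Lib.MP_a325a5_ag.NE.Def

/-! Elementary facts on `q`, `P`, `w`, `dT`. -/

open Polynomial

namespace NE

variable {ι : Type} [Fintype ι] [DecidableEq ι]

theorem q_eval_ne {β : ι → ℂ} {t : ℂ} (h : ∀ i, t ≠ β i) : (q β).eval t ≠ 0 := by
  unfold q
  rw [eval_prod, Finset.prod_ne_zero_iff]
  intro i _
  rw [eval_sub, eval_X, eval_C]
  exact sub_ne_zero.2 (h i)

theorem q_eval_node (β : ι → ℂ) (j : ι) : (q β).eval (β j) = 0 := by
  unfold q
  rw [eval_prod]
  refine Finset.prod_eq_zero (Finset.mem_univ j) ?_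
  rw [eval_sub, eval_X, eval_C, sub_self]

theorem q_root {β : ι → ℂ} {t : ℂ} (h : (q β).eval t = 0) : ∃ i, t = β i := by
  by_contra h1
  push Not at h1
  exact q_eval_ne h1 h

theorem q_natDegree (β : ι → ℂ) : (q β).natDegree = Fintype.card ι := by
  unfold q
  rw [natDegree_prod_of_monic _ _ fun i _ => monic_X_sub_C (β i)]
  rw [Finset.sum_congr rfl fun i _ => natDegree_X_sub_C (β i), Finset.sum_const,
    Finset.card_univ, smul_eq_mul, mul_one]

theorem q_monic (β : ι → ℂ) : (q β).Monic :=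
  monic_prod_of_monic _ _ fun i _ => monic_X_sub_C (β i)

private theorem Pol_deriv (β : ι → ℂ) (j : ι) :
    (derivative (q β)).eval (β j) = ∏ l ∈ Finset.univ.erase j, (β j - β l) := by
  unfold q
  rw [derivative_prod_finset, eval_finsetSum, Finset.sum_eq_single j]
  · rw [eval_mul, eval_prod, derivative_sub, derivative_X, derivative_C, sub_zero, eval_one,
      mul_one]
    refine Finset.prod_congr rfl fun l _ => ?_
    rw [eval_sub, eval_X, eval_C]
  · intro i _ hi
    rw [eval_mul, eval_prod, Finset.prod_eq_zero (i := j), zero_mul]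
    · exact Finset.mem_erase.2 ⟨hi.symm, Finset.mem_univ _⟩
    · rw [eval_sub, eval_X, eval_C, sub_self]
  · intro h
    exact absurd (Finset.mem_univ j) h

theorem q_deriv_ne {β : ι → ℂ} (hβ : Function.Injective β) (j : ι) :
    (derivative (q β)).eval (β j) ≠ 0 := by
  rw [Pol_deriv, Finset.prod_ne_zero_iff]
  intro l hl
  exact sub_ne_zero.2 fun h => (Finset.ne_of_mem_erase hl) (hβ h).symm

private theorem Pol_P (β : ι → ℂ) (c : ι → ℝ) (t : ℂ) :
    (P β c).eval t = ∑ i, (c i : ℂ) * ∏ l ∈ Finset.univ.erase i, (t - β l) := by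
  unfold P
  rw [eval_finsetSum]
  refine Finset.sum_congr rfl fun i _ => ?_
  rw [eval_mul, eval_C, eval_prod]
  congr 1
  refine Finset.prod_congr rfl fun l _ => ?_
  rw [eval_sub, eval_X, eval_C]

theorem P_eval (β : ι → ℂ) (c : ι → ℝ) {t : ℂ} (h : ∀ i, t ≠ β i) :
    (P β c).eval t = w β c t * (q β).eval t := by
  rw [Pol_P]
  unfold w q
  rw [Finset.sum_mul, eval_prod]
  refine Finset.sum_congr rfl fun i _ => ?_
  rw [← Finset.mul_prod_erase Finset.univ _ (Finset.mem_univ i), eval_sub, eval_X, eval_C,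
    ← mul_assoc, div_mul_cancel₀ _ (sub_ne_zero.2 (h i))]
  congr 1
  refine Finset.prod_congr rfl fun l _ => ?_
  rw [eval_sub, eval_X, eval_C]

theorem P_eval_node (β : ι → ℂ) (c : ι → ℝ) (j : ι) :
    (P β c).eval (β j) = c j * (derivative (q β)).eval (β j) := by
  rw [Pol_P, Pol_deriv, Finset.sum_eq_single j]
  · intro i _ hi
    rw [Finset.prod_eq_zero (i := j), mul_zero]
    · exact Finset.mem_erase.2 ⟨hi.symm, Finset.mem_univ _⟩
    · rw [sub_self]
  · intro h
    exact absurd (Finset.mem_univ j) h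

private theorem Pol_deg (β : ι → ℂ) (i : ι) :
    (∏ l ∈ Finset.univ.erase i, (X - C (β l))).natDegree = Fintype.card ι - 1 := by
  rw [natDegree_prod_of_monic _ _ fun i _ => monic_X_sub_C (β i)]
  rw [Finset.sum_congr rfl fun i _ => natDegree_X_sub_C (β i), Finset.sum_const,
    Finset.card_erase_of_mem (Finset.mem_univ i), Finset.card_univ, smul_eq_mul, mul_one]

theorem P_coeff (β : ι → ℂ) (c : ι → ℝ) :
    (P β c).coeff (Fintype.card ι - 1) = ((∑ i, c i : ℝ) : ℂ) := by
  unfold P
  rw [finsetSum_coeff, Complex.ofReal_sum]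
  refine Finset.sum_congr rfl fun i _ => ?_
  have h1 : (∏ l ∈ Finset.univ.erase i, (X - C (β l))).Monic :=
    monic_prod_of_monic _ _ fun i _ => monic_X_sub_C (β i)
  have h2 := h1.coeff_natDegree
  rw [Pol_deg] at h2
  rw [coeff_C_mul, h2, mul_one]

theorem P_natDegree_le (β : ι → ℂ) (c : ι → ℝ) :
    (P β c).natDegree ≤ Fintype.card ι - 1 := by
  unfold P
  refine natDegree_sum_le_of_forall_le _ _ fun i _ => ?_
  exact (natDegree_C_mul_le _ _).trans (Pol_deg β i).le

theorem P_ne {β : ι → ℂ} (hβ : Function.Injective β) {c : ι → ℝ} (hc : c ≠ 0) : P β c ≠ 0 := by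
  intro h
  apply hc
  funext j
  have h1 := P_eval_node β c j
  rw [h, eval_zero] at h1
  rcases mul_eq_zero.1 h1.symm with h2 | h2
  · exact_mod_cast h2
  · exact absurd h2 (q_deriv_ne hβ j)

theorem cj_injective {β : ι → ℂ} (hβ : Function.Injective β) : Function.Injective (cj β) := by
  intro i j h
  exact hβ ((starRingEnd ℂ).injective h)

theorem coeff_dT (F : ℂ[X][X]) (n : ℕ) : (dT F).coeff n = derivative (F.coeff n) := by
  unfold dT
  rw [Polynomial.sum_def, finsetSum_coeff]
  rw [Finset.sum_congr rfl fun m _ => coeff_monomial]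
  rw [Finset.sum_ite_eq']
  by_cases h : n ∈ F.support
  · rw [if_pos h]
  · rw [if_neg h, notMem_support_iff.1 h, derivative_zero]

end NE
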