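import Pool.Agent.Lib.MP_a325a5_ag.NE.Loc
import Pool.Agent.Lib.MP_a325a5_ag.NE.Pol

/-! The arc in the case of accumulation at infinity.
Proof: `f_c z = ∑ c_i * Complex.log (1 - β_i z)` is analytic near `0`; because of `∑ c_i = 0` its real part at `z = 1 / t` is `u β c t`
for large `t`.  So `Re f_A = Re f_B = 0` frequently in `𝓝[≠] 0`.  `deriv f_c z = - ∑ c_i β_i / (1 - β_i z)`, and for `t = 1 / z`:
`w β c t = - z ^ 2 * deriv f_c z` (use `∑ c_i = 0`), so `f_A` is not locally constant (otherwise `P β A` has infinitely many zeros,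
against `P_ne`).  `loc` with `z₀ = 0` gives `ζ x` analytic at `0`, `ζ 0 = 0`, `ζ' 0 ≠ 0`; put `t x = 1 / ζ x`,
`s x = conj (t (conj x))`, meromorphic at `0`; for `x ≠ 0` near `0`: `ζ x ≠ 0`, `deriv t x = - ζ' x / ζ x ^ 2 ≠ 0`, `|t x|` large, so `t x ≠ β_i`, and
`w β c (t x) * deriv t x = deriv f_c (ζ x) * ζ' x`; the same for `s` with `cj β`. -/

open Filter Topology

namespace NE

variable {ι : Type} [Fintype ι] [DecidableEq ι]

private theorem arcInf_deriv {f t : ℂ → ℂ} {z₀ : ℂ} (hf : AnalyticAt ℂ f z₀) (ht : AnalyticAt ℂ t 0)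
    (ht0 : t 0 = z₀)
    (h : ∀ᶠ z in 𝓝 (0 : ℂ), f (t z) + (starRingEnd ℂ) (f (t ((starRingEnd ℂ) z))) = 0) :
    ∀ᶠ z in 𝓝 (0 : ℂ), deriv f (t z) * deriv t z +
      (starRingEnd ℂ) (deriv f (t ((starRingEnd ℂ) z)) * deriv t ((starRingEnd ℂ) z)) = 0 := by
  have htt : Tendsto t (𝓝 0) (𝓝 z₀) := by
    have h1 := ht.continuousAt.tendsto
    rw [ht0] at h1
    exact h1
  have hcj : Tendsto (starRingEnd ℂ) (𝓝 (0 : ℂ)) (𝓝 (0 : ℂ)) := by
    have h1 := (Complex.continuous_conj.tendsto (0 : ℂ))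
    rw [map_zero] at h1
    exact h1
  have e1 : ∀ᶠ z in 𝓝 (0 : ℂ), HasDerivAt (fun x => f (t x)) (deriv f (t z) * deriv t z) z := by
    have h1 : ∀ᶠ z in 𝓝 (0 : ℂ), DifferentiableAt ℂ f (t z) :=
      htt.eventually (Complex.analyticAt_iff_eventually_differentiableAt.1 hf)
    filter_upwards [h1, Complex.analyticAt_iff_eventually_differentiableAt.1 ht] with z h2 h3
    exact h2.hasDerivAt.comp z h3.hasDerivAt
  have e2 := hcj.eventually e1
  filter_upwards [e1, e2, h.eventually_nhds] with z h1 h2 h3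
  have h4 := h2.conj_conj
  rw [Complex.conj_conj] at h4
  have h5 := h1.add h4
  have h6 : ((fun x => f (t x)) + (⇑(starRingEnd ℂ) ∘ (fun x => f (t x)) ∘ ⇑(starRingEnd ℂ))) =ᶠ[𝓝 z]
      fun _ => (0 : ℂ) := by
    filter_upwards [h3] with x hx
    exact hx
  have h7 := h5.congr_of_eventuallyEq h6.symm
  exact h7.unique (hasDerivAt_const z 0)

private theorem arcInf_wcj (β : ι → ℂ) (c : ι → ℝ) (z : ℂ) :
    w (cj β) c ((starRingEnd ℂ) z) = (starRingEnd ℂ) (w β c z) := by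
  unfold w cj
  rw [map_sum]
  refine Finset.sum_congr rfl fun i _ => ?_
  rw [map_div₀, map_sub, Complex.conj_ofReal]

private theorem arcInf_log (β : ι → ℂ) (c : ι → ℝ) (hc : ∑ i, c i = 0) :
    ∃ f : ℂ → ℂ, AnalyticAt ℂ f 0 ∧ (∀ᶠ z in 𝓝 (0 : ℂ), ∀ i, 1 - β i * z ≠ 0) ∧
      (∀ᶠ z in 𝓝[≠] (0 : ℂ), w β c z⁻¹ = - z ^ 2 * deriv f z) ∧
      ∀ᶠ z in 𝓝[≠] (0 : ℂ), (f z).re = u β c z⁻¹ := by
  have e1 : ∀ᶠ z in 𝓝 (0 : ℂ), ∀ i, 1 - β i * z ∈ Complex.slitPlane := by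
    rw [eventually_all]
    intro i
    have h1 : ContinuousAt (fun z : ℂ => 1 - β i * z) 0 := by fun_prop
    have h2 : 1 - β i * 0 ∈ Complex.slitPlane := by
      rw [mul_zero, sub_zero]
      exact Complex.one_mem_slitPlane
    exact h1.eventually_mem (Complex.isOpen_slitPlane.mem_nhds h2)
  have e2 : ∀ᶠ z in 𝓝 (0 : ℂ), HasDerivAt
      (fun z => ∑ i, (c i : ℂ) * Complex.log (1 - β i * z))
      (∑ i, (c i : ℂ) * (- β i / (1 - β i * z))) z := by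
    filter_upwards [e1] with z h1
    have h2 : ∀ i ∈ (Finset.univ : Finset ι), HasDerivAt
        (fun z => (c i : ℂ) * Complex.log (1 - β i * z)) ((c i : ℂ) * (- β i / (1 - β i * z))) z := by
      intro i _
      have h3 : HasDerivAt (fun z : ℂ => 1 - β i * z) (- β i) z := by
        have h4 := ((hasDerivAt_id z).const_mul (β i)).const_sub 1
        rw [mul_one] at h4
        exact h4
      exact (h3.clog (h1 i)).const_mul (c i : ℂ)
    exact HasDerivAt.fun_sum h2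
  have hcC : ∑ i, (c i : ℂ) = 0 := by
    rw [← Complex.ofReal_sum, hc, Complex.ofReal_zero]
  refine ⟨fun z => ∑ i, (c i : ℂ) * Complex.log (1 - β i * z), ?_, ?_, ?_, ?_⟩
  · rw [Complex.analyticAt_iff_eventually_differentiableAt]
    filter_upwards [e2] with t h1
    exact h1.differentiableAt
  · filter_upwards [e1] with z h1 i
    exact Complex.slitPlane_ne_zero (h1 i)
  · have e3 : ∀ᶠ z in 𝓝[≠] (0 : ℂ), z ≠ 0 := eventually_mem_nhdsWithin
    filter_upwards [e2.filter_mono nhdsWithin_le_nhds, e1.filter_mono nhdsWithin_le_nhds, e3] with z h1 h2 h3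
    rw [h1.deriv]
    unfold w
    have h4 : ∑ i, (c i : ℂ) / (z⁻¹ - β i) = z * ∑ i, (c i : ℂ) +
        - z ^ 2 * ∑ i, (c i : ℂ) * (- β i / (1 - β i * z)) := by
      rw [Finset.mul_sum, Finset.mul_sum, ← Finset.sum_add_distrib]
      refine Finset.sum_congr rfl fun i _ => ?_
      have h5 : 1 - β i * z ≠ 0 := Complex.slitPlane_ne_zero (h2 i)
      have h6 : z⁻¹ - β i = (1 - β i * z) / z := by
        field_simp
      rw [h6]
      field_simp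
      ring
    rw [h4, hcC, mul_zero, zero_add]
  · have e3 : ∀ᶠ z in 𝓝[≠] (0 : ℂ), z ≠ 0 := eventually_mem_nhdsWithin
    filter_upwards [e1.filter_mono nhdsWithin_le_nhds, e3] with z h2 h3
    have h4 : ∑ i, c i * Real.log ‖z⁻¹ - β i‖ = (∑ i, c i * Real.log ‖1 - β i * z‖) -
        (∑ i, c i) * Real.log ‖z‖ := by
      rw [Finset.sum_mul, ← Finset.sum_sub_distrib]
      refine Finset.sum_congr rfl fun i _ => ?_
      have h5 : 1 - β i * z ≠ 0 := Complex.slitPlane_ne_zero (h2 i)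
      have h6 : z⁻¹ - β i = (1 - β i * z) / z := by
        field_simp
      rw [h6, norm_div, Real.log_div (norm_ne_zero_iff.2 h5) (norm_ne_zero_iff.2 h3)]
      ring
    unfold u
    rw [h4, hc, zero_mul, sub_zero, Complex.re_sum]
    refine Finset.sum_congr rfl fun i _ => ?_
    rw [Complex.re_ofReal_mul, Complex.log_re]

private theorem arcInf_log' (β : ι → ℂ) (c : ι → ℝ) (κ : ℝ) (hc : ∑ i, c i = 0) :
    ∃ f : ℂ → ℂ, AnalyticAt ℂ f 0 ∧ (∀ᶠ z in 𝓝 (0 : ℂ), ∀ i, 1 - β i * z ≠ 0) ∧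
      (∀ᶠ z in 𝓝[≠] (0 : ℂ), w β c z⁻¹ = - z ^ 2 * deriv f z) ∧
      ∀ᶠ z in 𝓝[≠] (0 : ℂ), (f z).re = u β c z⁻¹ - κ := by
  obtain ⟨f, h1, h2, h3, h4⟩ := arcInf_log β c hc
  refine ⟨fun t => f t - (κ : ℂ), h1.sub analyticAt_const, h2, ?_, ?_⟩
  · filter_upwards [h3] with t h5
    rw [h5, deriv_sub_const]
  · filter_upwards [h4] with t h5
    rw [Complex.sub_re, Complex.ofReal_re, h5]

theorem arc_inf {β : ι → ℂ} (hβ : Function.Injective β) {A B : ι → ℝ} (hA : A ≠ 0)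
    (hsA : ∑ i, A i = 0) (hsB : ∑ i, B i = 0)
    {c₁ c₂ : ℝ} (hfr : ∃ᶠ t in Bornology.cobounded ℂ, u β A t = c₁ ∧ u β B t = c₂) :
    ∃ t s : ℂ → ℂ, IsArc β A B t s := by
  obtain ⟨f, hf, hf1, hfd, hfr1⟩ := arcInf_log' β A c₁ hsA
  obtain ⟨g, hg, _, hgd, hgr1⟩ := arcInf_log' β B c₂ hsB
  have hf0 : ¬ ∀ᶠ z in 𝓝 (0 : ℂ), f z = f 0 := by
    intro h1
    have e3 : ∀ᶠ z in 𝓝[≠] (0 : ℂ), z ≠ 0 := eventually_mem_nhdsWithin
    have h2 : ∀ᶠ z in 𝓝[≠] (0 : ℂ), (P β A).eval z⁻¹ = 0 := by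
      filter_upwards [e3, hf1.filter_mono nhdsWithin_le_nhds, hfd,
        h1.eventually_nhds.filter_mono nhdsWithin_le_nhds] with z h3 h3a h4 h5
      have h6 : HasDerivAt f 0 z := (hasDerivAt_const z (f 0)).congr_of_eventuallyEq h5
      have h7 : ∀ i, z⁻¹ ≠ β i := by
        intro i h8
        apply h3a i
        rw [← h8, inv_mul_cancel₀ h3, sub_self]
      rw [P_eval β A h7, h4, h6.deriv, mul_zero, zero_mul]
    have h3 : ∀ᶠ t in Bornology.cobounded ℂ, (P β A).eval t = 0 := by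
      have h4 := (tendsto_inv₀_cobounded' (α := ℂ)).eventually h2
      refine h4.mono fun t ht => ?_
      rw [inv_inv] at ht
      exact ht
    refine P_ne hβ hA (Polynomial.eq_zero_of_infinite_isRoot _ ?_)
    intro h5
    have h6 := Bornology.isBounded_def.1 h5.isBounded
    have h7 := (h3.and h6).exists
    obtain ⟨t, h8, h9⟩ := h7
    exact h9 h8
  have hfr2 : ∃ᶠ z in 𝓝[≠] (0 : ℂ), (f z).re = 0 ∧ (g z).re = 0 := by
    refine (tendsto_inv₀_cobounded' (α := ℂ)).frequently ?_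
    have h1 := (tendsto_inv₀_cobounded' (α := ℂ)).eventually (hfr1.and hgr1)
    refine (hfr.and_eventually h1).mono ?_
    rintro z ⟨⟨h2, h3⟩, h4, h5⟩
    rw [inv_inv] at h4 h5
    exact ⟨h4.trans (sub_eq_zero.2 h2), h5.trans (sub_eq_zero.2 h3)⟩
  obtain ⟨ζ, hζ, hζ0, hζd, hF, hG⟩ := loc hf hg hf0 hfr2
  have hcj0 : Tendsto (starRingEnd ℂ) (𝓝 (0 : ℂ)) (𝓝 (0 : ℂ)) := by
    have h1 := (Complex.continuous_conj.tendsto (0 : ℂ))
    rw [map_zero] at h1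
    exact h1
  have hcj : Tendsto (starRingEnd ℂ) (𝓝[≠] (0 : ℂ)) (𝓝[≠] (0 : ℂ)) := by
    refine tendsto_nhdsWithin_iff.2 ⟨hcj0.mono_left nhdsWithin_le_nhds, ?_⟩
    have e3 : ∀ᶠ z in 𝓝[≠] (0 : ℂ), z ≠ 0 := eventually_mem_nhdsWithin
    refine e3.mono fun z hz => ?_
    exact (map_ne_zero _).2 hz
  have a0 : ∀ᶠ z in 𝓝[≠] (0 : ℂ), ζ z ≠ 0 := hζ.differentiableAt.hasDerivAt.eventually_ne hζd
  have hζt0 : Tendsto ζ (𝓝 0) (𝓝 0) := by
    have h1 := hζ.continuousAt.tendsto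
    rw [hζ0] at h1
    exact h1
  have hζt : Tendsto ζ (𝓝[≠] 0) (𝓝[≠] 0) :=
    tendsto_nhdsWithin_iff.2 ⟨hζt0.mono_left nhdsWithin_le_nhds, a0⟩
  have a1 : ∀ᶠ z in 𝓝[≠] (0 : ℂ), DifferentiableAt ℂ ζ z :=
    (Complex.analyticAt_iff_eventually_differentiableAt.1 hζ).filter_mono nhdsWithin_le_nhds
  have a2 : ∀ᶠ z in 𝓝[≠] (0 : ℂ), deriv ζ z ≠ 0 :=
    (hζ.deriv.continuousAt.eventually_ne hζd).filter_mono nhdsWithin_le_nhds
  have a3 : ∀ᶠ z in 𝓝[≠] (0 : ℂ), ∀ i, 1 - β i * ζ z ≠ 0 :=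
    (hζt0.eventually hf1).filter_mono nhdsWithin_le_nhds
  have a4 := hζt.eventually hfd
  have a5 := hζt.eventually hgd
  have a : ∀ᶠ z in 𝓝[≠] (0 : ℂ), ∃ d : ℂ, d ≠ 0 ∧ HasDerivAt (fun z => (ζ z)⁻¹) d z ∧
      (∀ i, (ζ z)⁻¹ ≠ β i) ∧ w β A (ζ z)⁻¹ * d = deriv f (ζ z) * deriv ζ z ∧
      w β B (ζ z)⁻¹ * d = deriv g (ζ z) * deriv ζ z := by
    filter_upwards [a0, a1, a2, a3, a4, a5] with z b0 b1 b2 b3 b4 b5
    have b6 : HasDerivAt (fun z => (ζ z)⁻¹) (-deriv ζ z / ζ z ^ 2) z := b1.hasDerivAt.fun_inv b0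
    refine ⟨_, ?_, b6, ?_, ?_, ?_⟩
    · exact div_ne_zero (neg_ne_zero.2 b2) (pow_ne_zero 2 b0)
    · intro i h8
      apply b3 i
      rw [← h8, inv_mul_cancel₀ b0, sub_self]
    · rw [b4]
      field_simp
    · rw [b5]
      field_simp
  have b := hcj.eventually a
  have hs : AnalyticAt ℂ (fun z => (starRingEnd ℂ) (ζ ((starRingEnd ℂ) z))) 0 := analyticAt_reflect hζ
  have hs2 : MeromorphicAt (fun z => (starRingEnd ℂ) (ζ ((starRingEnd ℂ) z))⁻¹) 0 := by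
    have h1 := hs.meromorphicAt.inv
    have h2 : (fun z => (starRingEnd ℂ) (ζ ((starRingEnd ℂ) z)))⁻¹ =
        fun z => (starRingEnd ℂ) (ζ ((starRingEnd ℂ) z))⁻¹ := by
      funext z
      rw [Pi.inv_apply, map_inv₀]
    rw [h2] at h1
    exact h1
  refine ⟨fun z => (ζ z)⁻¹, fun z => (starRingEnd ℂ) (ζ ((starRingEnd ℂ) z))⁻¹,
    hζ.meromorphicAt.inv, hs2, ?_⟩
  filter_upwards [a, b, (arcInf_deriv hf hζ hζ0 hF).filter_mono nhdsWithin_le_nhds,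
    (arcInf_deriv hg hζ hζ0 hG).filter_mono nhdsWithin_le_nhds] with z ha hb h1 h2
  obtain ⟨d, c1, c2, c3, c4, c5⟩ := ha
  obtain ⟨e, d1, d2, d3, d4, d5⟩ := hb
  have hsd : HasDerivAt (fun z => (starRingEnd ℂ) (ζ ((starRingEnd ℂ) z))⁻¹)
      ((starRingEnd ℂ) e) z := by
    have h3 := d2.conj_conj
    rw [Complex.conj_conj] at h3
    exact h3
  refine ⟨c2.differentiableAt, hsd.differentiableAt, ?_, ?_, c3, ?_, ?_, ?_⟩
  · rw [c2.deriv]
    exact c1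
  · rw [hsd.deriv]
    exact (map_ne_zero _).2 d1
  · intro i h3
    exact d3 i ((starRingEnd ℂ).injective h3)
  · rw [hsd.deriv, c2.deriv, arcInf_wcj, ← map_mul, c4, d4]
    exact h1
  · rw [hsd.deriv, c2.deriv, arcInf_wcj, ← map_mul, c5, d5]
    exact h2

end NE
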