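import Pool.Agent.Lib.MP_a325a5_ag.NE.ArcFin
import Pool.Agent.Lib.MP_a325a5_ag.NE.ArcInf
import Pool.Agent.Lib.MP_a325a5_ag.NE.Acc

/-! Existence of the arc. -/

open Filter Topology

namespace NE

variable {ι : Type} [Fintype ι] [DecidableEq ι]

theorem exists_arc {β : ι → ℂ} (hβ : Function.Injective β) {A B : ι → ℝ} (hA : A ≠ 0)
    (hact : ∀ i, A i ≠ 0 ∨ B i ≠ 0)
    {c₁ c₂ : ℝ} (hE : {t | (∀ i, t ≠ β i) ∧ u β A t = c₁ ∧ u β B t = c₂}.Infinite) :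
    ∃ t s : ℂ → ℂ, IsArc β A B t s := by
  rcases acc hβ hact hE with ⟨t₀, h1, h2⟩ | ⟨h1, h2, h3⟩
  · exact arc_fin hβ hA h1 h2
  · exact arc_inf hβ hA h1 h2 h3

end NE
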