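import Pool.Agent.Lib.MP_a325a5_ag.NE.Loc
import Pool.Agent.Lib.MP_a325a5_ag.NE.Pol

/-! The arc in the case of a finite accumulation point.
Proof: `f_c t = ∑ c_i * Complex.log ((t - β_i) / (t₀ - β_i)) + u β c t₀` is analytic near `t₀` (the quotients are near `1`), its real
part is `u β c t` near `t₀`, its derivative is `w β c t`.  `f_A` is not locally constant: otherwise `w β A = 0` near `t₀`, so
`P β A` has infinitely many zeros (`P_eval`), against `P_ne`.  Apply `loc` to `f_A`, `f_B`; `s z = conj (t (conj z))`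
(`analyticAt_reflect`).  Since `conj (f_c (t (conj z)))` has derivative `w (cj β) c (s z) * deriv s z`, differentiation of the two
identities of `loc` in a neighbourhood of `0` gives the differential relations. -/

open Filter Topology

namespace NE

variable {ι : Type} [Fintype ι] [DecidableEq ι]

private theorem arcFin_deriv {f t : ℂ → ℂ} {z₀ : ℂ} (hf : AnalyticAt ℂ f z₀) (ht : AnalyticAt ℂ t 0)
    (ht0 : t 0 = z₀)
    (h : ∀ᶠ z in 𝓝 (0 : ℂ), f (t z) + (starRingEnd ℂ) (f (t ((starRingEnd ℂ) z))) = 0) :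
    ∀ᶠ z in 𝓝 (0 : ℂ), deriv f (t z) * deriv t z +
      (starRingEnd ℂ) (deriv f (t ((starRingEnd ℂ) z)) * deriv t ((starRingEnd ℂ) z)) = 0 := by
  have htt : Tendsto t (𝓝 0) (𝓝 z₀) := by
    have h1 := ht.continuousAt.tendsto
    rw [ht0] at h1
    exact h1
  have hcj : Tendsto (starRingEnd ℂ) (𝓝 (0 : ℂ)) (𝓝 (0 : ℂ)) := by
    have h1 := (Complex.continuous_conj.tendsto (0 : ℂ))
    rw [map_zero] at h1
    exact h1
  have e1 : ∀ᶠ z in 𝓝 (0 : ℂ), HasDerivAt (fun x => f (t x)) (deriv f (t z) * deriv t z) z := by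
    have h1 : ∀ᶠ z in 𝓝 (0 : ℂ), DifferentiableAt ℂ f (t z) :=
      htt.eventually (Complex.analyticAt_iff_eventually_differentiableAt.1 hf)
    filter_upwards [h1, Complex.analyticAt_iff_eventually_differentiableAt.1 ht] with z h2 h3
    exact h2.hasDerivAt.comp z h3.hasDerivAt
  have e2 := hcj.eventually e1
  filter_upwards [e1, e2, h.eventually_nhds] with z h1 h2 h3
  have h4 := h2.conj_conj
  rw [Complex.conj_conj] at h4
  have h5 := h1.add h4
  have h6 : ((fun x => f (t x)) + (⇑(starRingEnd ℂ) ∘ (fun x => f (t x)) ∘ ⇑(starRingEnd ℂ))) =ᶠ[𝓝 z]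
      fun _ => (0 : ℂ) := by
    filter_upwards [h3] with x hx
    exact hx
  have h7 := h5.congr_of_eventuallyEq h6.symm
  exact h7.unique (hasDerivAt_const z 0)

private theorem arcFin_log (β : ι → ℂ) (c : ι → ℝ) {t₀ : ℂ} (ht₀ : ∀ i, t₀ ≠ β i) :
    ∃ f : ℂ → ℂ, AnalyticAt ℂ f t₀ ∧ (∀ᶠ t in 𝓝 t₀, HasDerivAt f (w β c t) t) ∧
      ∀ᶠ t in 𝓝 t₀, (f t).re = u β c t := by
  have e0 : ∀ᶠ t in 𝓝 t₀, ∀ i, t ≠ β i := by
    rw [eventually_all]
    intro i
    exact continuousAt_id.eventually_ne (ht₀ i)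
  have e1 : ∀ᶠ t in 𝓝 t₀, ∀ i, (t - β i) / (t₀ - β i) ∈ Complex.slitPlane := by
    rw [eventually_all]
    intro i
    have h1 : ContinuousAt (fun t : ℂ => (t - β i) / (t₀ - β i)) t₀ := by fun_prop
    have h2 : (t₀ - β i) / (t₀ - β i) ∈ Complex.slitPlane := by
      rw [div_self (sub_ne_zero.2 (ht₀ i))]
      exact Complex.one_mem_slitPlane
    exact h1.eventually_mem (Complex.isOpen_slitPlane.mem_nhds h2)
  have e2 : ∀ᶠ t in 𝓝 t₀, HasDerivAt
      (fun t => ∑ i, (c i : ℂ) * Complex.log ((t - β i) / (t₀ - β i)) + (u β c t₀ : ℂ)) (w β c t) t := by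
    filter_upwards [e0, e1] with t h0 h1
    have h2 : ∀ i ∈ (Finset.univ : Finset ι), HasDerivAt
        (fun t => (c i : ℂ) * Complex.log ((t - β i) / (t₀ - β i))) ((c i : ℂ) / (t - β i)) t := by
      intro i _
      have h3 : HasDerivAt (fun t : ℂ => (t - β i) / (t₀ - β i)) (1 / (t₀ - β i)) t :=
        ((hasDerivAt_id t).sub_const (β i)).div_const (t₀ - β i)
      have h4 := (h3.clog (h1 i)).const_mul (c i : ℂ)
      have h5 : (c i : ℂ) * (1 / (t₀ - β i) / ((t - β i) / (t₀ - β i))) = (c i : ℂ) / (t - β i) := by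
        have h6 := sub_ne_zero.2 (ht₀ i)
        have h7 := sub_ne_zero.2 (h0 i)
        field_simp
      rw [h5] at h4
      exact h4
    have h8 := (HasDerivAt.fun_sum h2).add_const (u β c t₀ : ℂ)
    exact h8
  refine ⟨_, ?_, e2, ?_⟩
  · rw [Complex.analyticAt_iff_eventually_differentiableAt]
    filter_upwards [e2] with t h1
    exact h1.differentiableAt
  · filter_upwards [e0] with t h0
    rw [Complex.add_re, Complex.re_sum, Complex.ofReal_re]
    unfold u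
    rw [← Finset.sum_add_distrib]
    refine Finset.sum_congr rfl fun i _ => ?_
    rw [Complex.re_ofReal_mul, Complex.log_re, norm_div,
      Real.log_div (norm_ne_zero_iff.2 (sub_ne_zero.2 (h0 i)))
        (norm_ne_zero_iff.2 (sub_ne_zero.2 (ht₀ i)))]
    ring

private theorem arcFin_log' (β : ι → ℂ) (c : ι → ℝ) (κ : ℝ) {t₀ : ℂ} (ht₀ : ∀ i, t₀ ≠ β i) :
    ∃ f : ℂ → ℂ, AnalyticAt ℂ f t₀ ∧ (∀ᶠ t in 𝓝 t₀, HasDerivAt f (w β c t) t) ∧
      ∀ᶠ t in 𝓝 t₀, (f t).re = u β c t - κ := by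
  obtain ⟨f, h1, h2, h3⟩ := arcFin_log β c ht₀
  refine ⟨fun t => f t - (κ : ℂ), h1.sub analyticAt_const, ?_, ?_⟩
  · filter_upwards [h2] with t h4
    exact h4.sub_const (κ : ℂ)
  · filter_upwards [h3] with t h4
    rw [Complex.sub_re, Complex.ofReal_re, h4]

private theorem arcFin_wcj (β : ι → ℂ) (c : ι → ℝ) (z : ℂ) :
    w (cj β) c ((starRingEnd ℂ) z) = (starRingEnd ℂ) (w β c z) := by
  unfold w cj
  rw [map_sum]
  refine Finset.sum_congr rfl fun i _ => ?_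
  rw [map_div₀, map_sub, Complex.conj_ofReal]

theorem arc_fin {β : ι → ℂ} (hβ : Function.Injective β) {A B : ι → ℝ} (hA : A ≠ 0) {t₀ : ℂ}
    (ht₀ : ∀ i, t₀ ≠ β i) {c₁ c₂ : ℝ} (hfr : ∃ᶠ t in 𝓝[≠] t₀, u β A t = c₁ ∧ u β B t = c₂) :
    ∃ t s : ℂ → ℂ, IsArc β A B t s := by
  have e0 : ∀ᶠ t in 𝓝 t₀, ∀ i, t ≠ β i := by
    rw [eventually_all]
    intro i
    exact continuousAt_id.eventually_ne (ht₀ i)
  obtain ⟨f, hf, hfd, hfr1⟩ := arcFin_log' β A c₁ ht₀
  obtain ⟨g, hg, hgd, hgr1⟩ := arcFin_log' β B c₂ ht₀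
  have hf0 : ¬ ∀ᶠ z in 𝓝 t₀, f z = f t₀ := by
    intro h1
    have h2 : ∀ᶠ z in 𝓝 t₀, (P β A).eval z = 0 := by
      filter_upwards [e0, hfd, h1.eventually_nhds] with z h3 h4 h5
      have h6 : HasDerivAt f 0 z := (hasDerivAt_const z (f t₀)).congr_of_eventuallyEq h5
      rw [P_eval β A h3, h4.unique h6, zero_mul]
    exact P_ne hβ hA (Polynomial.eq_zero_of_infinite_isRoot _ (infinite_of_mem_nhds t₀ h2))
  have hfr2 : ∃ᶠ z in 𝓝[≠] t₀, (f z).re = 0 ∧ (g z).re = 0 := by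
    have h1 : ∀ᶠ z in 𝓝[≠] t₀, (f z).re = u β A z - c₁ ∧ (g z).re = u β B z - c₂ :=
      (hfr1.and hgr1).filter_mono nhdsWithin_le_nhds
    refine (hfr.and_eventually h1).mono ?_
    rintro z ⟨⟨h2, h3⟩, h4, h5⟩
    exact ⟨h4.trans (sub_eq_zero.2 h2), h5.trans (sub_eq_zero.2 h3)⟩
  obtain ⟨t, ht, ht0, htd, hF, hG⟩ := loc hf hg hf0 hfr2
  have htt : Tendsto t (𝓝 0) (𝓝 t₀) := by
    have h1 := ht.continuousAt.tendsto
    rw [ht0] at h1
    exact h1
  have hcj : Tendsto (starRingEnd ℂ) (𝓝 (0 : ℂ)) (𝓝 (0 : ℂ)) := by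
    have h1 := (Complex.continuous_conj.tendsto (0 : ℂ))
    rw [map_zero] at h1
    exact h1
  have a1 : ∀ᶠ z in 𝓝 (0 : ℂ), DifferentiableAt ℂ t z :=
    Complex.analyticAt_iff_eventually_differentiableAt.1 ht
  have a2 : ∀ᶠ z in 𝓝 (0 : ℂ), deriv t z ≠ 0 := ht.deriv.continuousAt.eventually_ne htd
  have a3 : ∀ᶠ z in 𝓝 (0 : ℂ), ∀ i, t z ≠ β i := htt.eventually e0
  have a4 : ∀ᶠ z in 𝓝 (0 : ℂ), HasDerivAt f (w β A (t z)) (t z) := htt.eventually hfd
  have a5 : ∀ᶠ z in 𝓝 (0 : ℂ), HasDerivAt g (w β B (t z)) (t z) := htt.eventually hgd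
  have a := ((a1.and a2).and (a3.and (a4.and a5)))
  have b := hcj.eventually a
  have hs : AnalyticAt ℂ (fun z => (starRingEnd ℂ) (t ((starRingEnd ℂ) z))) 0 := analyticAt_reflect ht
  refine ⟨t, fun z => (starRingEnd ℂ) (t ((starRingEnd ℂ) z)), ht.meromorphicAt, hs.meromorphicAt, ?_⟩
  refine Filter.Eventually.filter_mono nhdsWithin_le_nhds ?_
  filter_upwards [a, b, arcFin_deriv hf ht ht0 hF, arcFin_deriv hg ht ht0 hG] with z ha hb h1 h2
  obtain ⟨⟨c1, c2⟩, c3, c4, c5⟩ := ha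
  obtain ⟨⟨d1, d2⟩, d3, d4, d5⟩ := hb
  have hsd : HasDerivAt (fun z => (starRingEnd ℂ) (t ((starRingEnd ℂ) z)))
      ((starRingEnd ℂ) (deriv t ((starRingEnd ℂ) z))) z := by
    have h3 := d1.hasDerivAt.conj_conj
    rw [Complex.conj_conj] at h3
    exact h3
  refine ⟨c1, hsd.differentiableAt, c2, ?_, c3, ?_, ?_, ?_⟩
  · rw [hsd.deriv]
    exact (map_ne_zero _).2 d2
  · intro i h3
    exact d3 i ((starRingEnd ℂ).injective h3)
  · rw [c4.deriv, d4.deriv] at h1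
    rw [hsd.deriv, arcFin_wcj, ← map_mul]
    exact h1
  · rw [c5.deriv, d5.deriv] at h2
    rw [hsd.deriv, arcFin_wcj, ← map_mul]
    exact h2

end NE
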