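import Pool.Agent.Lib.MP_a325a5_ag.NE.Def

/-! The unit circle.
Proof: for `‖t‖ = 1`, `x = t.re ∈ [-1, 1]`, `β = i + 2`: `‖t - β‖ ^ 2 = 1 + β ^ 2 - 2 β x`, positive on `[-1, 1]`.  `h x = ∑ D_i * log (1 + β_i ^ 2 - 2 β_i x)` is real analytic on the interval
`x < 5 / 4` (`(β + 1/β)/2 ≥ 5/4`).  If the set is infinite so is the set of the `x` (each `x` comes from at most two `t`), they accumulate in `[-1, 1]`, so
`h = 0` on the whole interval (identity theorem on a connected set), `h' = 0`: `∑ D_i (-2 β_i) / (1 + β_i ^ 2 - 2 β_i x) = 0` for infinitely many `x`.  Multiply out: a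
polynomial identity; evaluate at the zero of `1 + β_j ^ 2 - 2 β_j x` (these zeros are distinct): `D_j = 0`. -/

namespace NE

private theorem circ_pos (i : ℕ) {x : ℝ} (hx : x < 5 / 4) :
    0 < 1 + ((i : ℝ) + 2) ^ 2 - 2 * ((i : ℝ) + 2) * x := by
  have hi : (0 : ℝ) ≤ i := Nat.cast_nonneg i
  nlinarith

private theorem circ_norm (i : ℕ) {t : ℂ} (ht : ‖t‖ = 1) :
    Real.log ‖t - ((i : ℂ) + 2)‖ =
      1 / 2 * Real.log (1 + ((i : ℝ) + 2) ^ 2 - 2 * ((i : ℝ) + 2) * t.re) := by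
  have h1 : ‖t - ((i : ℂ) + 2)‖ ^ 2 = 1 + ((i : ℝ) + 2) ^ 2 - 2 * ((i : ℝ) + 2) * t.re := by
    have h2 : t.re ^ 2 + t.im ^ 2 = 1 := by
      have h3 := Complex.sq_norm t
      rw [ht, Complex.normSq_apply] at h3
      linarith
    rw [Complex.sq_norm, Complex.normSq_apply]
    simp only [Complex.sub_re, Complex.sub_im, Complex.add_re, Complex.add_im,
      Complex.natCast_re, Complex.natCast_im, Complex.re_ofNat, Complex.im_ofNat]
    linear_combination h2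
  rw [← h1, Real.log_pow]
  push_cast
  ring

theorem circle {N : ℕ} (D : Fin N → ℝ) (hD : D ≠ 0) :
    {t : ℂ | ‖t‖ = 1 ∧ ∑ i : Fin N, D i * Real.log ‖t - ((i : ℕ) + 2)‖ = 0}.Finite := by
  classical
  by_contra hinf
  obtain ⟨E, hE⟩ : ∃ E, E = {t : ℂ | ‖t‖ = 1 ∧
    ∑ i : Fin N, D i * Real.log ‖t - ((i : ℕ) + 2)‖ = 0} := ⟨_, rfl⟩
  rw [← hE] at hinf
  obtain ⟨h, hh⟩ : ∃ h : ℝ → ℝ, ∀ x, h x =
    ∑ i : Fin N, D i * Real.log (1 + ((i : ℕ) + 2) ^ 2 - 2 * ((i : ℕ) + 2) * x) := ⟨_, fun _ => rfl⟩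
  have hmem : ∀ t ∈ E, ‖t‖ = 1 ∧ h t.re = 0 := by
    intro t ht
    rw [hE] at ht
    refine ⟨ht.1, ?_⟩
    have h1 : ∑ i : Fin N, D i * Real.log ‖t - ((i : ℕ) + 2)‖ = 1 / 2 * h t.re := by
      rw [hh, Finset.mul_sum]
      refine Finset.sum_congr rfl fun i _ => ?_
      rw [circ_norm (i : ℕ) ht.1]
      ring
    have h2 := ht.2
    rw [h1] at h2
    linarith
  have hXinf : (Complex.re '' E).Infinite := by
    intro hfin
    apply hinf
    refine (hfin.biUnion (t := fun x => {t : ℂ | ‖t‖ = 1 ∧ t.re = x}) fun x _ => ?_).subset ?_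
    · have h1 : {t : ℂ | ‖t‖ = 1 ∧ t.re = x} ⊆
          {(⟨x, Real.sqrt (1 - x ^ 2)⟩ : ℂ), (⟨x, - Real.sqrt (1 - x ^ 2)⟩ : ℂ)} := by
        rintro t ⟨ht, rfl⟩
        have h2 : t.im ^ 2 = 1 - t.re ^ 2 := by
          have h3 := Complex.sq_norm t
          rw [ht, Complex.normSq_apply] at h3
          linarith
        rw [← h2, Real.sqrt_sq_eq_abs]
        rcases abs_cases t.im with ⟨h4, _⟩ | ⟨h4, _⟩
        · left
          rw [h4]
        · right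
          rw [h4, neg_neg]
          rfl
      exact (Set.toFinite _).subset h1
    · intro t ht
      exact Set.mem_biUnion (Set.mem_image_of_mem _ ht) ⟨(hmem t ht).1, rfl⟩
  have hXsub : Complex.re '' E ⊆ Set.Icc (-1) 1 := by
    rintro _ ⟨t, ht, rfl⟩
    have h1 := Complex.abs_re_le_norm t
    rw [(hmem t ht).1, abs_le] at h1
    exact h1
  obtain ⟨x₀, hx₀, hacc⟩ := hXinf.exists_accPt_of_subset_isCompact isCompact_Icc hXsub
  have hfreq : ∃ᶠ x in nhdsWithin x₀ {x₀}ᶜ, h x = 0 := by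
    have h1 := accPt_iff_frequently_nhdsNE.mp hacc
    refine h1.mono ?_
    rintro _ ⟨t, ht, rfl⟩
    exact (hmem t ht).2
  have hderiv : ∀ x < (5 / 4 : ℝ), HasDerivAt h (∑ i : Fin N, D i *
      (- (2 * ((i : ℕ) + 2)) / (1 + ((i : ℕ) + 2) ^ 2 - 2 * ((i : ℕ) + 2) * x))) x := by
    intro x hx
    have h1 : h = fun x => ∑ i : Fin N,
        D i * Real.log (1 + ((i : ℕ) + 2) ^ 2 - 2 * ((i : ℕ) + 2) * x) := funext hh
    rw [h1]
    refine HasDerivAt.fun_sum fun i _ => ?_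
    have h2 : HasDerivAt (fun x : ℝ => 1 + (((i : ℕ) : ℝ) + 2) ^ 2 - 2 * (((i : ℕ) : ℝ) + 2) * x)
        (- (2 * (((i : ℕ) : ℝ) + 2))) x := by
      have h3 := ((hasDerivAt_id x).const_mul (2 * (((i : ℕ) : ℝ) + 2))).const_sub
        (1 + (((i : ℕ) : ℝ) + 2) ^ 2)
      rw [mul_one] at h3
      exact h3
    exact (h2.log (circ_pos _ hx).ne').const_mul (D i)
  have han : AnalyticOnNhd ℝ h (Set.Iio (5 / 4)) := by
    intro x hx
    have h1 : h = fun x => ∑ i : Fin N,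
        D i * Real.log (1 + ((i : ℕ) + 2) ^ 2 - 2 * ((i : ℕ) + 2) * x) := funext hh
    rw [h1]
    refine Finset.analyticAt_fun_sum _ fun i _ => ?_
    refine analyticAt_const.mul (AnalyticAt.log ?_ (circ_pos _ hx))
    exact analyticAt_const.sub (analyticAt_const.mul analyticAt_id)
  have hzero := han.eqOn_zero_of_preconnected_of_frequently_eq_zero isPreconnected_Iio
    (show x₀ ∈ Set.Iio (5 / 4) by
      have := hx₀.2
      simp only [Set.mem_Iio]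
      linarith) hfreq
  have hder0 : ∀ x < (5 / 4 : ℝ), ∑ i : Fin N, D i *
      (- (2 * ((i : ℕ) + 2)) / (1 + ((i : ℕ) + 2) ^ 2 - 2 * ((i : ℕ) + 2) * x)) = 0 := by
    intro x hx
    have h1 : h =ᶠ[nhds x] fun _ => (0 : ℝ) := by
      filter_upwards [Iio_mem_nhds hx] with z hz
      exact hzero hz
    exact ((hasDerivAt_const x (0 : ℝ)).congr_of_eventuallyEq h1).unique (hderiv x hx) |>.symm
  obtain ⟨Q, hQ⟩ : ∃ Q : Polynomial ℝ, Q = ∑ i : Fin N, Polynomial.C (D i * (- (2 * ((i : ℕ) + 2)))) *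
    ∏ l ∈ Finset.univ.erase i, (Polynomial.C (1 + (((l : ℕ) : ℝ) + 2) ^ 2) -
      Polynomial.C (2 * (((l : ℕ) : ℝ) + 2)) * Polynomial.X) := ⟨_, rfl⟩
  have hQev : ∀ x, Q.eval x = ∑ i : Fin N, D i * (- (2 * ((i : ℕ) + 2))) *
      ∏ l ∈ Finset.univ.erase i, (1 + (((l : ℕ) : ℝ) + 2) ^ 2 - 2 * (((l : ℕ) : ℝ) + 2) * x) := by
    intro x
    rw [hQ, Polynomial.eval_finsetSum]
    refine Finset.sum_congr rfl fun i _ => ?_
    rw [Polynomial.eval_mul, Polynomial.eval_C, Polynomial.eval_prod]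
    simp
  have hQ0 : Q = 0 := by
    refine Polynomial.eq_zero_of_infinite_isRoot Q ((Set.Iio_infinite (5 / 4 : ℝ)).mono ?_)
    intro x hx
    have hx' : x < 5 / 4 := hx
    change Q.eval x = 0
    rw [hQev]
    have h1 : ∑ i : Fin N, D i * (- (2 * ((i : ℕ) + 2))) *
        ∏ l ∈ Finset.univ.erase i, (1 + (((l : ℕ) : ℝ) + 2) ^ 2 - 2 * (((l : ℕ) : ℝ) + 2) * x) =
        (∏ l : Fin N, (1 + (((l : ℕ) : ℝ) + 2) ^ 2 - 2 * (((l : ℕ) : ℝ) + 2) * x)) *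
        ∑ i : Fin N, D i *
          (- (2 * ((i : ℕ) + 2)) / (1 + ((i : ℕ) + 2) ^ 2 - 2 * ((i : ℕ) + 2) * x)) := by
      rw [Finset.mul_sum]
      refine Finset.sum_congr rfl fun i _ => ?_
      rw [← Finset.mul_prod_erase Finset.univ _ (Finset.mem_univ i)]
      have h5 : ∀ Z c d : ℝ, c ≠ 0 → D i * d * Z = c * Z * (D i * (d / c)) := by
        intro Z c d hc
        field_simp
      exact h5 _ _ _ (circ_pos (i : ℕ) hx').ne'
    rw [h1, hder0 x hx', mul_zero]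
  apply hD
  funext j
  have h1 := hQev ((1 + (((j : ℕ) : ℝ) + 2) ^ 2) / (2 * (((j : ℕ) : ℝ) + 2)))
  have hj : (0 : ℝ) < ((j : ℕ) : ℝ) + 2 := by positivity
  rw [hQ0, Polynomial.eval_zero, Finset.sum_eq_single j] at h1
  · have h2 : ∏ l ∈ Finset.univ.erase j, (1 + (((l : ℕ) : ℝ) + 2) ^ 2 - 2 * (((l : ℕ) : ℝ) + 2) *
        ((1 + (((j : ℕ) : ℝ) + 2) ^ 2) / (2 * (((j : ℕ) : ℝ) + 2)))) ≠ 0 := by
      rw [Finset.prod_ne_zero_iff]
      intro l hl
      have hlj : l ≠ j := (Finset.mem_erase.mp hl).1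
      have h3 : 1 + (((l : ℕ) : ℝ) + 2) ^ 2 - 2 * (((l : ℕ) : ℝ) + 2) *
          ((1 + (((j : ℕ) : ℝ) + 2) ^ 2) / (2 * (((j : ℕ) : ℝ) + 2))) =
          ((((j : ℕ) : ℝ) + 2) - (((l : ℕ) : ℝ) + 2)) *
            (1 - (((j : ℕ) : ℝ) + 2) * (((l : ℕ) : ℝ) + 2)) / (((j : ℕ) : ℝ) + 2) := by
        field_simp
        ring
      rw [h3]
      have h4 : (((j : ℕ) : ℝ) + 2) - (((l : ℕ) : ℝ) + 2) ≠ 0 := by
        intro h5
        have h6 : ((j : ℕ) : ℝ) = ((l : ℕ) : ℝ) := by linarith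
        exact hlj (Fin.ext (Nat.cast_injective h6)).symm
      have h5 : 1 - (((j : ℕ) : ℝ) + 2) * (((l : ℕ) : ℝ) + 2) ≠ 0 := by
        have h6 : (0 : ℝ) ≤ ((j : ℕ) : ℝ) := Nat.cast_nonneg _
        have h7 : (0 : ℝ) ≤ ((l : ℕ) : ℝ) := Nat.cast_nonneg _
        nlinarith [mul_nonneg h6 h7]
      exact div_ne_zero (mul_ne_zero h4 h5) hj.ne'
    rcases mul_eq_zero.mp h1.symm with h3 | h3
    · rcases mul_eq_zero.mp h3 with h4 | h4
      · exact h4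
      · exfalso
        linarith
    · exact absurd h3 h2
  · intro i _ hij
    have h2 : ∏ l ∈ Finset.univ.erase i, (1 + (((l : ℕ) : ℝ) + 2) ^ 2 - 2 * (((l : ℕ) : ℝ) + 2) *
        ((1 + (((j : ℕ) : ℝ) + 2) ^ 2) / (2 * (((j : ℕ) : ℝ) + 2)))) = 0 := by
      refine Finset.prod_eq_zero (Finset.mem_erase.mpr ⟨hij.symm, Finset.mem_univ j⟩) ?_
      field_simp
      ring
    rw [h2, mul_zero]
  · exact fun h => absurd (Finset.mem_univ _) h

end NE
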