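import Pool.Agent.Lib.MP_a325a5_ag.NE.Def

/-! Greedy choice of disjoint pairs.
Proof: induction on `M`: at most `M * K` elements of `S` are related to one of the `e r` chosen before, so there is `i ∈ S` related to none of them; its
partner `i'` is related to `i`, so neither `i` nor `i'` was used before (symmetry and transitivity). -/

namespace NE

theorem greedy (S : Finset ℕ) (r : ℕ → ℕ → Prop) (hrefl : ∀ i ∈ S, r i i)
    (hsymm : ∀ i ∈ S, ∀ j ∈ S, r i j → r j i)
    (htrans : ∀ i ∈ S, ∀ j ∈ S, ∀ l ∈ S, r i j → r j l → r i l) (K : ℕ)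
    (hK : ∀ i ∈ S, ∀ T ⊆ S, (∀ j ∈ T, r i j) → T.card ≤ K)
    (hp : ∀ i ∈ S, ∃ j ∈ S, j ≠ i ∧ r i j) (M : ℕ) (hM : M * K ≤ S.card) (hne : S.Nonempty) :
    ∃ e e' : Fin M → ℕ, Function.Injective (Sum.elim e e') ∧
      ∀ x, e x ∈ S ∧ e' x ∈ S ∧ r (e x) (e' x) := by
  classical
  have hK1 : 1 ≤ K := by
    obtain ⟨i, hi⟩ := hne
    have h := hK i hi {i} (Finset.singleton_subset_iff.mpr hi) (by
      intro j hj
      rw [Finset.mem_singleton] at hj
      rw [hj]
      exact hrefl i hi)
    rwa [Finset.card_singleton] at h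
  suffices H : ∀ m, m ≤ M → ∃ e e' : Fin m → ℕ, (∀ x, e x ∈ S ∧ e' x ∈ S ∧ r (e x) (e' x)) ∧
      (∀ x, e x ≠ e' x) ∧ ∀ x z, x ≠ z → ¬ r (e x) (e z) by
    obtain ⟨e, e', h1, h2, h3⟩ := H M le_rfl
    refine ⟨e, e', ?_, h1⟩
    have hr : ∀ x z, x ≠ z → ∀ i j, (i = e x ∨ i = e' x) → (j = e z ∨ j = e' z) → i ≠ j := by
      intro x z hxz i j hi hj hij
      have hiS : i ∈ S := by
        rcases hi with rfl | rfl
        · exact (h1 x).1
        · exact (h1 x).2.1
      have hi1 : r (e x) i := by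
        rcases hi with rfl | rfl
        · exact hrefl _ (h1 x).1
        · exact (h1 x).2.2
      have hj1 : r (e z) j := by
        rcases hj with rfl | rfl
        · exact hrefl _ (h1 z).1
        · exact (h1 z).2.2
      rw [← hij] at hj1
      exact h3 x z hxz (htrans _ (h1 x).1 _ hiS _ (h1 z).1 hi1 (hsymm _ (h1 z).1 _ hiS hj1))
    rintro (x | x) (z | z) h
    · by_cases hxz : x = z
      · rw [hxz]
      · exact absurd h (hr x z hxz _ _ (Or.inl rfl) (Or.inl rfl))
    · by_cases hxz : x = z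
      · subst hxz
        exact absurd h (h2 x)
      · exact absurd h (hr x z hxz _ _ (Or.inl rfl) (Or.inr rfl))
    · by_cases hxz : x = z
      · subst hxz
        exact absurd h.symm (h2 x)
      · exact absurd h (hr x z hxz _ _ (Or.inr rfl) (Or.inl rfl))
    · by_cases hxz : x = z
      · rw [hxz]
      · exact absurd h (hr x z hxz _ _ (Or.inr rfl) (Or.inr rfl))
  intro m
  induction m with
  | zero => exact fun _ => ⟨Fin.elim0, Fin.elim0, fun x => x.elim0, fun x => x.elim0, fun x => x.elim0⟩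
  | succ m ih =>
    intro hm
    obtain ⟨e, e', h1, h2, h3⟩ := ih (by omega)
    obtain ⟨U, hU⟩ : ∃ U, U = (Finset.univ : Finset (Fin m)).biUnion fun x =>
      S.filter fun j => r (e x) j := ⟨_, rfl⟩
    have hUc : U.card ≤ m * K := by
      rw [hU]
      refine Finset.card_biUnion_le.trans ?_
      refine (Finset.sum_le_card_nsmul _ _ K fun x _ => ?_).trans ?_
      · exact hK _ (h1 x).1 _ (Finset.filter_subset _ _) fun j hj => (Finset.mem_filter.mp hj).2
      · rw [Finset.card_univ, Fintype.card_fin, smul_eq_mul]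
    have hlt : U.card < S.card := by
      have h4 : (m + 1) * K ≤ M * K := Nat.mul_le_mul_right _ hm
      have h5 : (m + 1) * K = m * K + K := by ring
      omega
    obtain ⟨i, hiS, hiU⟩ : ∃ i ∈ S, i ∉ U := Finset.exists_mem_notMem_of_card_lt_card hlt
    have hi : ∀ x, ¬ r (e x) i := by
      intro x hx
      apply hiU
      rw [hU, Finset.mem_biUnion]
      exact ⟨x, Finset.mem_univ _, Finset.mem_filter.mpr ⟨hiS, hx⟩⟩
    obtain ⟨i', hi'S, hne', hri⟩ := hp i hiS
    refine ⟨Fin.snoc e i, Fin.snoc e' i', ?_, ?_, ?_⟩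
    · intro x
      refine Fin.lastCases ?_ (fun x => ?_) x
      · rw [Fin.snoc_last, Fin.snoc_last]
        exact ⟨hiS, hi'S, hri⟩
      · rw [Fin.snoc_castSucc, Fin.snoc_castSucc]
        exact h1 x
    · intro x
      refine Fin.lastCases ?_ (fun x => ?_) x
      · rw [Fin.snoc_last, Fin.snoc_last]
        exact hne'.symm
      · rw [Fin.snoc_castSucc, Fin.snoc_castSucc]
        exact h2 x
    · intro x z
      refine Fin.lastCases ?_ (fun x => ?_) x <;> refine Fin.lastCases ?_ (fun z => ?_) z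
      · exact fun h => absurd rfl h
      · intro _ h
        rw [Fin.snoc_last, Fin.snoc_castSucc] at h
        exact hi z (hsymm _ hiS _ (h1 z).1 h)
      · intro _ h
        rw [Fin.snoc_last, Fin.snoc_castSucc] at h
        exact hi x h
      · intro hxz h
        rw [Fin.snoc_castSucc, Fin.snoc_castSucc] at h
        exact h3 x z (fun h' => hxz (by rw [h'])) h

end NE
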