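import Pool.Agent.Lib.MP_a325a5_ag.NE.Co1
import Pool.Agent.Lib.MP_a325a5_ag.NE.Co2

/-! A node without partner.
Proof: suppose not.  `vec i = (ev a i, ev b i)`, `i < m ^ 3`.  The `y m i` are distinct (`m ≥ 2`); a nonzero real polynomial with `m` coefficients has at most `m - 1`
zeros, so: at most `m - 1` of the `i` have `vec i = 0`; for a fixed nonzero vector `v` at most `m - 1` of the `i` are parallel to `v` (the combination `v.2 • a - v.1 • b` is not
zero).  Let `S` be the set of the `i < m ^ 3` with `vec i ≠ 0`, not parallel to `v₀` (if `v₀ ≠ 0`) and not parallel to `v₁` (if `v₁ ≠ 0`):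
`card S ≥ m ^ 3 - 3 (m - 1) ≥ m ^ 2 * (m - 1)`, `r i j` : `vec i`, `vec j` parallel.  By the assumption every `i ∈ S` has a partner `i' ≠ i` with `vec i' ≠ 0` parallel to `vec i`, which is in `S`.
`greedy` with `K = m - 1`, `M = m ^ 2` (identify `Fin (m ^ 2)` with `Fin m × Fin m`), then `comb_det` for `W p q = a p * b q - b p * a q`: `W = 0`, so `a`, `b` are dependent. -/

open Polynomial

namespace NE

private theorem co_few {m : ℕ} (hm : 2 ≤ m) (c : Fin m → ℝ) (hc : c ≠ 0) (T : Finset ℕ)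
    (hT : ∀ i ∈ T, ev c i = 0) : T.card ≤ m - 1 := by
  classical
  by_contra hlt
  push Not at hlt
  have hinj : Function.Injective fun i : ℕ => (y m i : ℝ) := fun i j h =>
    Nat.pow_right_injective hm (Nat.pow_right_injective le_rfl (Nat.cast_injective h))
  obtain ⟨p, hp⟩ : ∃ p : ℝ[X], p = ∑ k : Fin m, C (c k) * X ^ (k : ℕ) := ⟨_, rfl⟩
  have hcoeff : ∀ k : Fin m, p.coeff (k : ℕ) = c k := by
    intro k
    rw [hp, finsetSum_coeff, Finset.sum_eq_single k]
    · rw [coeff_C_mul, coeff_X_pow, if_pos rfl, mul_one]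
    · intro l _ hl
      rw [coeff_C_mul, coeff_X_pow, if_neg (fun h => hl (Fin.ext h.symm)), mul_zero]
    · exact fun h => absurd (Finset.mem_univ _) h
  have hdeg : p.natDegree ≤ m - 1 := by
    rw [hp]
    refine natDegree_sum_le_of_forall_le _ _ fun k _ => ?_
    refine (natDegree_C_mul_X_pow_le _ _).trans ?_
    have := k.2
    omega
  have h0 : p = 0 := by
    refine eq_zero_of_natDegree_lt_card_of_eval_eq_zero' p (T.image fun i : ℕ => (y m i : ℝ)) ?_ ?_
    · intro x hx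
      obtain ⟨i, hi, rfl⟩ := Finset.mem_image.mp hx
      rw [hp, eval_finsetSum, ← hT i hi, ev]
      refine Finset.sum_congr rfl fun k _ => ?_
      rw [eval_mul, eval_C, eval_pow, eval_X]
    · rw [Finset.card_image_of_injective _ hinj]
      omega
  apply hc
  funext k
  rw [← hcoeff k, h0, coeff_zero, Pi.zero_apply]

private theorem co_par {u₁ u₂ v₁ v₂ w₁ w₂ : ℝ} (hv : v₁ ≠ 0 ∨ v₂ ≠ 0) (h : u₁ * v₂ = u₂ * v₁)
    (h' : v₁ * w₂ = v₂ * w₁) : u₁ * w₂ = u₂ * w₁ := by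
  rcases hv with hv | hv
  · apply mul_left_cancel₀ hv
    calc v₁ * (u₁ * w₂) = u₁ * (v₁ * w₂) := by ring
      _ = (u₁ * v₂) * w₁ := by rw [h']; ring
      _ = v₁ * (u₂ * w₁) := by rw [h]; ring
  · apply mul_left_cancel₀ hv
    calc v₂ * (u₁ * w₂) = (u₁ * v₂) * w₂ := by ring
      _ = u₂ * (v₁ * w₂) := by rw [h]; ring
      _ = v₂ * (u₂ * w₁) := by rw [h']; ring

private theorem co_line {m : ℕ} (hm : 2 ≤ m) (a b : Fin m → ℝ)
    (hab : ∀ x z : ℝ, x • a + z • b = 0 → x = 0 ∧ z = 0) {v₁ v₂ : ℝ} (hv : v₁ ≠ 0 ∨ v₂ ≠ 0)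
    (T : Finset ℕ) (hT : ∀ i ∈ T, ev a i * v₂ = ev b i * v₁) : T.card ≤ m - 1 := by
  refine co_few hm (v₂ • a + (- v₁) • b) ?_ T ?_
  · intro h0
    obtain ⟨h1, h2⟩ := hab _ _ h0
    rcases hv with h | h
    · exact h (neg_eq_zero.mp h2)
    · exact h h1
  · intro i hi
    have h1 : ev (v₂ • a + (- v₁) • b) i = v₂ * ev a i - v₁ * ev b i := by
      simp only [ev, Pi.add_apply, Pi.smul_apply, smul_eq_mul, Finset.mul_sum]
      rw [← Finset.sum_sub_distrib]
      exact Finset.sum_congr rfl fun p _ => by ring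
    rw [h1]
    linear_combination hT i hi

theorem comb {m : ℕ} (hm : 2 ≤ m) (a b : Fin m → ℝ)
    (hab : ∀ x z : ℝ, x • a + z • b = 0 → x = 0 ∧ z = 0) (v₀ v₁ : ℝ × ℝ) :
    ∃ j : Fin (m ^ 3), (ev a j ≠ 0 ∨ ev b j ≠ 0) ∧
      (∀ i : Fin (m ^ 3), i ≠ j → (ev a i ≠ 0 ∨ ev b i ≠ 0) → ev a j * ev b i ≠ ev b j * ev a i) ∧
      (v₀ ≠ 0 → ev a j * v₀.2 ≠ ev b j * v₀.1) ∧ (v₁ ≠ 0 → ev a j * v₁.2 ≠ ev b j * v₁.1) := by
  classical
  by_contra hcon
  push Not at hcon
  obtain ⟨S, hS⟩ : ∃ S, S = (Finset.range (m ^ 3)).filter fun i =>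
    (ev a i ≠ 0 ∨ ev b i ≠ 0) ∧ ¬ (v₀ ≠ 0 ∧ ev a i * v₀.2 = ev b i * v₀.1) ∧
      ¬ (v₁ ≠ 0 ∧ ev a i * v₁.2 = ev b i * v₁.1) := ⟨_, rfl⟩
  have hmem : ∀ i, i ∈ S ↔ i < m ^ 3 ∧ (ev a i ≠ 0 ∨ ev b i ≠ 0) ∧
      ¬ (v₀ ≠ 0 ∧ ev a i * v₀.2 = ev b i * v₀.1) ∧
      ¬ (v₁ ≠ 0 ∧ ev a i * v₁.2 = ev b i * v₁.1) := by
    intro i
    rw [hS, Finset.mem_filter, Finset.mem_range]
  have ha0 : a ≠ 0 := by
    rintro rfl
    have h := hab 1 0 (by simp)
    exact one_ne_zero h.1
  have hline : ∀ v : ℝ × ℝ, ((Finset.range (m ^ 3)).filter fun i =>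
      v ≠ 0 ∧ ev a i * v.2 = ev b i * v.1).card ≤ m - 1 := by
    intro v
    by_cases hv : v = 0
    · have h1 : ((Finset.range (m ^ 3)).filter fun i =>
          v ≠ 0 ∧ ev a i * v.2 = ev b i * v.1) = ∅ := by
        rw [Finset.filter_eq_empty_iff]
        exact fun i _ h => h.1 hv
      rw [h1, Finset.card_empty]
      exact Nat.zero_le _
    · refine co_line hm a b hab (v₁ := v.1) (v₂ := v.2) ?_ _ fun i hi => (Finset.mem_filter.mp hi).2.2
      by_contra h
      push Not at h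
      exact hv (Prod.ext h.1 h.2)
  have hcard : m ^ 3 ≤ S.card + 3 * (m - 1) := by
    have h1 : Finset.range (m ^ 3) ⊆ S ∪ (((Finset.range (m ^ 3)).filter fun i => ev a i = 0) ∪
        (((Finset.range (m ^ 3)).filter fun i => v₀ ≠ 0 ∧ ev a i * v₀.2 = ev b i * v₀.1) ∪
        ((Finset.range (m ^ 3)).filter fun i => v₁ ≠ 0 ∧ ev a i * v₁.2 = ev b i * v₁.1))) := by
      intro i hi
      simp only [Finset.mem_union, Finset.mem_filter, hmem, Finset.mem_range] at hi ⊢
      tauto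
    have h2 := Finset.card_le_card h1
    have h3 : ((Finset.range (m ^ 3)).filter fun i => ev a i = 0).card ≤ m - 1 :=
      co_few hm a ha0 _ fun i hi => (Finset.mem_filter.mp hi).2
    have h4 := hline v₀
    have h5 := hline v₁
    have h6 := Finset.card_union_le S (((Finset.range (m ^ 3)).filter fun i => ev a i = 0) ∪
        (((Finset.range (m ^ 3)).filter fun i => v₀ ≠ 0 ∧ ev a i * v₀.2 = ev b i * v₀.1) ∪
        ((Finset.range (m ^ 3)).filter fun i => v₁ ≠ 0 ∧ ev a i * v₁.2 = ev b i * v₁.1)))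
    have h7 := Finset.card_union_le ((Finset.range (m ^ 3)).filter fun i => ev a i = 0)
        (((Finset.range (m ^ 3)).filter fun i => v₀ ≠ 0 ∧ ev a i * v₀.2 = ev b i * v₀.1) ∪
        ((Finset.range (m ^ 3)).filter fun i => v₁ ≠ 0 ∧ ev a i * v₁.2 = ev b i * v₁.1))
    have h8 := Finset.card_union_le
        ((Finset.range (m ^ 3)).filter fun i => v₀ ≠ 0 ∧ ev a i * v₀.2 = ev b i * v₀.1)
        ((Finset.range (m ^ 3)).filter fun i => v₁ ≠ 0 ∧ ev a i * v₁.2 = ev b i * v₁.1)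
    rw [Finset.card_range] at h2
    omega
  have hM : (m * m) * (m - 1) ≤ S.card := by
    obtain ⟨n, rfl⟩ : ∃ n, m = n + 2 := ⟨m - 2, by omega⟩
    have h1 : n + 2 - 1 = n + 1 := by omega
    rw [h1] at hcard ⊢
    nlinarith
  have hne : S.Nonempty := by
    rw [← Finset.card_pos]
    refine lt_of_lt_of_le ?_ hM
    have h1 : 0 < m := by omega
    have h2 : 0 < m - 1 := by omega
    positivity
  have hpart : ∀ i ∈ S, ∃ j ∈ S, j ≠ i ∧ ev a i * ev b j = ev b i * ev a j := by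
    intro i hi
    obtain ⟨hi1, hi2, hi3, hi4⟩ := (hmem i).mp hi
    by_contra hno
    push Not at hno
    have h1 := hcon ⟨i, hi1⟩ hi2 ?_
    · by_cases hv : v₀ ≠ 0 ∧ ev a i * v₀.2 = ev b i * v₀.1
      · exact hi3 hv
      · have h2 : v₀ ≠ 0 → ev a i * v₀.2 ≠ ev b i * v₀.1 := fun h h' => hv ⟨h, h'⟩
        exact hi4 (h1 h2)
    · intro j hj hj2 hpar
      have hji : (j : ℕ) ≠ i := fun h => hj (Fin.ext h)
      have hpar' : ev a i * ev b j = ev b i * ev a j := hpar
      refine hno j ?_ hji hpar'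
      rw [hmem]
      refine ⟨j.2, hj2, fun h => hi3 ⟨h.1, co_par hj2 hpar' h.2⟩,
        fun h => hi4 ⟨h.1, co_par hj2 hpar' h.2⟩⟩
  obtain ⟨e, e', he, h1⟩ := greedy S (fun i j => ev a i * ev b j = ev b i * ev a j)
    (fun i _ => mul_comm _ _)
    (fun i _ j _ h => by linear_combination -h)
    (fun i _ j hj l _ h h' => co_par ((hmem j).mp hj).2.1 h h') (m - 1)
    (fun i hi T _ h => co_line hm a b hab ((hmem i).mp hi).2.1 T fun j hj => by
      linear_combination -(h j hj)) hpart (m * m) hM hne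
  have h2 := comb_det (m := m) (fun x => e (finProdFinEquiv x)) (fun x => e' (finProdFinEquiv x)) ?_
    (fun p k => a p * b k - b p * a k) ?_
  · apply ha0
    by_contra ha1
    obtain ⟨p, hp⟩ : ∃ p, a p ≠ 0 := by
      by_contra h
      push Not at h
      exact ha1 (funext h)
    have h3 : (b p) • a + (- a p) • b = 0 := by
      funext k
      have h4 : a p * b k - b p * a k = 0 := congrFun (congrFun h2 p) k
      simp only [Pi.add_apply, Pi.smul_apply, smul_eq_mul, Pi.zero_apply]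
      linear_combination -h4
    exact hp (neg_eq_zero.mp (hab _ _ h3).2)
  · have h3 : (Sum.elim (fun x => e (finProdFinEquiv x)) (fun x => e' (finProdFinEquiv x)) :
        (Fin m × Fin m) ⊕ (Fin m × Fin m) → ℕ) =
        Sum.elim e e' ∘ Sum.map finProdFinEquiv finProdFinEquiv := by
      funext x
      rcases x with x | x <;> rfl
    rw [h3]
    exact he.comp (Function.Injective.sumMap finProdFinEquiv.injective finProdFinEquiv.injective)
  · intro x
    have h3 := (h1 (finProdFinEquiv x)).2.2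
    have h4 : ∑ p : Fin m, ∑ k : Fin m, (a p * b k - b p * a k) *
        ((y m (e (finProdFinEquiv x)) : ℝ) ^ (p : ℕ) * (y m (e' (finProdFinEquiv x)) : ℝ) ^ (k : ℕ)) =
        ev a (e (finProdFinEquiv x)) * ev b (e' (finProdFinEquiv x)) -
          ev b (e (finProdFinEquiv x)) * ev a (e' (finProdFinEquiv x)) := by
      simp only [ev]
      rw [Finset.sum_mul_sum, Finset.sum_mul_sum, ← Finset.sum_sub_distrib]
      refine Finset.sum_congr rfl fun p _ => ?_
      rw [← Finset.sum_sub_distrib]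
      exact Finset.sum_congr rfl fun k _ => by ring
    rw [h4, h3, sub_self]

end NE
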