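import Pool.Agent.Lib.MP_a325a5_ag.NE.Def

/-! A generalised Vandermonde determinant which is a signed sum of distinct powers of two.
Proof: the matrix `M r (p,q) = y(e r) ^ p * y(e' r) ^ q`, rows and columns `Fin m × Fin m`, has determinant
`∑_σ sign σ * 2 ^ E σ`, `E σ = ∑_r (p_{σ r} * m ^ e_r + q_{σ r} * m ^ e'_r)`, where `(p_{σ r}, q_{σ r}) = σ r`: digits less than `m` at distinct positions in base `m`
(for `m ≤ 1` there is one permutation only), so `E` is injective.  A signed sum of distinct powers of two over a nonempty finite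
set is not zero: divide by the smallest power, the result is odd.  So the determinant is not zero in `ℤ`, hence in `ℝ`, and the linear
system has only the zero solution (`Matrix.eq_zero_of_mulVec_eq_zero` or `Matrix.exists_mulVec_eq_zero_iff`). -/

namespace NE

theorem sum_pow_ne {α : Type} (S : Finset α) (hS : S.Nonempty) (E : α → ℕ)
    (hE : Set.InjOn E S) (ε : α → ℤ) (hε : ∀ x ∈ S, ε x = 1 ∨ ε x = -1) :
    ∑ x ∈ S, ε x * 2 ^ E x ≠ 0 := by
  classical
  intro h0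
  obtain ⟨x₀, hx₀, hmin⟩ := Finset.exists_min_image S E hS
  have h1 : (2 : ℤ) ^ (E x₀ + 1) ∣ ∑ x ∈ S.erase x₀, ε x * 2 ^ E x := by
    refine Finset.dvd_sum fun x hx => ?_
    have h2 := Finset.mem_erase.1 hx
    have h3 : E x₀ ≠ E x := by
      intro h4
      exact h2.1 (hE hx₀ h2.2 h4).symm
    have h5 : E x₀ + 1 ≤ E x := by
      have h6 := hmin x h2.2
      omega
    exact Dvd.dvd.mul_left (pow_dvd_pow 2 h5) (ε x)
  rw [← Finset.add_sum_erase S _ hx₀] at h0
  have h2 : (2 : ℤ) ^ (E x₀ + 1) ∣ ε x₀ * 2 ^ E x₀ := by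
    have h3 : ε x₀ * 2 ^ E x₀ = - ∑ x ∈ S.erase x₀, ε x * 2 ^ E x := by linarith
    rw [h3]
    exact (dvd_neg).2 h1
  have h4 : (2 : ℤ) ∣ ε x₀ := by
    rw [pow_succ, mul_comm (ε x₀)] at h2
    exact Int.dvd_of_mul_dvd_mul_left (pow_ne_zero _ two_ne_zero) h2
  rcases hε x₀ hx₀ with h5 | h5
  · rw [h5] at h4
    omega
  · rw [h5] at h4
    omega

theorem digits_inj {α : Type} [Fintype α] (m : ℕ) (e : α → ℕ) (he : Function.Injective e)
    (d d' : α → ℕ) (hd : ∀ x, d x < m) (hd' : ∀ x, d' x < m)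
    (h : ∑ x, d x * m ^ e x = ∑ x, d' x * m ^ e x) : d = d' := by
  classical
  by_contra hne
  have h0 : (Finset.univ.filter fun x => d x ≠ d' x).Nonempty := by
    rw [Finset.nonempty_iff_ne_empty]
    intro h1
    apply hne
    funext x
    by_contra h2
    have h3 : x ∈ (∅ : Finset α) := by
      rw [← h1, Finset.mem_filter]
      exact ⟨Finset.mem_univ x, h2⟩
    exact absurd h3 (Finset.notMem_empty x)
  obtain ⟨x₀, hx₀, hmin⟩ := Finset.exists_min_image _ e h0
  have hx₁ : d x₀ ≠ d' x₀ := (Finset.mem_filter.1 hx₀).2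
  have hm : (m : ℤ) ≠ 0 := by
    have := hd x₀
    omega
  have h1 : (m : ℤ) ^ (e x₀ + 1) ∣ ∑ x ∈ Finset.univ.erase x₀, ((d x : ℤ) - d' x) * m ^ e x := by
    refine Finset.dvd_sum fun x hx => ?_
    have h2 := Finset.mem_erase.1 hx
    by_cases h3 : d x = d' x
    · rw [h3, sub_self, zero_mul]
      exact dvd_zero _
    · have h4 := hmin x (Finset.mem_filter.2 ⟨Finset.mem_univ x, h3⟩)
      have h5 : e x₀ ≠ e x := by
        intro h6
        exact h2.1 (he h6).symm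
      have h6 : e x₀ + 1 ≤ e x := by omega
      exact Dvd.dvd.mul_left (pow_dvd_pow _ h6) _
  have h2 : ∑ x, ((d x : ℤ) - d' x) * m ^ e x = 0 := by
    have h3 : ((∑ x, d x * m ^ e x : ℕ) : ℤ) = ((∑ x, d' x * m ^ e x : ℕ) : ℤ) := by rw [h]
    push_cast at h3
    have h4 : ∑ x, ((d x : ℤ) - d' x) * m ^ e x =
        ∑ x, (d x : ℤ) * m ^ e x - ∑ x, (d' x : ℤ) * m ^ e x := by
      rw [← Finset.sum_sub_distrib]
      refine Finset.sum_congr rfl fun x _ => ?_
      ring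
    rw [h4, h3, sub_self]
  rw [← Finset.add_sum_erase Finset.univ _ (Finset.mem_univ x₀)] at h2
  have h3 : (m : ℤ) ^ (e x₀ + 1) ∣ ((d x₀ : ℤ) - d' x₀) * m ^ e x₀ := by
    have h4 : ((d x₀ : ℤ) - d' x₀) * m ^ e x₀ =
        - ∑ x ∈ Finset.univ.erase x₀, ((d x : ℤ) - d' x) * m ^ e x := by linarith
    rw [h4]
    exact (dvd_neg).2 h1
  have h4 : (m : ℤ) ∣ ((d x₀ : ℤ) - d' x₀) := by
    rw [pow_succ, mul_comm ((d x₀ : ℤ) - d' x₀)] at h3
    exact Int.dvd_of_mul_dvd_mul_left (pow_ne_zero _ hm) h3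
  have h5 : |(d x₀ : ℤ) - d' x₀| < m := by
    rw [abs_lt]
    have := hd x₀
    have := hd' x₀
    omega
  have h6 := Int.eq_zero_of_abs_lt_dvd h4 h5
  apply hx₁
  omega

theorem comb_det {m : ℕ} (e e' : Fin m × Fin m → ℕ) (he : Function.Injective (Sum.elim e e'))
    (W : Fin m → Fin m → ℝ)
    (h : ∀ r, ∑ p, ∑ q, W p q * ((y m (e r) : ℝ) ^ (p : ℕ) * (y m (e' r) : ℝ) ^ (q : ℕ)) = 0) :
    W = 0 := by
  have hdig : ∀ σ τ : Equiv.Perm (Fin m × Fin m),
      (∑ r, (((σ r).1 : ℕ) * m ^ e r + ((σ r).2 : ℕ) * m ^ e' r)) =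
        (∑ r, (((τ r).1 : ℕ) * m ^ e r + ((τ r).2 : ℕ) * m ^ e' r)) → σ = τ := by
    intro σ τ h1
    have h2 := digits_inj m (Sum.elim e e') he
      (Sum.elim (fun r => ((σ r).1 : ℕ)) (fun r => ((σ r).2 : ℕ)))
      (Sum.elim (fun r => ((τ r).1 : ℕ)) (fun r => ((τ r).2 : ℕ))) ?_ ?_ ?_
    · refine Equiv.ext fun r => ?_
      have h3 := congrFun h2 (Sum.inl r)
      have h4 := congrFun h2 (Sum.inr r)
      rw [Sum.elim_inl, Sum.elim_inl] at h3
      rw [Sum.elim_inr, Sum.elim_inr] at h4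
      exact Prod.ext (Fin.ext h3) (Fin.ext h4)
    · rintro (r | r)
      · rw [Sum.elim_inl]
        exact (σ r).1.isLt
      · rw [Sum.elim_inr]
        exact (σ r).2.isLt
    · rintro (r | r)
      · rw [Sum.elim_inl]
        exact (τ r).1.isLt
      · rw [Sum.elim_inr]
        exact (τ r).2.isLt
    · rw [Fintype.sum_sum_type, Fintype.sum_sum_type, Finset.sum_add_distrib,
        Finset.sum_add_distrib] at *
      simp only [Sum.elim_inl, Sum.elim_inr]
      exact h1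
  obtain ⟨N, hN⟩ : ∃ N : Matrix (Fin m × Fin m) (Fin m × Fin m) ℤ,
      N = fun c r => 2 ^ ((c.1 : ℕ) * m ^ e r + (c.2 : ℕ) * m ^ e' r) := ⟨_, rfl⟩
  have hdet : N.det ≠ 0 := by
    rw [Matrix.det_apply]
    have h1 : ∀ σ : Equiv.Perm (Fin m × Fin m), Equiv.Perm.sign σ • ∏ i, N (σ i) i =
        ((Equiv.Perm.sign σ : ℤˣ) : ℤ) *
          2 ^ (∑ r, (((σ r).1 : ℕ) * m ^ e r + ((σ r).2 : ℕ) * m ^ e' r)) := by
      intro σ
      rw [Units.smul_def, smul_eq_mul, ← Finset.prod_pow_eq_pow_sum, hN]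
    rw [Finset.sum_congr rfl fun σ _ => h1 σ]
    refine sum_pow_ne Finset.univ ⟨1, Finset.mem_univ _⟩ _ ?_ _ ?_
    · intro σ _ τ _ h2
      exact hdig σ τ h2
    · intro σ _
      rcases Int.units_eq_one_or (Equiv.Perm.sign σ) with h2 | h2
      · left
        rw [h2, Units.val_one]
      · right
        rw [h2, Units.val_neg, Units.val_one]
  have hdetR : (N.map (Int.castRingHom ℝ)).det ≠ 0 := by
    have h1 := (Int.castRingHom ℝ).map_det N
    rw [RingHom.mapMatrix_apply] at h1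
    rw [← h1]
    intro h2
    apply hdet
    have h3 : ((N.det : ℤ) : ℝ) = 0 := h2
    exact_mod_cast h3
  have hv : Matrix.vecMul (fun c : Fin m × Fin m => W c.1 c.2) (N.map (Int.castRingHom ℝ)) = 0 := by
    funext r
    rw [Pi.zero_apply, ← h r]
    unfold Matrix.vecMul dotProduct
    rw [Fintype.sum_prod_type]
    refine Finset.sum_congr rfl fun p _ => Finset.sum_congr rfl fun q _ => ?_
    have h5 : (fun c : Fin m × Fin m => W c.1 c.2) (p, q) *
        (fun i => N.map (Int.castRingHom ℝ) i r) (p, q) = W p q * ((N (p, q) r : ℤ) : ℝ) := rfl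
    rw [h5, hN]
    simp only [y]
    push_cast
    rw [pow_add, pow_mul', pow_mul']
  have hW := Matrix.eq_zero_of_vecMul_eq_zero hdetR hv
  funext p q
  exact congrFun hW (p, q)

end NE
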