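import Pool.Agent.Lib.MP_a325a5_ag.NE.PartS
import Pool.Agent.Lib.MP_a325a5_ag.NE.Co

/-! A combinatorial criterion for the finiteness property (NA), for all curves parametrised by products
`x_j = γ_j ∏ (t - β_i) ^ (v i j)`. -/

open Polynomial

namespace NE

/-- The order of the real monomial with exponents `a` at the node `i`. -/
def od {k N : ℕ} (v : Fin N → Fin k → ℕ) (a : Fin k → ℝ) (i : Fin N) : ℝ :=
  ∑ j, a j * (v i j : ℝ)

/-- For any two linearly independent real monomials there is a node at which they are not both of order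
zero, such that no other node, and not infinity, has the opposite orders, up to a positive factor. -/
def NoOpp {k N : ℕ} (v : Fin N → Fin k → ℕ) : Prop :=
  ∀ a b : Fin k → ℝ, LinearIndependent ℝ ![a, b] → ∃ i, (od v a i ≠ 0 ∨ od v b i ≠ 0) ∧
    (∀ i', ∀ l : ℝ, 0 < l → ¬ (od v a i = - (l * od v a i') ∧ od v b i = - (l * od v b i'))) ∧
    ∀ l : ℝ, 0 < l → ¬ (od v a i = l * ∑ i', od v a i' ∧ od v b i = l * ∑ i', od v b i')

/-- The curve with the parametrisation `x_j = γ_j ∏ (t - β_i) ^ (v i j)` in the torus. -/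
def rc {K : Type} [Field K] {k N : ℕ} (β : Fin N → K) (γ : Fin k → Kˣ) (v : Fin N → Fin k → ℕ) :
    Set (Fin k → Kˣ) :=
  {x | ∃ t : K, ∀ j, (x j : K) = γ j * ∏ i, (t - β i) ^ v i j}

/-- one function is never without opposite -/
theorem Crit_one {N : ℕ} (f : Fin N → ℝ) (i : Fin N) (hi : f i ≠ 0) :
    (∃ i', ∃ l : ℝ, 0 < l ∧ f i = - (l * f i')) ∨ ∃ l : ℝ, 0 < l ∧ f i = l * ∑ i', f i' := by
  by_cases h : ∃ i', f i * f i' < 0
  · left
    obtain ⟨i', h1⟩ := h
    have h2 : f i' ≠ 0 := by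
      intro h0
      rw [h0, mul_zero] at h1
      exact lt_irrefl _ h1
    refine ⟨i', - (f i * f i') / (f i' ^ 2), div_pos (by linarith) (by positivity), ?_⟩
    field_simp
  · right
    push Not at h
    have h1 : 0 < f i * ∑ i', f i' := by
      rw [Finset.mul_sum]
      refine lt_of_lt_of_le (mul_self_pos.mpr hi) ?_
      exact Finset.single_le_sum (f := fun i' => f i * f i') (fun i' _ => h i') (Finset.mem_univ i)
    have h2 : (∑ i', f i') ≠ 0 := by
      intro h0
      rw [h0, mul_zero] at h1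
      exact lt_irrefl _ h1
    refine ⟨(f i * ∑ i', f i') / (∑ i', f i') ^ 2, div_pos h1 (by positivity), ?_⟩
    field_simp

theorem Crit_lin {k N : ℕ} (v : Fin N → Fin k → ℕ) (x z : ℝ) (a b : Fin k → ℝ) (i : Fin N) :
    od v (x • a + z • b) i = x * od v a i + z * od v b i := by
  simp only [od, Pi.add_apply, Pi.smul_apply, smul_eq_mul, Finset.mul_sum]
  rw [← Finset.sum_add_distrib]
  exact Finset.sum_congr rfl fun j _ => by ring

/-- the orders determine the exponents -/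
theorem NoOpp.inj {k N : ℕ} {v : Fin N → Fin k → ℕ} (hv : NoOpp v) {a b : Fin k → ℝ}
    (hab : LinearIndependent ℝ ![a, b]) (x z : ℝ) (h : ∀ i, x * od v a i + z * od v b i = 0) :
    x = 0 ∧ z = 0 := by
  have key : ∀ c d : Fin k → ℝ, LinearIndependent ℝ ![c, d] → (∀ i, od v c i = 0) → False := by
    intro c d hcd hc
    obtain ⟨i, h1, h2, h3⟩ := hv c d hcd
    have h4 : od v d i ≠ 0 := h1.resolve_left fun h => h (hc i)
    rcases Crit_one (od v d) i h4 with ⟨i', l, hl, h5⟩ | ⟨l, hl, h5⟩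
    · exact h2 i' l hl ⟨by rw [hc, hc, mul_zero, neg_zero], h5⟩
    · refine h3 l hl ⟨?_, h5⟩
      rw [hc i, Finset.sum_eq_zero fun i' _ => hc i', mul_zero]
  have hc : ∀ i, od v (x • a + z • b) i = 0 := fun i => by rw [Crit_lin, h i]
  rw [LinearIndependent.pair_iff] at hab
  constructor
  · by_contra hx
    refine key _ b ?_ hc
    rw [LinearIndependent.pair_iff]
    intro p r hpr
    have h1 : (p * x) • a + (p * z + r) • b = 0 := by
      rw [← hpr]
      module
    obtain ⟨h2, h3⟩ := hab _ _ h1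
    have h4 : p = 0 := (mul_eq_zero.mp h2).resolve_right hx
    rw [h4, zero_mul, zero_add] at h3
    exact ⟨h4, h3⟩
  · by_contra hz
    refine key _ a ?_ hc
    rw [LinearIndependent.pair_iff]
    intro p r hpr
    have h1 : (p * x + r) • a + (p * z) • b = 0 := by
      rw [← hpr]
      module
    obtain ⟨h2, h3⟩ := hab _ _ h1
    have h4 : p = 0 := (mul_eq_zero.mp h3).resolve_right hz
    rw [h4, zero_mul, zero_add] at h2
    exact ⟨h4, h2⟩

/-- the criterion -/
theorem na_crit {k N : ℕ} {β : Fin N → ℂ} (hβ : Function.Injective β) (γ : Fin k → ℂˣ)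
    {v : Fin N → Fin k → ℕ} (hv : NoOpp v) (a b : Fin k → ℝ) (hab : LinearIndependent ℝ ![a, b]) :
    {x : Fin k → ℂˣ | x ∈ rc β γ v ∧ ∑ j, a j * Real.log ‖(x j : ℂ)‖ = 0 ∧
      ∑ j, b j * Real.log ‖(x j : ℂ)‖ = 0}.Finite := by
  classical
  by_contra hinf
  obtain ⟨S, hS⟩ : ∃ S, S = {x : Fin k → ℂˣ | x ∈ rc β γ v ∧
    ∑ j, a j * Real.log ‖(x j : ℂ)‖ = 0 ∧ ∑ j, b j * Real.log ‖(x j : ℂ)‖ = 0} := ⟨_, rfl⟩
  rw [← hS] at hinf
  obtain ⟨T, hT⟩ : ∃ T : Set ℂ, T = {t | ∃ x ∈ S, ∀ j, (x j : ℂ) = γ j * ∏ i, (t - β i) ^ v i j} :=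
    ⟨_, rfl⟩
  have hTinf : T.Infinite := by
    intro hfin
    apply hinf
    have h1 : ((fun x : Fin k → ℂˣ => fun j => (x j : ℂ)) '' S) ⊆
        (fun t : ℂ => fun j => (γ j : ℂ) * ∏ i, (t - β i) ^ v i j) '' T := by
      rintro _ ⟨x, hx, rfl⟩
      have h2 := hx
      rw [hS] at h2
      obtain ⟨t, ht⟩ := h2.1
      refine ⟨t, ?_, funext fun j => (ht j).symm⟩
      rw [hT]
      exact ⟨x, hx, ht⟩
    refine ((hfin.image _).subset h1).of_finite_image ?_
    intro x _ x' _ h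
    funext j
    exact Units.ext (congrFun h j)
  have hu : ∀ c : Fin k → ℝ, (∀ x ∈ S, ∑ j, c j * Real.log ‖(x j : ℂ)‖ = 0) → ∀ t ∈ T,
      (∀ i, t ≠ β i) → u β (od v c) t = - ∑ j, c j * Real.log ‖(γ j : ℂ)‖ := by
    intro c hc t ht htβ
    rw [hT] at ht
    obtain ⟨x, hx, htx⟩ := ht
    have h1 := hc x hx
    have h2 : ∀ j, Real.log ‖(x j : ℂ)‖ =
        Real.log ‖(γ j : ℂ)‖ + ∑ i, (v i j : ℝ) * Real.log ‖t - β i‖ := by
      intro j
      have h3 : ∀ i ∈ (Finset.univ : Finset (Fin N)), ‖t - β i‖ ^ v i j ≠ 0 := fun i _ =>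
        pow_ne_zero _ (norm_ne_zero_iff.mpr (sub_ne_zero.mpr (htβ i)))
      rw [htx j, norm_mul, norm_prod, Real.log_mul (norm_ne_zero_iff.mpr (Units.ne_zero _))]
      · congr 1
        rw [Finset.prod_congr rfl fun i _ => norm_pow (t - β i) (v i j), Real.log_prod h3]
        exact Finset.sum_congr rfl fun i _ => Real.log_pow _ _
      · rw [Finset.prod_congr rfl fun i _ => norm_pow (t - β i) (v i j)]
        exact Finset.prod_ne_zero_iff.mpr h3
    simp only [h2, mul_add, Finset.sum_add_distrib] at h1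
    have h4 : u β (od v c) t = ∑ j, c j * ∑ i, (v i j : ℝ) * Real.log ‖t - β i‖ := by
      simp only [u, od, Finset.sum_mul, Finset.mul_sum]
      rw [Finset.sum_comm]
      exact Finset.sum_congr rfl fun i _ => Finset.sum_congr rfl fun j _ => by ring
    rw [h4]
    linarith
  have hE : {t | (∀ i, t ≠ β i) ∧ u β (od v a) t = - ∑ j, a j * Real.log ‖(γ j : ℂ)‖ ∧
      u β (od v b) t = - ∑ j, b j * Real.log ‖(γ j : ℂ)‖}.Infinite := by
    have h1 : (T \ Set.range β).Infinite := hTinf.diff (Set.finite_range β)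
    refine h1.mono ?_
    rintro t ⟨ht, htβ⟩
    have h2 : ∀ i, t ≠ β i := fun i h => htβ ⟨i, h.symm⟩
    refine ⟨h2, hu a (fun x hx => ?_) t ht h2, hu b (fun x hx => ?_) t ht h2⟩
    · rw [hS] at hx
      exact hx.2.1
    · rw [hS] at hx
      exact hx.2.2
  obtain ⟨i, h1, h2, h3⟩ := hv a b hab
  rcases partner_strong hβ (fun x z h => hv.inj hab x z fun i => congrFun h i) hE i h1 with
    ⟨i', l, hl, h4⟩ | ⟨l, hl, h4⟩
  · exact h2 i' l hl h4
  · exact h3 l hl h4

/-- the exponents `e_i ^ j`, `e_i = 2 ^ (k ^ i)`, satisfy the condition -/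
theorem noOpp_pow {k : ℕ} (hk : 2 ≤ k) :
    NoOpp (fun (i : Fin (k ^ 3)) (j : Fin k) => (2 ^ (k ^ (i : ℕ))) ^ (j : ℕ)) := by
  intro a b hab
  rw [LinearIndependent.pair_iff] at hab
  have hod : ∀ (c : Fin k → ℝ) (i : Fin (k ^ 3)),
      od (fun (i : Fin (k ^ 3)) (j : Fin k) => (2 ^ (k ^ (i : ℕ))) ^ (j : ℕ)) c i = ev c i := by
    intro c i
    simp only [od, ev, y, Nat.cast_pow]
  obtain ⟨j, h1, h2, -, h4⟩ := comb hk a b hab (0, 0) (∑ i : Fin (k ^ 3), ev a i, ∑ i : Fin (k ^ 3), ev b i)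
  simp only [hod]
  refine ⟨j, h1, fun i' l hl h => ?_, fun l hl h => ?_⟩
  · have hij : i' ≠ j := by
      rintro rfl
      have h5 : (1 + l) * ev a i' = 0 := by linarith [h.1]
      have h6 : (1 + l) * ev b i' = 0 := by linarith [h.2]
      have h7 : (1 + l) ≠ 0 := by linarith
      rcases h1 with h8 | h8
      · exact h8 ((mul_eq_zero.mp h5).resolve_left h7)
      · exact h8 ((mul_eq_zero.mp h6).resolve_left h7)
    have hact : ev a i' ≠ 0 ∨ ev b i' ≠ 0 := by
      by_contra h5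
      push Not at h5
      rw [h5.1, h5.2, mul_zero, neg_zero] at h
      rcases h1 with h8 | h8
      · exact h8 h.1
      · exact h8 h.2
    apply h2 i' hij hact
    rw [h.1, h.2]
    ring
  · have hne : ((∑ i : Fin (k ^ 3), ev a i, ∑ i : Fin (k ^ 3), ev b i) : ℝ × ℝ) ≠ 0 := by
      intro h5
      rw [Prod.mk_eq_zero] at h5
      rw [h5.1, h5.2, mul_zero] at h
      rcases h1 with h8 | h8
      · exact h8 h.1
      · exact h8 h.2
    apply h4 hne
    rw [h.1, h.2]
    ring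

end NE
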