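import Pool.Agent.Lib.MP_a325a5_ag.NE.Def
import Pool.Agent.Lib.MP_a325a5_ag.UL.Defs
import Pool.Agent.Lib.MP_a325a5_ag.G2.CDef

/-! The curve `Cv`: closed, irreducible, of dimension one, in no coset.
Proof: `φ : MvPolynomial (Fin (m+1)) K →ₐ K[X]`, `X 0 ↦ X`, `X (j+1) ↦ ∏ (X - (i+2)) ^ (..)`.  For all but finitely many `t : K` (`t ≠ 0, i + 2`) the point
`(t, φ (X 1) t, ..)` is in `Cv`, and every point of `Cv` is of this form, so `vanIdeal (Cv K m) = RingHom.ker φ` (`K` is infinite): prime.  The
quotient is `K[X]` (`φ` is surjective), of Krull dimension one (`IsPrincipalIdealRing.ringKrullDim_eq_one` or similar).  Closedness and `cpts`: the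
polynomials `X (j+1) - ∏ (X 0 - (i+2)) ^ (..)` are in `vanIdeal`.  Coset: `t ^ a_0 * ∏ (t - (i+2)) ^ (n_i) = ζ` for almost all `t`, `n_i = ∑_j a_(j+1) (y m i) ^ j`; after multiplication with the negative powers
this is an identity of polynomials, so `a_0 = 0` and all `n_i = 0` (compare multiplicities); a nonzero polynomial of degree less than `m` does not
vanish at the `m ^ 3 ≥ m` distinct numbers `y m i`. -/

open MvPolynomial Pool.Agent.Lib.MP_a325a5_ag.UL Pool.Agent.Lib.MP_a325a5_ag.G2

namespace NE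

section

variable (K : Type) [Field K]

/-- the coordinate functions as polynomials in `t` -/
private noncomputable def Cur_P (m : ℕ) (j : Fin m) : Polynomial K :=
  ∏ i : Fin (m ^ 3), (Polynomial.X - Polynomial.C ((i : ℕ) + 2 : K)) ^ (y m i ^ (j : ℕ))

private noncomputable def Cur_g (m : ℕ) : Fin (m + 1) → Polynomial K :=
  Fin.cons Polynomial.X (Cur_P K m)

private noncomputable def Cur_phi (m : ℕ) : MvPolynomial (Fin (m + 1)) K →ₐ[K] Polynomial K :=
  MvPolynomial.aeval (Cur_g K m)

/-- the equations -/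
private noncomputable def Cur_F (m : ℕ) (j : Fin m) : MvPolynomial (Fin (m + 1)) K :=
  MvPolynomial.X j.succ -
    ∏ i : Fin (m ^ 3), (MvPolynomial.X 0 - MvPolynomial.C ((i : ℕ) + 2 : K)) ^ (y m i ^ (j : ℕ))

private theorem Cur_eval (m : ℕ) (j : Fin m) (t : K) : Polynomial.eval t (Cur_P K m j) =
    ∏ i : Fin (m ^ 3), (t - ((i : ℕ) + 2)) ^ (y m i ^ (j : ℕ)) := by
  unfold Cur_P
  rw [Polynomial.eval_prod]
  refine Finset.prod_congr rfl fun i _ => ?_
  rw [Polynomial.eval_pow, Polynomial.eval_sub, Polynomial.eval_X, Polynomial.eval_C]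

/-- the value of a polynomial at a point of the curve -/
private theorem Cur_val (m : ℕ) (x : Fin (m + 1) → K) (t : K) (h0 : x 0 = t)
    (h : ∀ j : Fin m, x j.succ = ∏ i : Fin (m ^ 3), (t - ((i : ℕ) + 2)) ^ (y m i ^ (j : ℕ)))
    (f : MvPolynomial (Fin (m + 1)) K) :
    MvPolynomial.eval x f = Polynomial.eval t (Cur_phi K m f) := by
  have h1 : MvPolynomial.eval x = (Polynomial.evalRingHom t).comp (Cur_phi K m).toRingHom := by
    refine MvPolynomial.ringHom_ext (fun r => ?_) (fun j => ?_)
    · rw [MvPolynomial.eval_C]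
      show r = Polynomial.eval t (Cur_phi K m (MvPolynomial.C r))
      unfold Cur_phi
      rw [MvPolynomial.aeval_C, Polynomial.algebraMap_apply, Polynomial.eval_C]
      rfl
    · rw [MvPolynomial.eval_X]
      show x j = Polynomial.eval t (Cur_phi K m (MvPolynomial.X j))
      unfold Cur_phi
      rw [MvPolynomial.aeval_X]
      unfold Cur_g
      refine Fin.cases ?_ (fun l => ?_) j
      · rw [Fin.cons_zero, Polynomial.eval_X, h0]
      · rw [Fin.cons_succ, Cur_eval, h]
  rw [h1]
  rfl

/-- good parameters give points -/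
private theorem Cur_pt (m : ℕ) (t : K) (h0 : t ≠ 0) (h : ∀ i : Fin (m ^ 3), t ≠ (i : ℕ) + 2) :
    ∃ x ∈ Cv K m, (x 0 : K) = t := by
  have h1 : ∀ j : Fin m, ∏ i : Fin (m ^ 3), (t - ((i : ℕ) + 2)) ^ (y m i ^ (j : ℕ)) ≠ 0 :=
    fun j => Finset.prod_ne_zero_iff.mpr fun i _ => pow_ne_zero _ (sub_ne_zero.mpr (h i))
  refine ⟨Fin.cons (Units.mk0 t h0) (fun j => Units.mk0 _ (h1 j)), ?_, ?_⟩
  · intro j
    rw [Fin.cons_succ, Fin.cons_zero]
    rfl
  · rw [Fin.cons_zero]
    rfl

private theorem Cur_mem (m : ℕ) (j : Fin m) : Cur_F K m j ∈ vanIdeal (Cv K m) := by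
  intro x hx
  have h := hx j
  unfold Cur_F
  rw [map_sub, map_prod, MvPolynomial.eval_X, h, sub_eq_zero]
  refine Finset.prod_congr rfl fun i _ => ?_
  rw [map_pow, map_sub, MvPolynomial.eval_X, MvPolynomial.eval_C]

/-- finitely many bad parameters -/
private theorem Cur_inf [CharZero K] (A B : Set K) (hA : A.Finite) (hB : Aᶜ ⊆ B) : B.Infinite :=
  (hA.infinite_compl).mono hB

private theorem Cur_ker [CharZero K] (m : ℕ) :
    vanIdeal (Cv K m) = RingHom.ker (Cur_phi K m).toRingHom := by
  ext f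
  constructor
  · intro hf
    rw [RingHom.mem_ker]
    show Cur_phi K m f = 0
    refine Polynomial.eq_zero_of_infinite_isRoot _ ?_
    refine Cur_inf K (insert 0 (Set.range (fun i : Fin (m ^ 3) => ((i : ℕ) + 2 : K)))) _
      (Set.Finite.insert _ (Set.finite_range _)) ?_
    intro t ht
    rw [Set.mem_compl_iff, Set.mem_insert_iff, not_or, Set.mem_range, not_exists] at ht
    obtain ⟨x, hx, hxt⟩ := Cur_pt K m t ht.1 (fun i h => ht.2 i h.symm)
    rw [Set.mem_setOf_eq, Polynomial.IsRoot.def]
    rw [← Cur_val K m (fun i => (x i : K)) t hxt (fun j => ?_) f]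
    · exact hf x hx
    · have := hx j
      rw [hxt] at this
      exact this
  · intro hf x hx
    rw [RingHom.mem_ker] at hf
    have hf' : Cur_phi K m f = 0 := hf
    rw [Cur_val K m (fun i => (x i : K)) (x 0 : K) rfl (fun j => hx j) f, hf',
      Polynomial.eval_zero]

private theorem Cur_surj (m : ℕ) : Function.Surjective (Cur_phi K m) := by
  rw [← AlgHom.range_eq_top, eq_top_iff, ← Polynomial.adjoin_X, Algebra.adjoin_le_iff]
  rintro _ rfl
  refine ⟨MvPolynomial.X 0, ?_⟩
  show Cur_phi K m (MvPolynomial.X 0) = Polynomial.X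
  unfold Cur_phi
  rw [MvPolynomial.aeval_X]
  unfold Cur_g
  rw [Fin.cons_zero]

/-- a product of powers of linear forms is constant only if the exponents vanish -/
private theorem Cur_const [CharZero K] {κ : Type} [Fintype κ] [DecidableEq κ] (c : κ → K)
    (hc : Function.Injective c) (e : κ → ℤ) (ζ : K) (hζ : ζ ≠ 0)
    (h : ∀ t : K, (∀ i, t ≠ c i) → ∏ i, (t - c i) ^ (e i) = ζ) (i₀ : κ) : e i₀ = 0 := by
  obtain ⟨A, hA⟩ : ∃ A : Polynomial K, A = ∏ i, (Polynomial.X - Polynomial.C (c i)) ^ (e i).toNat :=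
    ⟨_, rfl⟩
  obtain ⟨B, hB⟩ : ∃ B : Polynomial K,
      B = ∏ i, (Polynomial.X - Polynomial.C (c i)) ^ (-e i).toNat := ⟨_, rfl⟩
  have hAe : ∀ t, Polynomial.eval t A = ∏ i, (t - c i) ^ (e i).toNat := by
    intro t
    rw [hA, Polynomial.eval_prod]
    refine Finset.prod_congr rfl fun i _ => ?_
    rw [Polynomial.eval_pow, Polynomial.eval_sub, Polynomial.eval_X, Polynomial.eval_C]
  have hBe : ∀ t, Polynomial.eval t B = ∏ i, (t - c i) ^ (-e i).toNat := by
    intro t
    rw [hB, Polynomial.eval_prod]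
    refine Finset.prod_congr rfl fun i _ => ?_
    rw [Polynomial.eval_pow, Polynomial.eval_sub, Polynomial.eval_X, Polynomial.eval_C]
  have hAB : A - Polynomial.C ζ * B = 0 := by
    refine Polynomial.eq_zero_of_infinite_isRoot _ ?_
    refine Cur_inf K (Set.range c) _ (Set.finite_range _) ?_
    intro t ht
    rw [Set.mem_compl_iff, Set.mem_range, not_exists] at ht
    rw [Set.mem_setOf_eq, Polynomial.IsRoot.def, Polynomial.eval_sub, Polynomial.eval_mul,
      Polynomial.eval_C, hAe, hBe, sub_eq_zero, ← h t (fun i hi => ht i hi.symm),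
      ← Finset.prod_mul_distrib]
    refine Finset.prod_congr rfl fun i _ => ?_
    have h0 : t - c i ≠ 0 := sub_ne_zero.mpr fun hi => ht i hi.symm
    rw [← zpow_natCast, ← zpow_natCast, ← zpow_add₀ h0]
    congr 1
    omega
  have hev := congrArg (Polynomial.eval (c i₀)) hAB
  rw [Polynomial.eval_sub, Polynomial.eval_mul, Polynomial.eval_C, Polynomial.eval_zero, hAe, hBe,
    sub_eq_zero] at hev
  have hne : ∀ f : κ → ℕ, f i₀ = 0 → ∏ i, (c i₀ - c i) ^ f i ≠ 0 := by
    intro f hf
    refine Finset.prod_ne_zero_iff.mpr fun i _ => ?_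
    by_cases hi : i = i₀
    · rw [hi, hf, pow_zero]
      exact one_ne_zero
    · exact pow_ne_zero _ (sub_ne_zero.mpr fun h => hi (hc h).symm)
  have hz : ∀ f : κ → ℕ, 0 < f i₀ → ∏ i, (c i₀ - c i) ^ f i = 0 := by
    intro f hf
    refine Finset.prod_eq_zero (Finset.mem_univ i₀) ?_
    rw [sub_self, zero_pow hf.ne']
  rcases lt_trichotomy (e i₀) 0 with h1 | h1 | h1
  · exfalso
    rw [hz (fun i => (-e i).toNat) (by show 0 < (-e i₀).toNat; omega), mul_zero] at hev
    exact hne (fun i => (e i).toNat) (by show (e i₀).toNat = 0; omega) hev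
  · exact h1
  · exfalso
    rw [hz (fun i => (e i).toNat) (by show 0 < (e i₀).toNat; omega)] at hev
    exact mul_ne_zero hζ (hne (fun i => (-e i).toNat) (by show (-e i₀).toNat = 0; omega)) hev.symm

end

theorem Cv_irr (K : Type) [Field K] [CharZero K] (m : ℕ) : IrrClosed (Cv K m) := by
  refine ⟨?_, ?_⟩
  · rw [Cur_ker K m]
    exact RingHom.ker_isPrime _
  · intro x hx j
    have h := hx _ (Cur_mem K m j)
    unfold Cur_F at h
    rw [map_sub, map_prod, MvPolynomial.eval_X, sub_eq_zero] at h
    rw [h]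
    refine Finset.prod_congr rfl fun i _ => ?_
    rw [map_pow, map_sub, MvPolynomial.eval_X, MvPolynomial.eval_C]

theorem Cv_dim (K : Type) [Field K] [CharZero K] (m : ℕ) : zdim (Cv K m) = 1 := by
  unfold zdim
  have e1 : (MvPolynomial (Fin (m + 1)) K ⧸ vanIdeal (Cv K m)) ≃+*
      (MvPolynomial (Fin (m + 1)) K ⧸ RingHom.ker (Cur_phi K m).toRingHom) :=
    Ideal.quotEquivOfEq (Cur_ker K m)
  have e2 : (MvPolynomial (Fin (m + 1)) K ⧸ RingHom.ker (Cur_phi K m).toRingHom) ≃+*
      Polynomial K :=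
    RingHom.quotientKerEquivOfSurjective (f := (Cur_phi K m).toRingHom) (Cur_surj K m)
  rw [ringKrullDim_eq_of_ringEquiv (e1.trans e2), Polynomial.ringKrullDim_of_isNoetherianRing,
    ringKrullDim_eq_zero_of_field, zero_add]

theorem Cv_coset (K : Type) [Field K] [CharZero K] {m : ℕ} (hm : 2 ≤ m) (a : Fin (m + 1) → ℤ)
    (ha : a ≠ 0) (ζ : Kˣ) : ¬ ∀ x ∈ Cv K m, ∏ j, x j ^ a j = ζ := by
  intro h
  apply ha
  -- the exponents
  have key := Cur_const K (node K : Option (Fin (m ^ 3)) → K) (by
      intro u v huv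
      cases u with
      | none =>
        cases v with
        | none => rfl
        | some v =>
          exfalso
          unfold node at huv
          have h1 : ((0 : ℕ) : K) = (((v : ℕ) + 2 : ℕ) : K) := by
            push_cast
            exact huv
          have h2 := Nat.cast_injective h1
          omega
      | some u =>
        cases v with
        | none =>
          exfalso
          unfold node at huv
          have h1 : (((u : ℕ) + 2 : ℕ) : K) = ((0 : ℕ) : K) := by
            push_cast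
            exact huv
          have h2 := Nat.cast_injective h1
          omega
        | some v =>
          unfold node at huv
          have h1 : (((u : ℕ) + 2 : ℕ) : K) = (((v : ℕ) + 2 : ℕ) : K) := by
            push_cast
            exact huv
          have h2 := Nat.cast_injective h1
          congr 1
          apply Fin.ext
          omega)
    (fun o => Option.elim o (a 0) (fun i : Fin (m ^ 3) =>
      ∑ j : Fin m, (y m i : ℤ) ^ (j : ℕ) * a j.succ)) (ζ : K) ζ.ne_zero (by
      intro t ht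
      have ht0 : t ≠ 0 := ht none
      have hti : ∀ i : Fin (m ^ 3), t ≠ (i : ℕ) + 2 := fun i => ht (some i)
      obtain ⟨x, hx, hxt⟩ := Cur_pt K m t ht0 hti
      rw [← h x hx, Fintype.prod_option, Fin.prod_univ_succ]
      push_cast
      rw [hxt]
      congr 1
      · show (t - 0) ^ (a 0) = t ^ (a 0)
        rw [sub_zero]
      · show ∏ i : Fin (m ^ 3), (t - ((i : ℕ) + 2)) ^
            (∑ j : Fin m, (y m i : ℤ) ^ (j : ℕ) * a j.succ) = _
        have h1 : ∀ j : Fin m, ((x j.succ : K)) ^ (a j.succ) =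
            ∏ i : Fin (m ^ 3), (t - ((i : ℕ) + 2)) ^ ((y m i : ℤ) ^ (j : ℕ) * a j.succ) := by
          intro j
          rw [hx j, hxt, ← Finset.prod_zpow]
          refine Finset.prod_congr rfl fun i _ => ?_
          rw [← zpow_natCast, ← zpow_mul]
          congr 1
        rw [Finset.prod_congr rfl fun j _ => h1 j, Finset.prod_comm]
        refine Finset.prod_congr rfl fun i _ => ?_
        have h2 : t - ((i : ℕ) + 2) ≠ 0 := sub_ne_zero.mpr (hti i)
        have h3 : ∀ s : Finset (Fin m), (t - ((i : ℕ) + 2)) ^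
            (∑ j ∈ s, (y m i : ℤ) ^ (j : ℕ) * a j.succ) =
            ∏ j ∈ s, (t - ((i : ℕ) + 2)) ^ ((y m i : ℤ) ^ (j : ℕ) * a j.succ) := by
          intro s
          induction s using Finset.induction_on with
          | empty => rw [Finset.sum_empty, Finset.prod_empty, zpow_zero]
          | insert b s hb ih =>
            rw [Finset.sum_insert hb, Finset.prod_insert hb, zpow_add₀ h2, ih]
        exact h3 Finset.univ)
  have ha0 : a 0 = 0 := key none
  -- the polynomial in the exponents
  obtain ⟨p, hp⟩ : ∃ p : Polynomial ℤ,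
      p = ∑ j : Fin m, Polynomial.C (a j.succ) * Polynomial.X ^ (j : ℕ) := ⟨_, rfl⟩
  have hev : ∀ i : Fin (m ^ 3), Polynomial.eval (y m i : ℤ) p = 0 := by
    intro i
    have h1 : ∑ j : Fin m, (y m i : ℤ) ^ (j : ℕ) * a j.succ = 0 := key (some i)
    rw [hp, Polynomial.eval_finsetSum, ← h1]
    refine Finset.sum_congr rfl fun j _ => ?_
    rw [Polynomial.eval_mul, Polynomial.eval_C, Polynomial.eval_pow, Polynomial.eval_X, mul_comm]
  have hcoeff : ∀ j : Fin m, p.coeff j = a j.succ := by
    intro j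
    rw [hp, Polynomial.finsetSum_coeff]
    rw [Finset.sum_eq_single j]
    · rw [Polynomial.coeff_C_mul, Polynomial.coeff_X_pow, if_pos rfl, mul_one]
    · intro l _ hl
      rw [Polynomial.coeff_C_mul, Polynomial.coeff_X_pow, if_neg, mul_zero]
      intro h1
      exact hl (Fin.ext h1.symm)
    · intro h1
      exact absurd (Finset.mem_univ _) h1
  have hdeg : p.degree < m := by
    rw [hp]
    refine lt_of_le_of_lt (Polynomial.degree_sum_le _ _) ?_
    refine (Finset.sup_lt_iff (by exact_mod_cast WithBot.bot_lt_coe m)).mpr fun j _ => ?_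
    refine lt_of_le_of_lt (Polynomial.degree_C_mul_X_pow_le _ _) ?_
    exact_mod_cast j.2
  have hyinj : ∀ i l : ℕ, y m i = y m l → i = l := by
    intro i l hil
    unfold y at hil
    have h1 := Nat.pow_right_injective (le_refl 2) hil
    exact Nat.pow_right_injective hm h1
  have hp0 : p = 0 := by
    by_contra hne
    have hm3 : m ≤ m ^ 3 := by
      calc m = m ^ 1 := (pow_one m).symm
        _ ≤ m ^ 3 := Nat.pow_le_pow_right (by omega) (by norm_num)
    have h1 : (Finset.univ.image (fun i : Fin (m ^ 3) => (y m i : ℤ))) ⊆ p.roots.toFinset := by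
      intro z hz
      rw [Finset.mem_image] at hz
      obtain ⟨i, _, rfl⟩ := hz
      rw [Multiset.mem_toFinset, Polynomial.mem_roots hne]
      exact hev i
    have h2 : (Finset.univ.image (fun i : Fin (m ^ 3) => (y m i : ℤ))).card = m ^ 3 := by
      rw [Finset.card_image_of_injective, Finset.card_univ, Fintype.card_fin]
      intro i l hil
      apply Fin.ext
      apply hyinj
      have hil' : (y m i : ℤ) = (y m l : ℤ) := hil
      exact_mod_cast hil'
    have h3 := (Finset.card_le_card h1).trans (Multiset.toFinset_card_le _)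
    have h4 := Polynomial.card_roots' p
    have h5 : p.natDegree < m := (Polynomial.natDegree_lt_iff_degree_lt hne).mpr hdeg
    omega
  funext j
  refine Fin.cases ?_ (fun l => ?_) j
  · exact ha0
  · rw [← hcoeff l, hp0, Polynomial.coeff_zero]
    rfl

theorem Cv_cpts (τ : AlgebraicClosure ℚ →+* ℂ) (m : ℕ) {w : Fin (m + 1) → ℂˣ}
    (hw : w ∈ cpts τ (Cv (AlgebraicClosure ℚ) m)) : w ∈ Cv ℂ m := by
  intro j
  have h := hw _ (Cur_mem (AlgebraicClosure ℚ) m j)
  unfold Cur_F at h
  rw [MvPolynomial.eval₂_sub, MvPolynomial.eval₂_X, sub_eq_zero] at h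
  rw [h]
  rw [← MvPolynomial.coe_eval₂Hom, map_prod]
  refine Finset.prod_congr rfl fun i _ => ?_
  rw [map_pow, map_sub, MvPolynomial.coe_eval₂Hom, MvPolynomial.eval₂_X, MvPolynomial.eval₂_C,
    map_add, map_natCast, map_ofNat]

end NE
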