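import Mathlib

/-! Explicit curves with the finiteness property (NA) for all pairs of real directions: definitions.
A curve parametrised by `t`, nodes `β i`; `u β c t = ∑ c_i log |t - β_i|`. -/

open Polynomial

namespace NE

section

variable {ι : Type} [Fintype ι] [DecidableEq ι]

/-- the function `∑ c_i log |t - β_i|` -/
noncomputable def u (β : ι → ℂ) (c : ι → ℝ) (t : ℂ) : ℝ := ∑ i, c i * Real.log ‖t - β i‖

/-- its complex logarithmic derivative -/
noncomputable def w (β : ι → ℂ) (c : ι → ℝ) (t : ℂ) : ℂ := ∑ i, (c i : ℂ) / (t - β i)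

/-- complex conjugates of the nodes -/
noncomputable def cj (β : ι → ℂ) : ι → ℂ := fun i => (starRingEnd ℂ) (β i)

/-- the polynomial with simple zeros at the nodes -/
noncomputable def q (β : ι → ℂ) : ℂ[X] := ∏ i, (X - C (β i))

/-- the numerator of `w` -/
noncomputable def P (β : ι → ℂ) (c : ι → ℝ) : ℂ[X] :=
  ∑ i, C (c i : ℂ) * ∏ l ∈ Finset.univ.erase i, (X - C (β l))

/-- derivative of a polynomial in two variables with respect to the inner variable -/
noncomputable def dT (F : ℂ[X][X]) : ℂ[X][X] := F.sum fun n a => monomial n (derivative a)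

/-- the vector field of `w β c (t) dt + w (cj β) c (s) ds` applied to `F(t,s)`; `t` is the inner variable,
`s` the outer variable -/
noncomputable def XX (β : ι → ℂ) (c : ι → ℝ) (F : ℂ[X][X]) : ℂ[X][X] :=
  C (P β c) * (q (cj β)).map C * derivative F - (P (cj β) c).map C * C (q β) * dT F

/-- a germ of an analytic curve `(t(z), s(z))`, `z → 0`, on which both differential relations hold -/
def IsArc (β : ι → ℂ) (A B : ι → ℝ) (t s : ℂ → ℂ) : Prop :=
  MeromorphicAt t 0 ∧ MeromorphicAt s 0 ∧ ∀ᶠ z in nhdsWithin (0 : ℂ) {0}ᶜ,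
    DifferentiableAt ℂ t z ∧ DifferentiableAt ℂ s z ∧ deriv t z ≠ 0 ∧ deriv s z ≠ 0 ∧
    (∀ i, t z ≠ β i) ∧ (∀ i, s z ≠ cj β i) ∧
    w β A (t z) * deriv t z + w (cj β) A (s z) * deriv s z = 0 ∧
    w β B (t z) * deriv t z + w (cj β) B (s z) * deriv s z = 0

end

/-- the polynomials in two variables vanishing on the germ -/
def pp (t s : ℂ → ℂ) : Ideal ℂ[X][X] where
  carrier := {F | ∀ᶠ z in nhdsWithin (0 : ℂ) {0}ᶜ, evalEval (t z) (s z) F = 0}
  add_mem' := by
    intro F G hF hG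
    rw [Set.mem_setOf_eq] at hF hG ⊢
    filter_upwards [hF, hG] with z h1 h2
    have h3 := evalEval_add (t z) (s z) F G
    rw [h3, h1, h2, add_zero]
  zero_mem' := by
    rw [Set.mem_setOf_eq]
    exact Filter.Eventually.of_forall fun z => evalEval_zero (t z) (s z)
  smul_mem' := by
    intro F G hG
    rw [Set.mem_setOf_eq] at hG ⊢
    filter_upwards [hG] with z h2
    have h3 := evalEval_mul (t z) (s z) F G
    rw [smul_eq_mul, h3, h2, mul_zero]

theorem mem_pp {t s : ℂ → ℂ} {F : ℂ[X][X]} : F ∈ pp t s ↔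
    ∀ᶠ z in nhdsWithin (0 : ℂ) {0}ᶜ, evalEval (t z) (s z) F = 0 := Iff.rfl

/-- the exponents -/
def y (m i : ℕ) : ℕ := 2 ^ (m ^ i)

/-- values of a real polynomial with coefficients `a` at the numbers `y m i` -/
noncomputable def ev {m : ℕ} (a : Fin m → ℝ) (i : ℕ) : ℝ := ∑ p : Fin m, a p * (y m i : ℝ) ^ (p : ℕ)

/-- the nodes: `0` and `2, 3, 4, ...` -/
def node (K : Type) [Field K] {N : ℕ} : Option (Fin N) → K
  | none => 0
  | some i => (i : ℕ) + 2

/-- the curve `C_k`, `k = m + 1` -/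
def Cv (K : Type) [Field K] (m : ℕ) : Set (Fin (m + 1) → Kˣ) :=
  {x | ∀ j : Fin m, (x j.succ : K) =
    ∏ i : Fin (m ^ 3), ((x 0 : K) - ((i : ℕ) + 2)) ^ (y m i ^ (j : ℕ))}

end NE
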