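import Pool.Agent.Lib.MP_a325a5_ag.NE.Na
import Pool.Agent.Lib.MP_a325a5_ag.NE.Cur

/-! The explicit curves `Ck κ` in the torus of dimension `k = κ + 3` satisfy all hypotheses of the general theorem. -/

open Pool.Agent.Lib.MP_a325a5_ag.UL Pool.Agent.Lib.MP_a325a5_ag.G2

namespace NE

/-- The curve parametrised by `t`, `x 0 = t`, `x (j + 1) = ∏_{i < (κ + 2) ^ 3} (t - (i + 2)) ^ (e_i ^ j)` with
`e_i = 2 ^ ((κ + 2) ^ i)`. -/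
def Ck (κ : ℕ) : Set (Fin (κ + 3) → (AlgebraicClosure ℚ)ˣ) :=
  {x | ∀ j : Fin (κ + 2), (x j.succ : AlgebraicClosure ℚ) =
    ∏ i : Fin ((κ + 2) ^ 3),
      ((x 0 : AlgebraicClosure ℚ) - ((i : ℕ) + 2)) ^ ((2 ^ ((κ + 2) ^ (i : ℕ))) ^ (j : ℕ))}

theorem Ck_hyp (κ : ℕ) : IrrClosed (Ck κ) ∧ zdim (Ck κ) = 1 ∧
    (∀ a : Fin (κ + 3) → ℤ, a ≠ 0 → ∀ ζ : (AlgebraicClosure ℚ)ˣ, ¬ ∀ x ∈ Ck κ, ∏ j, x j ^ a j = ζ) ∧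
    ∀ (τ : AlgebraicClosure ℚ →+* ℂ) (r s : Fin (κ + 3) → ℝ), LinearIndependent ℝ ![r, s] →
      {w : Fin (κ + 3) → ℂˣ | w ∈ cpts τ (Ck κ) ∧ ∑ j, r j * Real.log ‖(w j : ℂ)‖ = 0 ∧
        ∑ j, s j * Real.log ‖(w j : ℂ)‖ = 0}.Finite := by
  have hC : Ck κ = Cv (AlgebraicClosure ℚ) (κ + 2) := rfl
  rw [hC]
  refine ⟨Cv_irr _ _, Cv_dim _ _, Cv_coset _ (by omega), fun τ r s hrs => ?_⟩
  refine (na (by omega : 2 ≤ κ + 2) r s ?_).subset ?_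
  · exact LinearIndependent.pair_iff.mp hrs
  · rintro w ⟨hw, h1, h2⟩
    exact ⟨Cv_cpts τ _ hw, h1, h2⟩

end NE
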