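import Pool.Agent.Lib.MP_a325a5_ag.NE.Def

/-! A prime ideal of `ℂ[t][s]` which contains no nonzero polynomial in `t` is generated by a primitive polynomial.
Proof: let `G ≠ 0` in `I` of least degree in `s`; `G = C (content) * primPart` (`Polynomial.eq_C_content_mul_primPart`; a
`NormalizedGCDMonoid` structure on `ℂ[X]` by `UniqueFactorizationMonoid.toNormalizedGCDMonoid`), so `F := primPart ∈ I` by `hI`, `h0`.  The
degree of `F` is at least `1` by `h0`.  For `H ∈ I`, by strong induction on `natDegree H`: the image of `F` divides the image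
of `H` in `K[s]`, `K = FractionRing ℂ[X]`: if `natDegree H < natDegree F` then `H = 0`; otherwise
`lc F • H - lc H * s ^ (deg H - deg F) * F` has smaller degree.  Then `F ∣ H` by Gauss
(`Polynomial.IsPrimitive.dvd_of_fraction_map_dvd_fraction_map` applied to `F` and `H.primPart`). -/

open Polynomial

namespace NE

private theorem frac_dvd (I : Ideal ℂ[X][X]) {F : ℂ[X][X]} (hF : F ∈ I) (hF0 : F ≠ 0)
    (hmin : ∀ H ∈ I, H.natDegree < F.natDegree → H = 0) (N : ℕ) :
    ∀ H ∈ I, H.natDegree < N → F.map (algebraMap ℂ[X] (FractionRing ℂ[X])) ∣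
      H.map (algebraMap ℂ[X] (FractionRing ℂ[X])) := by
  induction N with
  | zero => exact fun H _ h => absurd h (Nat.not_lt_zero _)
  | succ N ih =>
    intro H hH hdeg
    by_cases hlt : H.natDegree < F.natDegree
    · rw [hmin H hH hlt, Polynomial.map_zero]
      exact dvd_zero _
    push Not at hlt
    by_cases hH0 : H = 0
    · rw [hH0, Polynomial.map_zero]
      exact dvd_zero _
    have hlF : F.leadingCoeff ≠ 0 := leadingCoeff_ne_zero.mpr hF0
    have hlH : H.leadingCoeff ≠ 0 := leadingCoeff_ne_zero.mpr hH0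
    obtain ⟨p, hp⟩ : ∃ p, p = C F.leadingCoeff * H := ⟨_, rfl⟩
    obtain ⟨r, hr⟩ : ∃ r, r = C H.leadingCoeff * (X ^ (H.natDegree - F.natDegree) * F) := ⟨_, rfl⟩
    have hp0 : p ≠ 0 := by
      rw [hp]
      exact mul_ne_zero (C_ne_zero.mpr hlF) hH0
    have hr0 : r ≠ 0 := by
      rw [hr]
      exact mul_ne_zero (C_ne_zero.mpr hlH) (mul_ne_zero (pow_ne_zero _ X_ne_zero) hF0)
    have hpd : p.natDegree = H.natDegree := by
      rw [hp, natDegree_C_mul hlF]
    have hrd : r.natDegree = H.natDegree := by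
      rw [hr, natDegree_C_mul hlH, natDegree_mul (pow_ne_zero _ X_ne_zero) hF0, natDegree_X_pow]
      omega
    have hdd : p.degree = r.degree := by
      rw [degree_eq_natDegree hp0, degree_eq_natDegree hr0, hpd, hrd]
    have hll : p.leadingCoeff = r.leadingCoeff := by
      rw [hp, hr, leadingCoeff_mul, leadingCoeff_mul, leadingCoeff_mul, leadingCoeff_C,
        leadingCoeff_C, leadingCoeff_X_pow]
      ring
    have hlt2 := degree_sub_lt_left hdd hp0 hll
    have hI1 : p - r ∈ I := by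
      rw [hp, hr, ← mul_assoc]
      exact I.sub_mem (I.mul_mem_left _ hH) (I.mul_mem_left _ hF)
    have hdvd : F.map (algebraMap ℂ[X] (FractionRing ℂ[X])) ∣
        (p - r).map (algebraMap ℂ[X] (FractionRing ℂ[X])) := by
      by_cases h0 : p - r = 0
      · rw [h0, Polynomial.map_zero]
        exact dvd_zero _
      · refine ih _ hI1 ?_
        have h1 : (p - r).natDegree < p.natDegree := natDegree_lt_natDegree h0 hlt2
        omega
    have h2 : F.map (algebraMap ℂ[X] (FractionRing ℂ[X])) ∣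
        r.map (algebraMap ℂ[X] (FractionRing ℂ[X])) := by
      rw [hr, Polynomial.map_mul, Polynomial.map_mul, ← mul_assoc]
      exact dvd_mul_left _ _
    have h3 : F.map (algebraMap ℂ[X] (FractionRing ℂ[X])) ∣
        p.map (algebraMap ℂ[X] (FractionRing ℂ[X])) := by
      have h4 := dvd_add hdvd h2
      rwa [← Polynomial.map_add, sub_add_cancel] at h4
    rw [hp, Polynomial.map_mul, Polynomial.map_C] at h3
    have h5 : algebraMap ℂ[X] (FractionRing ℂ[X]) F.leadingCoeff ≠ 0 := fun h =>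
      hlF ((map_eq_zero_iff _ (IsFractionRing.injective ℂ[X] (FractionRing ℂ[X]))).mp h)
    have h6 : IsUnit (C (algebraMap ℂ[X] (FractionRing ℂ[X]) F.leadingCoeff)) :=
      isUnit_C.mpr (isUnit_iff_ne_zero.mpr h5)
    exact (h6.dvd_mul_left).mp h3

theorem exists_gen (I : Ideal ℂ[X][X]) (hI : ∀ F G : ℂ[X][X], F * G ∈ I → F ∈ I ∨ G ∈ I)
    (h0 : ∀ p : ℂ[X], C p ∈ I → p = 0) (hne : ∃ G ∈ I, G ≠ 0) :
    ∃ F ∈ I, F.IsPrimitive ∧ 1 ≤ F.natDegree ∧ (∀ H ∈ I, F ∣ H) ∧
      ∀ c : ℂ, (X - C (C c) : ℂ[X][X]) ∉ I → ¬ (X - C (C c) : ℂ[X][X]) ∣ F := by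
  classical
  let _ : NormalizedGCDMonoid ℂ[X] := UniqueFactorizationMonoid.toNormalizedGCDMonoid ℂ[X]
  have hex : ∃ n, ∃ G ∈ I, G ≠ 0 ∧ G.natDegree = n := by
    obtain ⟨G, hG, hG0⟩ := hne
    exact ⟨_, G, hG, hG0, rfl⟩
  obtain ⟨G, hG, hG0, hGd⟩ := Nat.find_spec hex
  have hmin : ∀ H ∈ I, H.natDegree < G.natDegree → H = 0 := by
    intro H hH hlt
    by_contra h
    rw [hGd] at hlt
    exact Nat.find_min hex hlt ⟨H, hH, h, rfl⟩
  have hcont : ∀ H : ℂ[X][X], H ≠ 0 → H ∈ I → H.primPart ∈ I := by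
    intro H hH0 hH
    have h1 := H.eq_C_content_mul_primPart
    rw [h1] at hH
    rcases hI _ _ hH with h2 | h2
    · exact absurd (h0 _ h2) (content_eq_zero_iff.not.mpr hH0)
    · exact h2
  obtain ⟨F, hF⟩ : ∃ F, F = G.primPart := ⟨_, rfl⟩
  have hFI : F ∈ I := by
    rw [hF]
    exact hcont G hG0 hG
  have hprim : F.IsPrimitive := by
    rw [hF]
    exact G.isPrimitive_primPart
  have hF0 : F ≠ 0 := hprim.ne_zero
  have hFd : F.natDegree = G.natDegree := by
    rw [hF, natDegree_primPart]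
  have hminF : ∀ H ∈ I, H.natDegree < F.natDegree → H = 0 := by
    rw [hFd]
    exact hmin
  have hdeg : 1 ≤ F.natDegree := by
    by_contra h
    have h1 : F.natDegree = 0 := by omega
    rw [eq_C_of_natDegree_eq_zero h1] at hFI
    have h2 := h0 _ hFI
    apply hF0
    rw [eq_C_of_natDegree_eq_zero h1, h2, C_0]
  have hgen : ∀ H ∈ I, F ∣ H := by
    intro H hH
    exact hprim.dvd_of_fraction_map_dvd_fraction_map
      (frac_dvd I hFI hF0 hminF _ _ hH (Nat.lt_succ_self _))
  refine ⟨F, hFI, hprim, hdeg, hgen, fun c hc hdvd => ?_⟩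
  obtain ⟨F', hF'⟩ := hdvd
  have h1 : F' ∈ I := by
    rw [hF'] at hFI
    exact (hI _ _ hFI).resolve_left hc
  have h2 : F' ≠ 0 := by
    rintro rfl
    exact hF0 (by rw [hF', mul_zero])
  have h3 := natDegree_le_of_dvd (hgen F' h1) h2
  rw [hF', natDegree_mul (X_sub_C_ne_zero _) h2, natDegree_X_sub_C] at h3
  omega

end NE
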