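import Pool.Agent.Lib.MP_a325a5_ag.NE.Pol

/-! The ideal of the germ is not zero.
Proof: `G = C (P β A) * (P (cj β) B).map C - C (P β B) * (P (cj β) A).map C`.  On the germ `W_A t' = - W'_A s'`,
`W_B t' = - W'_B s'`, so `W_A W'_B = W_B W'_A` (`t', s' ≠ 0`), that is `G (t, s) = 0` (`P_eval`).  If `G = 0` then
`evalEval (β j) (cj β i) G = (A j * B i - B j * A i) * q'(β j) * q~'(cj β i)` (`P_eval_node`) gives `A j * B i = B j * A i` for all `i`, `j`
(`q_deriv_ne`, `cj_injective`), against the independence. -/

open Polynomial Filter Topology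

namespace NE

variable {ι : Type} [Fintype ι] [DecidableEq ι]

theorem nz_mem {β : ι → ℂ} (hβ : Function.Injective β) {A B : ι → ℝ}
    (hind : ∀ x z : ℝ, x • A + z • B = 0 → x = 0 ∧ z = 0) {t s : ℂ → ℂ}
    (h : IsArc β A B t s) : ∃ G ∈ pp t s, G ≠ 0 := by
  obtain ⟨_, _, h3⟩ := h
  refine ⟨C (P β A) * (P (cj β) B).map C - C (P β B) * (P (cj β) A).map C, ?_, ?_⟩
  · rw [mem_pp]
    filter_upwards [h3] with z h5
    obtain ⟨_, _, a3, a4, a5, a6, a7, a8⟩ := h5
    rw [evalEval_sub, evalEval_mul, evalEval_mul, evalEval_C, evalEval_map_C, evalEval_C,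
      evalEval_map_C, P_eval β A a5, P_eval (cj β) B a6, P_eval β B a5, P_eval (cj β) A a6]
    have h1 : (w β A (t z) * w (cj β) B (s z) - w β B (t z) * w (cj β) A (s z)) * deriv t z = 0 := by
      linear_combination w (cj β) B (s z) * a7 - w (cj β) A (s z) * a8
    rcases mul_eq_zero.1 h1 with h2 | h2
    · linear_combination eval (t z) (q β) * eval (s z) (q (cj β)) * h2
    · exact absurd h2 a3
  · intro hG
    have h1 : ∀ i j, A j * B i = B j * A i := by
      intro i j
      have h2 := congrArg (evalEval (β j) (cj β i)) hG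
      rw [evalEval_sub, evalEval_mul, evalEval_mul, evalEval_C, evalEval_map_C, evalEval_C,
        evalEval_map_C, P_eval_node, P_eval_node, P_eval_node, P_eval_node, evalEval_zero] at h2
      have h4 := q_deriv_ne hβ j
      have h5 := q_deriv_ne (cj_injective hβ) i
      have h6 : ((A j : ℂ) * B i - B j * A i) * (eval (β j) (derivative (q β)) *
          eval (cj β i) (derivative (q (cj β)))) = 0 := by
        linear_combination h2
      rcases mul_eq_zero.1 h6 with h7 | h7
      · have h8 : (((A j * B i : ℝ)) : ℂ) = ((B j * A i : ℝ) : ℂ) := by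
          push_cast
          linear_combination h7
        exact Complex.ofReal_injective h8
      · exact absurd h7 (mul_ne_zero h4 h5)
    have h2 : A = 0 := by
      funext i
      have h9 : (B i) • A + (- A i) • B = 0 := by
        funext j
        rw [Pi.add_apply, Pi.smul_apply, Pi.smul_apply, smul_eq_mul, smul_eq_mul, Pi.zero_apply]
        linear_combination h1 i j
      have h10 := (hind _ _ h9).2
      rw [Pi.zero_apply]
      linarith
    have h3 := (hind 1 0 (by rw [h2, smul_zero, zero_smul, add_zero])).1
    exact one_ne_zero h3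

end NE
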