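import Pool.Agent.Lib.MP_a325a5_ag.NE.Pol

/-! The vector field maps the ideal of the germ into itself.
Proof: if `F (t z, s z) = 0` in a punctured neighbourhood of `0` then the derivative vanishes there:
`dT F (t, s) * t' + (derivative F) (t, s) * s' = 0` (`hasDerivAt_evalEval`).  With `W = w β c (t)`, `W' = w (cj β) c (s)`, `W t' + W' s' = 0`, `P = W q` (`P_eval`):
`XX β c F (t, s) * t' = P q~ F_s t' - P~ q F_t t' = q q~ (W t' F_s - W' t' F_t) = q q~ (- W' s' F_s + W' s' F_s) = 0`, and `t' ≠ 0`. -/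

open Polynomial Filter Topology

namespace NE

variable {ι : Type} [Fintype ι] [DecidableEq ι]

private theorem XXm_ee (x y : ℂ) (n : ℕ) (a : ℂ[X]) : evalEval x y (monomial n a) = a.eval x * y ^ n := by
  simp [Polynomial.evalEval]

private theorem XXm_dT_add (F G : ℂ[X][X]) : dT (F + G) = dT F + dT G := by
  ext1 n
  rw [coeff_dT, coeff_add, coeff_add, coeff_dT, coeff_dT, derivative_add]

private theorem XXm_dT_mon (n : ℕ) (a : ℂ[X]) : dT (monomial n a) = monomial n (derivative a) := by
  ext1 k
  rw [coeff_dT, coeff_monomial, coeff_monomial]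
  split_ifs
  · rfl
  · exact derivative_zero

theorem hasDerivAt_evalEval {t s : ℂ → ℂ} {z : ℂ} (ht : DifferentiableAt ℂ t z)
    (hs : DifferentiableAt ℂ s z) (F : ℂ[X][X]) :
    HasDerivAt (fun z => evalEval (t z) (s z) F)
      (evalEval (t z) (s z) (dT F) * deriv t z +
        evalEval (t z) (s z) (derivative F) * deriv s z) z := by
  induction F using Polynomial.induction_on' with
  | add F G hF hG =>
    have h1 := hF.add hG
    have h2 : ((fun z => evalEval (t z) (s z) F) + fun z => evalEval (t z) (s z) G) =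
        fun z => evalEval (t z) (s z) (F + G) := by
      funext x
      rw [Pi.add_apply, evalEval_add]
    rw [h2] at h1
    rw [XXm_dT_add, derivative_add, evalEval_add, evalEval_add]
    have h3 : (evalEval (t z) (s z) (dT F) + evalEval (t z) (s z) (dT G)) * deriv t z +
        (evalEval (t z) (s z) (derivative F) + evalEval (t z) (s z) (derivative G)) * deriv s z =
        evalEval (t z) (s z) (dT F) * deriv t z + evalEval (t z) (s z) (derivative F) * deriv s z +
        (evalEval (t z) (s z) (dT G) * deriv t z + evalEval (t z) (s z) (derivative G) * deriv s z) := by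
      ring
    rw [h3]
    exact h1
  | monomial n a =>
    have h1 : HasDerivAt (fun z => a.eval (t z)) ((derivative a).eval (t z) * deriv t z) z :=
      (a.hasDerivAt (t z)).comp z ht.hasDerivAt
    have h2 : HasDerivAt (fun z => s z ^ n) ((n : ℂ) * s z ^ (n - 1) * deriv s z) z :=
      hs.hasDerivAt.fun_pow n
    have h3 := h1.fun_mul h2
    have h4 : (fun z => evalEval (t z) (s z) (monomial n a)) = fun z => a.eval (t z) * s z ^ n := by
      funext x
      rw [XXm_ee]
    rw [h4, XXm_dT_mon, derivative_monomial, XXm_ee, XXm_ee, eval_mul, eval_natCast]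
    have h5 : eval (t z) (derivative a) * s z ^ n * deriv t z +
        eval (t z) a * (n : ℂ) * s z ^ (n - 1) * deriv s z =
        eval (t z) (derivative a) * deriv t z * s z ^ n + eval (t z) a * ((n : ℂ) * s z ^ (n - 1) * deriv s z) := by
      ring
    rw [h5]
    exact h3

private theorem XXm_one (β : ι → ℂ) (c : ι → ℝ) {F : ℂ[X][X]} {a b a' b' : ℂ} (ha : ∀ i, a ≠ β i)
    (hb : ∀ i, b ≠ cj β i) (ha' : a' ≠ 0)
    (h : w β c a * a' + w (cj β) c b * b' = 0)
    (hd : evalEval a b (dT F) * a' + evalEval a b (derivative F) * b' = 0) :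
    evalEval a b (XX β c F) = 0 := by
  unfold XX
  rw [evalEval_sub, evalEval_mul, evalEval_mul, evalEval_mul, evalEval_mul, evalEval_C, evalEval_map_C,
    evalEval_map_C, evalEval_C, P_eval β c ha, P_eval (cj β) c hb]
  have h1 : (w β c a * eval a (q β) * eval b (q (cj β)) * evalEval a b (derivative F) -
      w (cj β) c b * eval b (q (cj β)) * eval a (q β) * evalEval a b (dT F)) * a' = 0 := by
    linear_combination eval a (q β) * eval b (q (cj β)) * evalEval a b (derivative F) * h -
      eval a (q β) * eval b (q (cj β)) * w (cj β) c b * hd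
  rcases mul_eq_zero.1 h1 with h2 | h2
  · exact h2
  · exact absurd h2 ha'

theorem XX_mem {β : ι → ℂ} {A B : ι → ℝ} {t s : ℂ → ℂ} (h : IsArc β A B t s) {F : ℂ[X][X]}
    (hF : F ∈ pp t s) : XX β A F ∈ pp t s ∧ XX β B F ∈ pp t s := by
  obtain ⟨_, _, h3⟩ := h
  rw [mem_pp] at hF
  have h4 : ∀ᶠ z in 𝓝[≠] (0 : ℂ), ∀ᶠ x in 𝓝 z, evalEval (t x) (s x) F = 0 := by
    have h5 : ∀ᶠ z in 𝓝[≠] (0 : ℂ), z ≠ 0 := eventually_mem_nhdsWithin
    filter_upwards [eventually_eventually_nhdsWithin.2 hF, h5] with z h6 h7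
    have h8 : 𝓝[≠] (0 : ℂ) = 𝓝[≠] (0 : ℂ) := rfl
    rw [isOpen_compl_singleton.nhdsWithin_eq h7] at h6
    exact h6
  rw [mem_pp, mem_pp, ← eventually_and]
  filter_upwards [h3, h4] with z h5 h6
  obtain ⟨a1, a2, a3, _, a5, a6, a7, a8⟩ := h5
  have h7 : evalEval (t z) (s z) (dT F) * deriv t z +
      evalEval (t z) (s z) (derivative F) * deriv s z = 0 := by
    have h8 := hasDerivAt_evalEval a1 a2 F
    have h9 : HasDerivAt (fun z => evalEval (t z) (s z) F) 0 z :=
      (hasDerivAt_const z (0 : ℂ)).congr_of_eventuallyEq h6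
    exact h8.unique h9
  exact ⟨XXm_one β A a5 a6 a3 a7 h7, XXm_one β B a5 a6 a3 a8 h7⟩

end NE
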