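import Pool.Agent.Lib.MP_a325a5_ag.NE.Pp
import Pool.Agent.Lib.MP_a325a5_ag.NE.Gen
import Pool.Agent.Lib.MP_a325a5_ag.NE.XXm
import Pool.Agent.Lib.MP_a325a5_ag.NE.Nz

/-! The invariant polynomial `F(t,s)`. -/

open Polynomial Filter Topology

namespace NE

variable {ι : Type} [Fintype ι] [DecidableEq ι]

theorem exists_F {β : ι → ℂ} (hβ : Function.Injective β) {A B : ι → ℝ}
    (hind : ∀ x z : ℝ, x • A + z • B = 0 → x = 0 ∧ z = 0) {t s : ℂ → ℂ}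
    (h : IsArc β A B t s) :
    ∃ F : ℂ[X][X], F.IsPrimitive ∧ 1 ≤ F.natDegree ∧ (∀ c : ℂ, ¬ (X - C (C c) : ℂ[X][X]) ∣ F) ∧
      F ∣ XX β A F ∧ F ∣ XX β B F := by
  obtain ⟨ht, hs, hz⟩ := h
  have hdt : ∀ᶠ z in 𝓝[≠] (0 : ℂ), DifferentiableAt ℂ t z ∧ deriv t z ≠ 0 := by
    filter_upwards [hz] with z hz
    exact ⟨hz.1, hz.2.2.1⟩
  have hds : ∀ᶠ z in 𝓝[≠] (0 : ℂ), DifferentiableAt ℂ s z ∧ deriv s z ≠ 0 := by
    filter_upwards [hz] with z hz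
    exact ⟨hz.2.1, hz.2.2.2.1⟩
  obtain ⟨F, hF, hprim, hdeg, hgen, hlin⟩ := exists_gen (pp t s)
    (fun F G hFG => pp_prime ht hs hFG) (fun p hp => pp_const hdt hp)
    (nz_mem hβ hind ⟨ht, hs, hz⟩)
  have hX := XX_mem (⟨ht, hs, hz⟩ : IsArc β A B t s) hF
  exact ⟨F, hprim, hdeg, fun c => hlin c (pp_lin hds c), hgen _ hX.1, hgen _ hX.2⟩

end NE
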