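import Pool.Agent.Lib.MP_a325a5_ag.NE.Gn
import Pool.Agent.Lib.MP_a325a5_ag.GK.CDef

/-! The curves `x_j = γ_j ∏ (t - β_i) ^ (v i j)` satisfy all hypotheses of the general theorem for all distinct `β_i`, all
`γ_j` and all matrices `v` of exponents outside a proper algebraic subset; and for explicit exponents. -/

open MvPolynomial Pool.Agent.Lib.MP_a325a5_ag.UL

namespace NE

/-- The four properties, for every matrix of exponents with the condition `NoOpp`. -/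
theorem four {k N : ℕ} (hk : 2 ≤ k) {v : Fin N → Fin k → ℕ} (hv : NoOpp v)
    {β : Fin N → AlgebraicClosure ℚ} (hβ : Function.Injective β)
    (γ : Fin k → (AlgebraicClosure ℚ)ˣ) (C : Set (Fin k → (AlgebraicClosure ℚ)ˣ))
    (hC : C = {x | ∃ t : AlgebraicClosure ℚ, ∀ j,
      (x j : AlgebraicClosure ℚ) = γ j * ∏ i, (t - β i) ^ v i j}) :
    IrrClosed C ∧ zdim C = 1 ∧
    (∀ a : Fin k → ℤ, a ≠ 0 → ∀ ζ : (AlgebraicClosure ℚ)ˣ, ¬ ∀ x ∈ C, ∏ j, x j ^ a j = ζ) ∧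
    ∀ (τ : AlgebraicClosure ℚ →+* ℂ) (r s : Fin k → ℝ), LinearIndependent ℝ ![r, s] →
      {w : Fin k → ℂˣ | w ∈ BMK.cpts τ C ∧ ∑ j, r j * Real.log ‖(w j : ℂ)‖ = 0 ∧
        ∑ j, s j * Real.log ‖(w j : ℂ)‖ = 0}.Finite := by
  have h : C = rc β γ v := hC
  rw [h]
  exact rc_hyp hk β hβ γ v hv

/-- **Generic exponents.** -/
theorem generic (κ N : ℕ) (hN : 4 * (κ + 3) ≤ N) :
    ∃ Q : MvPolynomial (Fin N × Fin (κ + 3)) ℤ, Q ≠ 0 ∧ ∀ v : Fin N → Fin (κ + 3) → ℕ,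
      MvPolynomial.eval (fun p => (v p.1 p.2 : ℤ)) Q ≠ 0 →
      ∀ (β : Fin N → AlgebraicClosure ℚ), Function.Injective β →
      ∀ (γ : Fin (κ + 3) → (AlgebraicClosure ℚ)ˣ) (C : Set (Fin (κ + 3) → (AlgebraicClosure ℚ)ˣ)),
        C = {x | ∃ t : AlgebraicClosure ℚ, ∀ j,
          (x j : AlgebraicClosure ℚ) = γ j * ∏ i, (t - β i) ^ v i j} →
        IrrClosed C ∧ zdim C = 1 ∧
        (∀ a : Fin (κ + 3) → ℤ, a ≠ 0 → ∀ ζ : (AlgebraicClosure ℚ)ˣ,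
          ¬ ∀ x ∈ C, ∏ j, x j ^ a j = ζ) ∧
        ∀ (τ : AlgebraicClosure ℚ →+* ℂ) (r s : Fin (κ + 3) → ℝ), LinearIndependent ℝ ![r, s] →
          {w : Fin (κ + 3) → ℂˣ | w ∈ BMK.cpts τ C ∧ ∑ j, r j * Real.log ‖(w j : ℂ)‖ = 0 ∧
            ∑ j, s j * Real.log ‖(w j : ℂ)‖ = 0}.Finite := by
  obtain ⟨Q, hQ, h⟩ := noOpp_generic hN
  exact ⟨Q, hQ, fun v hv β hβ γ C hC => four (by omega) (h v hv) hβ γ C hC⟩

/-- **Explicit exponents.** -/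
theorem explicit (κ : ℕ) (β : Fin ((κ + 3) ^ 3) → AlgebraicClosure ℚ) (hβ : Function.Injective β)
    (γ : Fin (κ + 3) → (AlgebraicClosure ℚ)ˣ) (C : Set (Fin (κ + 3) → (AlgebraicClosure ℚ)ˣ))
    (hC : C = {x | ∃ t : AlgebraicClosure ℚ, ∀ j, (x j : AlgebraicClosure ℚ) =
      γ j * ∏ i : Fin ((κ + 3) ^ 3), (t - β i) ^ ((2 ^ ((κ + 3) ^ (i : ℕ))) ^ (j : ℕ))}) :
    IrrClosed C ∧ zdim C = 1 ∧
    (∀ a : Fin (κ + 3) → ℤ, a ≠ 0 → ∀ ζ : (AlgebraicClosure ℚ)ˣ,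
      ¬ ∀ x ∈ C, ∏ j, x j ^ a j = ζ) ∧
    ∀ (τ : AlgebraicClosure ℚ →+* ℂ) (r s : Fin (κ + 3) → ℝ), LinearIndependent ℝ ![r, s] →
      {w : Fin (κ + 3) → ℂˣ | w ∈ BMK.cpts τ C ∧ ∑ j, r j * Real.log ‖(w j : ℂ)‖ = 0 ∧
        ∑ j, s j * Real.log ‖(w j : ℂ)‖ = 0}.Finite :=
  four (by omega) (noOpp_pow (by omega)) hβ γ C hC

end NE
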