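import Pool.Agent.Lib.MP_a325a5_ag.NE.Rc

/-! All matrices of exponents outside a proper algebraic subset satisfy the condition `NoOpp`.
If `NoOpp` fails for the pair `(a, b)`, then at least `2k - 1` of the rows `v_i` have an image under `(a, b)` that is
a multiple of the image of another row; this is a subset of smaller dimension. -/

open MvPolynomial

namespace NE

/-- fewer variables than polynomials: there is an algebraic relation -/
theorem Gn_dep {ι σ : Type} [Fintype ι] [Fintype σ] (h : Fintype.card σ < Fintype.card ι)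
    (P : ι → MvPolynomial σ ℤ) : ∃ Q : MvPolynomial ι ℤ, Q ≠ 0 ∧ aeval P Q = 0 := by
  by_contra hc
  push Not at hc
  have hind : AlgebraicIndependent ℤ P := by
    rw [algebraicIndependent_iff]
    intro Q hQ
    by_contra hne
    exact hc Q hne hQ
  have h1 := hind.cardinalMk_le_trdeg
  rw [MvPolynomial.trdeg_of_isDomain, Cardinal.mk_fintype, Cardinal.mk_fintype] at h1
  have h2 : ((Fintype.card ι : ℕ) : Cardinal.{0}) ≤ ((Fintype.card σ : ℕ) : Cardinal.{0}) := by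
    simpa using h1
  rw [Nat.cast_le] at h2
  omega

section

variable {k N : ℕ}

/-- the parameters of the degenerate matrices -/
abbrev GnPar (D : Finset (Fin N)) (j₁ j₂ : Fin k) : Type :=
  {p : Fin N × Fin k // ¬ (p.1 ∈ D ∧ p.2 = j₂)} ⊕ ({j : Fin k // j ≠ j₁ ∧ j ≠ j₂} × Bool)

theorem Gn_card (D : Finset (Fin N)) {j₁ j₂ : Fin k} (hj : j₁ ≠ j₂) (hD : 2 * (k - 2) < D.card) :
    Fintype.card (GnPar D j₁ j₂) < Fintype.card (Fin N × Fin k) := by
  classical
  have h1 : Fintype.card {p : Fin N × Fin k // ¬ (p.1 ∈ D ∧ p.2 = j₂)} =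
      Fintype.card (Fin N × Fin k) - D.card := by
    rw [Fintype.card_subtype_compl]
    congr 1
    rw [Fintype.card_subtype]
    have h2 : (Finset.univ.filter fun p : Fin N × Fin k => p.1 ∈ D ∧ p.2 = j₂) =
        D.image (fun i => (i, j₂)) := by
      ext ⟨i, j⟩
      simp only [Finset.mem_filter, Finset.mem_univ, true_and, Finset.mem_image, Prod.mk.injEq]
      constructor
      · rintro ⟨h3, h4⟩
        exact ⟨i, h3, rfl, h4.symm⟩
      · rintro ⟨i', h3, h4, h5⟩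
        exact ⟨h4 ▸ h3, h5.symm⟩
    rw [h2, Finset.card_image_of_injective _ (fun a b hab => (Prod.mk.inj hab).1)]
  have h3 : Fintype.card {j : Fin k // j ≠ j₁ ∧ j ≠ j₂} = k - 2 := by
    rw [Fintype.card_subtype]
    have h4 : (Finset.univ.filter fun j : Fin k => j ≠ j₁ ∧ j ≠ j₂) =
        (Finset.univ.erase j₁).erase j₂ := by
      ext j
      simp only [Finset.mem_filter, Finset.mem_univ, true_and, Finset.mem_erase, and_true]
      exact and_comm
    rw [h4, Finset.card_erase_of_mem (Finset.mem_erase.mpr ⟨hj.symm, Finset.mem_univ _⟩),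
      Finset.card_erase_of_mem (Finset.mem_univ _), Finset.card_univ, Fintype.card_fin]
    omega
  have hDN : D.card ≤ Fintype.card (Fin N × Fin k) := by
    have h5 : D.card ≤ N := by
      have := Finset.card_le_univ D
      rwa [Fintype.card_fin] at this
    rw [Fintype.card_prod, Fintype.card_fin, Fintype.card_fin]
    have h6 : 1 ≤ k := by
      have := j₁.2
      omega
    nlinarith
  have h7 : Fintype.card ({j : Fin k // j ≠ j₁ ∧ j ≠ j₂} × Bool) = (k - 2) * 2 := by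
    rw [Fintype.card_prod, h3, Fintype.card_bool]
  rw [Fintype.card_sum, h1, h7]
  omega

variable (D : Finset (Fin N)) (j₁ j₂ : Fin k) (r : Fin N → Fin N)

noncomputable def Gn_x (p : Fin N × Fin k) : MvPolynomial (GnPar D j₁ j₂) ℤ := by
  classical
  exact if h : ¬ (p.1 ∈ D ∧ p.2 = j₂) then X (Sum.inl ⟨p, h⟩) else 0

noncomputable def Gn_a (j : Fin k) : MvPolynomial (GnPar D j₁ j₂) ℤ := by
  classical
  exact if h : j ≠ j₁ ∧ j ≠ j₂ then X (Sum.inr (⟨j, h⟩, false)) else if j = j₁ then 1 else 0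

noncomputable def Gn_b (j : Fin k) : MvPolynomial (GnPar D j₁ j₂) ℤ := by
  classical
  exact if h : j ≠ j₁ ∧ j ≠ j₂ then X (Sum.inr (⟨j, h⟩, true)) else if j = j₂ then 1 else 0

/-- the parametrisation of the degenerate matrices -/
noncomputable def Gn_P (p : Fin N × Fin k) : MvPolynomial (GnPar D j₁ j₂) ℤ := by
  classical
  exact if p.1 ∈ D then
    if p.2 = j₁ then Gn_x D j₁ j₂ (p.1, j₁) * (∑ j, Gn_a D j₁ j₂ j * Gn_x D j₁ j₂ (r p.1, j)) -
      ∑ j ∈ (Finset.univ.erase j₁).erase j₂, Gn_a D j₁ j₂ j * Gn_x D j₁ j₂ (p.1, j)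
    else if p.2 = j₂ then
      Gn_x D j₁ j₂ (p.1, j₁) * (∑ j, Gn_b D j₁ j₂ j * Gn_x D j₁ j₂ (r p.1, j)) -
        ∑ j ∈ (Finset.univ.erase j₁).erase j₂, Gn_b D j₁ j₂ j * Gn_x D j₁ j₂ (p.1, j)
    else Gn_x D j₁ j₂ p
  else Gn_x D j₁ j₂ p

/-- the values of the parameters -/
noncomputable def Gn_c (v : Fin N → Fin k → ℝ) (s : Fin N → ℝ) (a b : Fin k → ℝ) :
    GnPar D j₁ j₂ → ℝ := by
  classical
  exact Sum.elim (fun p => if p.1.1 ∈ D ∧ p.1.2 = j₁ then s p.1.1 else v p.1.1 p.1.2)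
    (fun q => if q.2 then b q.1 else a q.1)

variable {D j₁ j₂ r}

theorem Gn_eval (hj : j₁ ≠ j₂) (hr : ∀ i ∈ D, r i ∉ D) (v : Fin N → Fin k → ℝ) (s : Fin N → ℝ)
    (a b : Fin k → ℝ) (ha₁ : a j₁ = 1) (ha₂ : a j₂ = 0) (hb₁ : b j₁ = 0) (hb₂ : b j₂ = 1)
    (ha : ∀ i ∈ D, ∑ j, a j * v i j = s i * ∑ j, a j * v (r i) j)
    (hb : ∀ i ∈ D, ∑ j, b j * v i j = s i * ∑ j, b j * v (r i) j) (p : Fin N × Fin k) :
    aeval (Gn_c D j₁ j₂ v s a b) (Gn_P D j₁ j₂ r p) = v p.1 p.2 := by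
  classical
  have hA : ∀ j, aeval (Gn_c D j₁ j₂ v s a b) (Gn_a D j₁ j₂ j) = a j := by
    intro j
    unfold Gn_a
    by_cases h : j ≠ j₁ ∧ j ≠ j₂
    · rw [dif_pos h, aeval_X]
      rfl
    · rw [dif_neg h]
      by_cases h1 : j = j₁
      · rw [if_pos h1, map_one, h1, ha₁]
      · have h2 : j = j₂ := by
          by_contra h2
          exact h ⟨h1, h2⟩
        rw [if_neg h1, map_zero, h2, ha₂]
  have hB : ∀ j, aeval (Gn_c D j₁ j₂ v s a b) (Gn_b D j₁ j₂ j) = b j := by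
    intro j
    unfold Gn_b
    by_cases h : j ≠ j₁ ∧ j ≠ j₂
    · rw [dif_pos h, aeval_X]
      rfl
    · rw [dif_neg h]
      by_cases h1 : j = j₂
      · rw [if_pos h1, map_one, h1, hb₂]
      · have h2 : j = j₁ := by
          by_contra h2
          exact h ⟨h2, h1⟩
        rw [if_neg h1, map_zero, h2, hb₁]
  have hX : ∀ i j, i ∉ D → aeval (Gn_c D j₁ j₂ v s a b) (Gn_x D j₁ j₂ (i, j)) = v i j := by
    intro i j hi
    unfold Gn_x
    have h : ¬ ((i, j).1 ∈ D ∧ (i, j).2 = j₂) := fun h => hi h.1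
    rw [dif_pos h, aeval_X]
    unfold Gn_c
    rw [Sum.elim_inl]
    exact if_neg fun h => hi h.1
  have hX2 : ∀ i j, j ≠ j₁ → j ≠ j₂ →
      aeval (Gn_c D j₁ j₂ v s a b) (Gn_x D j₁ j₂ (i, j)) = v i j := by
    intro i j h1 h2
    unfold Gn_x
    have h : ¬ ((i, j).1 ∈ D ∧ (i, j).2 = j₂) := fun h => h2 h.2
    rw [dif_pos h, aeval_X]
    unfold Gn_c
    rw [Sum.elim_inl]
    exact if_neg fun h => h1 h.2
  have hX1 : ∀ i ∈ D, aeval (Gn_c D j₁ j₂ v s a b) (Gn_x D j₁ j₂ (i, j₁)) = s i := by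
    intro i hi
    unfold Gn_x
    have h : ¬ ((i, j₁).1 ∈ D ∧ (i, j₁).2 = j₂) := fun h => hj h.2
    rw [dif_pos h, aeval_X]
    unfold Gn_c
    rw [Sum.elim_inl]
    exact if_pos ⟨hi, rfl⟩
  have hsum : ∀ (f : Fin k → ℝ), ∑ j, f j =
      f j₁ + (f j₂ + ∑ j ∈ (Finset.univ.erase j₁).erase j₂, f j) := by
    intro f
    rw [← Finset.add_sum_erase _ _ (Finset.mem_univ j₁),
      ← Finset.add_sum_erase _ _ (Finset.mem_erase.mpr ⟨hj.symm, Finset.mem_univ j₂⟩)]
  obtain ⟨i, j⟩ := p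
  unfold Gn_P
  by_cases hi : i ∈ D
  · rw [if_pos (show (i, j).1 ∈ D from hi)]
    by_cases h1 : j = j₁
    · rw [if_pos (show (i, j).2 = j₁ from h1), map_sub, map_mul, map_sum, map_sum]
      have e1 : ∑ j', aeval (Gn_c D j₁ j₂ v s a b)
          (Gn_a D j₁ j₂ j' * Gn_x D j₁ j₂ (r (i, j).1, j')) = ∑ j', a j' * v (r i) j' := by
        refine Finset.sum_congr rfl fun j' _ => ?_
        rw [map_mul, hA, hX _ _ (hr i hi)]
      have e2 : ∑ j' ∈ (Finset.univ.erase j₁).erase j₂, aeval (Gn_c D j₁ j₂ v s a b)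
          (Gn_a D j₁ j₂ j' * Gn_x D j₁ j₂ ((i, j).1, j')) =
          ∑ j' ∈ (Finset.univ.erase j₁).erase j₂, a j' * v i j' := by
        refine Finset.sum_congr rfl fun j' hj' => ?_
        rw [Finset.mem_erase, Finset.mem_erase] at hj'
        rw [map_mul, hA, hX2 _ _ hj'.2.1 hj'.1]
      rw [e1, e2, hX1 i hi, ← ha i hi, hsum, ha₁, ha₂, h1]
      ring
    · rw [if_neg (show ¬ (i, j).2 = j₁ from h1)]
      by_cases h2 : j = j₂
      · rw [if_pos (show (i, j).2 = j₂ from h2), map_sub, map_mul, map_sum, map_sum]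
        have e1 : ∑ j', aeval (Gn_c D j₁ j₂ v s a b)
            (Gn_b D j₁ j₂ j' * Gn_x D j₁ j₂ (r (i, j).1, j')) = ∑ j', b j' * v (r i) j' := by
          refine Finset.sum_congr rfl fun j' _ => ?_
          rw [map_mul, hB, hX _ _ (hr i hi)]
        have e2 : ∑ j' ∈ (Finset.univ.erase j₁).erase j₂, aeval (Gn_c D j₁ j₂ v s a b)
            (Gn_b D j₁ j₂ j' * Gn_x D j₁ j₂ ((i, j).1, j')) =
            ∑ j' ∈ (Finset.univ.erase j₁).erase j₂, b j' * v i j' := by
          refine Finset.sum_congr rfl fun j' hj' => ?_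
          rw [Finset.mem_erase, Finset.mem_erase] at hj'
          rw [map_mul, hB, hX2 _ _ hj'.2.1 hj'.1]
        rw [e1, e2, hX1 i hi, ← hb i hi, hsum, hb₁, hb₂, h2]
        ring
      · rw [if_neg (show ¬ (i, j).2 = j₂ from h2)]
        exact hX2 i j h1 h2
  · rw [if_neg (show ¬ (i, j).1 ∈ D from hi)]
    exact hX i j hi

/-- in a degenerate configuration many rows are multiples of others -/
theorem Gn_comb {v : Fin N → Fin k → ℕ} {a b : Fin k → ℝ}
    (hbad : ∀ i, (od v a i ≠ 0 ∨ od v b i ≠ 0) →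
      (∃ i', ∃ l : ℝ, 0 < l ∧ od v a i = - (l * od v a i') ∧ od v b i = - (l * od v b i')) ∨
      ∃ l : ℝ, 0 < l ∧ od v a i = l * ∑ i', od v a i' ∧ od v b i = l * ∑ i', od v b i') :
    ∃ (D : Finset (Fin N)) (r : Fin N → Fin N) (s : Fin N → ℝ), N ≤ 2 * D.card + 2 ∧
      ∀ i ∈ D, r i ∉ D ∧ od v a i = s i * od v a (r i) ∧ od v b i = s i * od v b (r i) := by
  classical
  obtain ⟨M, hM⟩ : ∃ M : Fin N → Fin N → Prop, M = fun i i' => ∃ t : ℝ,
      od v a i = t * od v a i' ∧ od v b i = t * od v b i' := ⟨_, rfl⟩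
  obtain ⟨D, hD⟩ : ∃ D : Finset (Fin N), D = Finset.univ.filter fun i => ∃ i', i' < i ∧ M i i' :=
    ⟨_, rfl⟩
  have hmem : ∀ i, i ∈ D ↔ ∃ i', i' < i ∧ M i i' := by
    intro i
    rw [hD, Finset.mem_filter]
    exact ⟨fun h => h.2, fun h => ⟨Finset.mem_univ _, h⟩⟩
  have htrans : ∀ i i' i'', M i i' → M i' i'' → M i i'' := by
    intro i i' i'' h1 h2
    rw [hM] at h1 h2 ⊢
    obtain ⟨t, h3, h4⟩ := h1
    obtain ⟨t', h5, h6⟩ := h2
    exact ⟨t * t', by rw [h3, h5]; ring, by rw [h4, h6]; ring⟩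
  have hrep : ∀ n : ℕ, ∀ i : Fin N, (i : ℕ) = n → i ∈ D → ∃ i', i' ∉ D ∧ M i i' := by
    intro n
    induction n using Nat.strong_induction_on with
    | _ n ih =>
      intro i hi hiD
      obtain ⟨i', h1, h2⟩ := (hmem i).mp hiD
      by_cases h3 : i' ∈ D
      · obtain ⟨i'', h4, h5⟩ := ih (i' : ℕ) (by rw [← hi]; exact h1) i' rfl h3
        exact ⟨i'', h4, htrans _ _ _ h2 h5⟩
      · exact ⟨i', h3, h2⟩
  -- the three kinds of rows outside
  obtain ⟨R₁, hR₁⟩ : ∃ R₁ : Finset (Fin N), R₁ = Finset.univ.filter fun i => i ∉ D ∧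
      (od v a i ≠ 0 ∨ od v b i ≠ 0) ∧
      ∃ i', ∃ l : ℝ, 0 < l ∧ od v a i = - (l * od v a i') ∧ od v b i = - (l * od v b i') :=
    ⟨_, rfl⟩
  obtain ⟨R₀, hR₀⟩ : ∃ R₀ : Finset (Fin N), R₀ = Finset.univ.filter fun i => i ∉ D ∧
      ¬ (od v a i ≠ 0 ∨ od v b i ≠ 0) := ⟨_, rfl⟩
  obtain ⟨R₂, hR₂⟩ : ∃ R₂ : Finset (Fin N), R₂ = Finset.univ.filter fun i => i ∉ D ∧
      (od v a i ≠ 0 ∨ od v b i ≠ 0) ∧
      ∃ l : ℝ, 0 < l ∧ od v a i = l * ∑ i', od v a i' ∧ od v b i = l * ∑ i', od v b i' := ⟨_, rfl⟩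
  have hcov : (Finset.univ : Finset (Fin N)) ⊆ D ∪ (R₁ ∪ (R₀ ∪ R₂)) := by
    intro i _
    by_cases hi : i ∈ D
    · exact Finset.mem_union_left _ hi
    · refine Finset.mem_union_right _ ?_
      by_cases h0 : od v a i ≠ 0 ∨ od v b i ≠ 0
      · rcases hbad i h0 with h1 | h1
        · refine Finset.mem_union_left _ ?_
          rw [hR₁, Finset.mem_filter]
          exact ⟨Finset.mem_univ _, hi, h0, h1⟩
        · refine Finset.mem_union_right _ (Finset.mem_union_right _ ?_)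
          rw [hR₂, Finset.mem_filter]
          exact ⟨Finset.mem_univ _, hi, h0, h1⟩
      · refine Finset.mem_union_right _ (Finset.mem_union_left _ ?_)
        rw [hR₀, Finset.mem_filter]
        exact ⟨Finset.mem_univ _, hi, h0⟩
  have hc0 : R₀.card ≤ 1 := by
    have key : ∀ i ∈ R₀, ∀ i' ∈ R₀, i' < i → False := by
      intro i hi i' _ hlt
      rw [hR₀, Finset.mem_filter] at hi
      obtain ⟨-, h1, h2⟩ := hi
      push Not at h2
      apply h1
      rw [hmem]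
      refine ⟨i', hlt, ?_⟩
      rw [hM]
      exact ⟨0, by rw [h2.1, zero_mul], by rw [h2.2, zero_mul]⟩
    rw [Finset.card_le_one]
    intro i hi i' hi'
    rcases lt_trichotomy i i' with h | h | h
    · exact (key i' hi' i hi h).elim
    · exact h
    · exact (key i hi i' hi' h).elim
  have hc2 : R₂.card ≤ 1 := by
    have key : ∀ i ∈ R₂, ∀ i' ∈ R₂, i' < i → False := by
      intro i hi i' hi' hlt
      rw [hR₂, Finset.mem_filter] at hi hi'
      obtain ⟨-, h1, h2, l, hl, h3, h4⟩ := hi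
      obtain ⟨-, -, -, l', hl', h5, h6⟩ := hi'
      apply h1
      rw [hmem]
      refine ⟨i', hlt, ?_⟩
      rw [hM]
      refine ⟨l / l', ?_, ?_⟩
      · rw [h3, h5]
        field_simp
      · rw [h4, h6]
        field_simp
    rw [Finset.card_le_one]
    intro i hi i' hi'
    rcases lt_trichotomy i i' with h | h | h
    · exact (key i' hi' i hi h).elim
    · exact h
    · exact (key i hi i' hi' h).elim
  have hc1 : R₁.card ≤ D.card := by
    have hex : ∀ i ∈ R₁, ∃ i', ∃ l : ℝ, 0 < l ∧ od v a i = - (l * od v a i') ∧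
        od v b i = - (l * od v b i') := by
      intro i hi
      rw [hR₁, Finset.mem_filter] at hi
      exact hi.2.2.2
    choose! g l hl hg using hex
    refine Finset.card_le_card_of_injOn g ?_ ?_
    · intro i hi
      have hi' := hi
      rw [Finset.mem_coe, hR₁, Finset.mem_filter] at hi'
      obtain ⟨-, h1, h2, -⟩ := hi'
      have h3 := hl i hi
      obtain ⟨h4, h5⟩ := hg i hi
      have hlt : i < g i := by
        rcases lt_trichotomy i (g i) with h | h | h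
        · exact h
        · exfalso
          rw [← h] at h4 h5
          have h6 : od v a i = 0 := by nlinarith
          have h7 : od v b i = 0 := by nlinarith
          rcases h2 with h2 | h2
          · exact h2 h6
          · exact h2 h7
        · exfalso
          apply h1
          rw [hmem]
          refine ⟨g i, h, ?_⟩
          rw [hM]
          exact ⟨- l i, by rw [h4]; ring, by rw [h5]; ring⟩
      rw [Finset.mem_coe, hmem]
      refine ⟨i, hlt, ?_⟩
      rw [hM]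
      refine ⟨- (l i)⁻¹, ?_, ?_⟩
      · rw [h4]
        field_simp
      · rw [h5]
        field_simp
    · have key : ∀ i ∈ R₁, ∀ i' ∈ R₁, g i = g i' → i' < i → False := by
        intro i hi i' hi' hgg hlt
        have hi2 := hi
        rw [hR₁, Finset.mem_filter] at hi2
        obtain ⟨-, h1, -, -⟩ := hi2
        have h3 := hl i hi
        have h3' := hl i' hi'
        obtain ⟨h4, h5⟩ := hg i hi
        obtain ⟨h6, h7⟩ := hg i' hi'
        apply h1
        rw [hmem]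
        refine ⟨i', hlt, ?_⟩
        rw [hM]
        refine ⟨l i / l i', ?_, ?_⟩
        · rw [h4, h6, hgg]
          field_simp
        · rw [h5, h7, hgg]
          field_simp
      intro i hi i' hi' hgg
      rcases lt_trichotomy i i' with h | h | h
      · exact (key i' hi' i hi hgg.symm h).elim
      · exact h
      · exact (key i hi i' hi' hgg h).elim
  have hN : N ≤ 2 * D.card + 2 := by
    have h1 := Finset.card_le_card hcov
    rw [Finset.card_univ, Fintype.card_fin] at h1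
    have h2 := Finset.card_union_le D (R₁ ∪ (R₀ ∪ R₂))
    have h3 := Finset.card_union_le R₁ (R₀ ∪ R₂)
    have h4 := Finset.card_union_le R₀ R₂
    omega
  have hch : ∀ i ∈ D, ∃ i', ∃ t : ℝ, i' ∉ D ∧ od v a i = t * od v a i' ∧
      od v b i = t * od v b i' := by
    intro i hi
    obtain ⟨i', h1, h2⟩ := hrep (i : ℕ) i rfl hi
    rw [hM] at h2
    obtain ⟨t, h3, h4⟩ := h2
    exact ⟨i', t, h1, h3, h4⟩
  choose! r s hrs using hch
  exact ⟨D, r, s, hN, hrs⟩

/-- a minor that does not vanish -/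
theorem Gn_minor {a b : Fin k → ℝ} (hab : LinearIndependent ℝ ![a, b]) :
    ∃ j₁ j₂ : Fin k, j₁ ≠ j₂ ∧ a j₁ * b j₂ - a j₂ * b j₁ ≠ 0 := by
  by_contra hc
  push Not at hc
  rw [LinearIndependent.pair_iff] at hab
  have ha : a ≠ 0 := by
    intro h0
    have := (hab 1 0 (by rw [h0]; simp)).1
    exact one_ne_zero this
  obtain ⟨j₁, hj⟩ := Function.ne_iff.mp ha
  have h1 := hab (b j₁) (- a j₁) (by
    funext j
    by_cases hjj : j₁ = j
    · rw [← hjj]
      simp only [Pi.add_apply, Pi.smul_apply, smul_eq_mul, Pi.zero_apply]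
      ring
    · have := hc j₁ j hjj
      simp only [Pi.add_apply, Pi.smul_apply, smul_eq_mul, Pi.zero_apply]
      linarith)
  exact hj (neg_eq_zero.mp h1.2)

end

/-- the generic statement for the combinatorial condition -/
theorem noOpp_generic {k N : ℕ} (hN : 4 * k ≤ N) :
    ∃ Q : MvPolynomial (Fin N × Fin k) ℤ, Q ≠ 0 ∧ ∀ v : Fin N → Fin k → ℕ,
      MvPolynomial.eval (fun p => (v p.1 p.2 : ℤ)) Q ≠ 0 → NoOpp v := by
  classical
  have hQ : ∀ τ : Finset (Fin N) × (Fin N → Fin N) × Fin k × Fin k,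
      ∃ Q : MvPolynomial (Fin N × Fin k) ℤ, Q ≠ 0 ∧
        (τ.2.2.1 ≠ τ.2.2.2 → 2 * (k - 2) < τ.1.card →
          aeval (Gn_P τ.1 τ.2.2.1 τ.2.2.2 τ.2.1) Q = 0) := by
    intro τ
    by_cases h : τ.2.2.1 ≠ τ.2.2.2 ∧ 2 * (k - 2) < τ.1.card
    · obtain ⟨Q, h1, h2⟩ := Gn_dep (Gn_card τ.1 h.1 h.2) (Gn_P τ.1 τ.2.2.1 τ.2.2.2 τ.2.1)
      exact ⟨Q, h1, fun _ _ => h2⟩
    · exact ⟨1, one_ne_zero, fun h1 h2 => (h ⟨h1, h2⟩).elim⟩
  choose Q hQ0 hQv using hQ
  refine ⟨∏ τ, Q τ, Finset.prod_ne_zero_iff.mpr fun τ _ => hQ0 τ, fun v hv => ?_⟩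
  rw [map_prod] at hv
  by_contra hbad
  unfold NoOpp at hbad
  push Not at hbad
  obtain ⟨a, b, hab, hbad⟩ := hbad
  obtain ⟨D, r, s, hND, hD⟩ := Gn_comb (v := v) (a := a) (b := b) (by
    intro i hi
    by_cases h : ∃ i', ∃ l : ℝ, 0 < l ∧ od v a i = - (l * od v a i') ∧ od v b i = - (l * od v b i')
    · exact Or.inl h
    · push Not at h
      exact Or.inr (hbad i hi h))
  obtain ⟨j₁, j₂, hj, hdet⟩ := Gn_minor hab
  have hk : 1 ≤ k := by
    have := j₁.2
    omega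
  obtain ⟨Δ, hΔ⟩ : ∃ Δ, Δ = a j₁ * b j₂ - a j₂ * b j₁ := ⟨_, rfl⟩
  rw [← hΔ] at hdet
  obtain ⟨a', ha'⟩ : ∃ a' : Fin k → ℝ, a' = fun j => (b j₂ * a j - a j₂ * b j) / Δ := ⟨_, rfl⟩
  obtain ⟨b', hb'⟩ : ∃ b' : Fin k → ℝ, b' = fun j => (a j₁ * b j - b j₁ * a j) / Δ := ⟨_, rfl⟩
  have hsa : ∀ i, ∑ j, a' j * (v i j : ℝ) = (b j₂ * od v a i - a j₂ * od v b i) / Δ := by
    intro i
    unfold od
    rw [ha', Finset.mul_sum, Finset.mul_sum, ← Finset.sum_sub_distrib, Finset.sum_div]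
    refine Finset.sum_congr rfl fun j _ => ?_
    ring
  have hsb : ∀ i, ∑ j, b' j * (v i j : ℝ) = (a j₁ * od v b i - b j₁ * od v a i) / Δ := by
    intro i
    unfold od
    rw [hb', Finset.mul_sum, Finset.mul_sum, ← Finset.sum_sub_distrib, Finset.sum_div]
    refine Finset.sum_congr rfl fun j _ => ?_
    ring
  have hev := Gn_eval (D := D) (r := r) hj (fun i hi => (hD i hi).1) (fun i j => (v i j : ℝ)) s a' b'
    (by
      rw [ha']
      show (b j₂ * a j₁ - a j₂ * b j₁) / Δ = 1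
      rw [div_eq_one_iff_eq hdet, hΔ]
      ring)
    (by
      rw [ha']
      show (b j₂ * a j₂ - a j₂ * b j₂) / Δ = 0
      rw [mul_comm, sub_self, zero_div])
    (by
      rw [hb']
      show (a j₁ * b j₁ - b j₁ * a j₁) / Δ = 0
      rw [mul_comm, sub_self, zero_div])
    (by
      rw [hb']
      show (a j₁ * b j₂ - b j₁ * a j₂) / Δ = 1
      rw [div_eq_one_iff_eq hdet, hΔ]
      ring)
    (fun i hi => by
      obtain ⟨-, h1, h2⟩ := hD i hi
      rw [hsa, hsa, h1, h2]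
      ring)
    (fun i hi => by
      obtain ⟨-, h1, h2⟩ := hD i hi
      rw [hsb, hsb, h1, h2]
      ring)
  have hzero := hQv (D, r, j₁, j₂) hj (by
    show 2 * (k - 2) < D.card
    omega)
  refine Finset.prod_ne_zero_iff.mp hv (D, r, j₁, j₂) (Finset.mem_univ _) ?_
  have h1 : aeval (Gn_c D j₁ j₂ (fun i j => (v i j : ℝ)) s a' b')
      (aeval (Gn_P D j₁ j₂ r) (Q (D, r, j₁, j₂))) = 0 := by
    have h2 : aeval (Gn_P D j₁ j₂ r) (Q (D, r, j₁, j₂)) = 0 := hzero
    rw [h2, map_zero]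
  rw [← AlgHom.comp_apply, MvPolynomial.comp_aeval] at h1
  have h3 : (fun p => aeval (Gn_c D j₁ j₂ (fun i j => (v i j : ℝ)) s a' b') (Gn_P D j₁ j₂ r p)) =
      (algebraMap ℤ ℝ) ∘ (fun p : Fin N × Fin k => ((v p.1 p.2 : ℕ) : ℤ)) := by
    funext p
    rw [hev p]
    simp
  rw [h3, MvPolynomial.aeval_algebraMap_apply] at h1
  have h4 : ((aeval (fun p : Fin N × Fin k => ((v p.1 p.2 : ℕ) : ℤ)) (Q (D, r, j₁, j₂)) : ℤ) : ℝ) =
      0 := h1
  rw [Int.cast_eq_zero] at h4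
  rw [← MvPolynomial.aeval_eq_eval]
  exact h4

end NE
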