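import Pool.Agent.Lib.MP_a325a5_ag.NE.Def

/-! Reflection: `G z = h z + conj (h (conj z))` is analytic at `0` (for example: `z ↦ conj (h (conj z))` is analytic,
`AnalyticAt` of a composition with the conjugation on both sides; or differentiability in a neighbourhood), and
`G r = 2 Re (h r)` for real `r`.  It has zeros accumulating at `0`, so it vanishes near `0`
(`AnalyticAt.frequently_zero_iff_eventually_zero` or `AnalyticAt.eventually_eq_zero_or_eventually_ne_zero`). -/

open Filter Topology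

namespace NE

theorem analyticAt_reflect {h : ℂ → ℂ} (hh : AnalyticAt ℂ h 0) :
    AnalyticAt ℂ (fun z => (starRingEnd ℂ) (h ((starRingEnd ℂ) z))) 0 := by
  rw [Complex.analyticAt_iff_eventually_differentiableAt]
  have h1 := Complex.analyticAt_iff_eventually_differentiableAt.1 hh
  have h2 : Tendsto (starRingEnd ℂ) (𝓝 (0 : ℂ)) (𝓝 0) := by
    have h3 := Complex.continuous_conj.tendsto (0 : ℂ)
    rwa [map_zero] at h3
  filter_upwards [h2.eventually h1] with z hz
  have h3 := hz.conj_conj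
  rw [Complex.conj_conj] at h3
  exact h3

theorem reflect {h : ℂ → ℂ} (hh : AnalyticAt ℂ h 0)
    (hfr : ∃ᶠ r : ℝ in 𝓝[≠] (0 : ℝ), (h (r : ℂ)).re = 0) :
    ∀ᶠ z in 𝓝 (0 : ℂ), h z + (starRingEnd ℂ) (h ((starRingEnd ℂ) z)) = 0 := by
  have hG := hh.add (analyticAt_reflect hh)
  have h1 : Tendsto (fun r : ℝ => (r : ℂ)) (𝓝[≠] (0 : ℝ)) (𝓝[≠] (0 : ℂ)) := by
    refine tendsto_nhdsWithin_iff.2 ⟨?_, ?_⟩
    · have h2 := (Complex.continuous_ofReal.tendsto (0 : ℝ)).mono_left
        (nhdsWithin_le_nhds (s := {0}ᶜ))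
      rwa [Complex.ofReal_zero] at h2
    · filter_upwards [self_mem_nhdsWithin] with r hr
      exact Complex.ofReal_ne_zero.2 hr
  refine hG.frequently_zero_iff_eventually_zero.1 (h1.frequently (hfr.mono fun r hr => ?_))
  show h (r : ℂ) + (starRingEnd ℂ) (h ((starRingEnd ℂ) (r : ℂ))) = 0
  rw [Complex.conj_ofReal, Complex.add_conj, hr]
  simp

end NE
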