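import Pool.Agent.Lib.MP_a325a5_ag.NE.Loc1
import Pool.Agent.Lib.MP_a325a5_ag.NE.Loc2

/-! The common zeros of two harmonic functions which accumulate at `z₀` lead to an analytic arc.
Proof: `root_coord` for `f`.  By continuity `Re (f z₀) = 0` (`z₀` is a limit of zeros of `Re f`).  If `z ≠ z₀` is close to `z₀` and
`Re (f z) = 0` then `Re (ψ z ^ m) = 0`, so `ψ z ^ (2 m) = - ‖ψ z‖ ^ (2 m)`, `ψ z ≠ 0`, that is `ψ z = ζ ‖ψ z‖` with `ζ ^ (2 m) = -1`.  The set of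
these `ζ` is finite, so one fixed `ζ` occurs frequently.  Put `t x = χ (ζ x)`.  For real `r`: `f (t r) = f z₀ + ζ ^ m r ^ m`,
`(ζ ^ m) ^ 2 = -1`, so `Re (f (t r)) = 0` for all small real `r`; and `Re (g (t r)) = 0` for `r = ‖ψ z‖`, frequently as `r → 0`.  `reflect` for
`f ∘ t` and `g ∘ t`. -/

open Filter Topology

namespace NE

theorem loc {f g : ℂ → ℂ} {z₀ : ℂ} (hf : AnalyticAt ℂ f z₀) (hg : AnalyticAt ℂ g z₀)
    (hf0 : ¬ ∀ᶠ z in 𝓝 z₀, f z = f z₀)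
    (hfr : ∃ᶠ z in 𝓝[≠] z₀, (f z).re = 0 ∧ (g z).re = 0) :
    ∃ t : ℂ → ℂ, AnalyticAt ℂ t 0 ∧ t 0 = z₀ ∧ deriv t 0 ≠ 0 ∧
      (∀ᶠ z in 𝓝 (0 : ℂ), f (t z) + (starRingEnd ℂ) (f (t ((starRingEnd ℂ) z))) = 0) ∧
      (∀ᶠ z in 𝓝 (0 : ℂ), g (t z) + (starRingEnd ℂ) (g (t ((starRingEnd ℂ) z))) = 0) := by
  obtain ⟨m, hm, ψ, χ, hψ, hψ0, hχ, hχ0, hχ', hχψ, hψχ, hfm⟩ := root_coord hf hf0
  -- real part of the constant term
  have hre : (f z₀).re = 0 := by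
    by_contra hne
    have h1 : ContinuousAt (fun z => (f z).re) z₀ :=
      Complex.continuous_re.continuousAt.comp hf.continuousAt
    have h2 : ∀ᶠ z in 𝓝 z₀, (f z).re ≠ 0 := h1.eventually_ne hne
    have h3 : ∀ᶠ z in 𝓝[≠] z₀, (f z).re ≠ 0 := h2.filter_mono nhdsWithin_le_nhds
    exact hfr (h3.mono fun z hz hz' => hz hz'.1)
  -- squares
  have hsq : ∀ w : ℂ, w.re = 0 → ‖w‖ = 1 → w ^ 2 = -1 := by
    intro w h1 h2
    have h3 : w.im ^ 2 = 1 := by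
      have h4 := Complex.sq_norm w
      rw [h2, Complex.normSq_apply, h1] at h4
      nlinarith
    apply Complex.ext
    · rw [sq, Complex.mul_re, h1]
      simp only [Complex.neg_re, Complex.one_re]
      nlinarith
    · rw [sq, Complex.mul_im, h1]
      simp
  have hsq' : ∀ w : ℂ, w ^ 2 = -1 → w.re = 0 := by
    intro w h1
    have h2 : w = Complex.I ∨ w = -Complex.I := by
      have h3 : (w - Complex.I) * (w + Complex.I) = 0 := by
        have h4 := Complex.I_sq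
        linear_combination h1 - h4
      rcases mul_eq_zero.1 h3 with h4 | h4
      · exact Or.inl (sub_eq_zero.1 h4)
      · exact Or.inr (eq_neg_of_add_eq_zero_left h4)
    rcases h2 with h2 | h2 <;> simp [h2]
  -- directions
  have hdir : ∀ᶠ z in 𝓝[≠] z₀, (f z).re = 0 → ψ z ≠ 0 ∧ χ (ψ z) = z ∧
      ∃ ζ ∈ (Polynomial.nthRoots (2 * m) (-1 : ℂ)).toFinset, ψ z = ζ * (‖ψ z‖ : ℂ) := by
    filter_upwards [hχψ.filter_mono nhdsWithin_le_nhds, hfm.filter_mono nhdsWithin_le_nhds,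
      self_mem_nhdsWithin] with z h1 h2 h3 h4
    have h5 : ψ z ≠ 0 := by
      intro h6
      rw [h6, hχ0] at h1
      exact h3 h1.symm
    refine ⟨h5, h1, ψ z / (‖ψ z‖ : ℂ), ?_, ?_⟩
    · have h6 : (‖ψ z‖ : ℂ) ≠ 0 := by
        rw [Complex.ofReal_ne_zero]
        exact norm_ne_zero_iff.2 h5
      rw [Multiset.mem_toFinset, Polynomial.mem_nthRoots (by omega), mul_comm 2 m, pow_mul]
      apply hsq
      · have h7 : (ψ z ^ m).re = 0 := by
          rw [h2, Complex.add_re, hre, zero_add] at h4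
          exact h4
        rw [div_pow, ← Complex.ofReal_pow, Complex.div_ofReal_re, h7, zero_div]
      · rw [norm_pow, norm_div, Complex.norm_real, norm_norm, div_self (norm_ne_zero_iff.2 h5),
          one_pow]
    · have h6 : (‖ψ z‖ : ℂ) ≠ 0 := by
        rw [Complex.ofReal_ne_zero]
        exact norm_ne_zero_iff.2 h5
      field_simp
  obtain ⟨ζ, hζS, hζ⟩ : ∃ ζ ∈ (Polynomial.nthRoots (2 * m) (-1 : ℂ)).toFinset,
      ∃ᶠ z in 𝓝[≠] z₀, ((f z).re = 0 ∧ (g z).re = 0) ∧ ψ z ≠ 0 ∧ χ (ψ z) = z ∧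
        ψ z = ζ * (‖ψ z‖ : ℂ) := by
    by_contra hno
    push Not at hno
    have h1 : ∀ᶠ z in 𝓝[≠] z₀, ∀ ζ ∈ (Polynomial.nthRoots (2 * m) (-1 : ℂ)).toFinset,
        ¬ (((f z).re = 0 ∧ (g z).re = 0) ∧ ψ z ≠ 0 ∧ χ (ψ z) = z ∧ ψ z = ζ * (‖ψ z‖ : ℂ)) := by
      rw [Filter.eventually_all_finset]
      intro ζ hζ
      have h2 := hno ζ hζ
      filter_upwards [h2] with z hz hz'
      exact hz hz'.1 hz'.2.1 hz'.2.2.1 hz'.2.2.2
    refine hfr ?_
    filter_upwards [h1, hdir] with z h2 h3 h4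
    obtain ⟨h5, h6, ζ, h7, h8⟩ := h3 h4.1
    exact h2 ζ h7 ⟨h4, h5, h6, h8⟩
  rw [Multiset.mem_toFinset, Polynomial.mem_nthRoots (by omega), mul_comm 2 m, pow_mul] at hζS
  have hζm : (ζ ^ m).re = 0 := hsq' _ hζS
  have hζ0 : ζ ≠ 0 := by
    rintro rfl
    rw [zero_pow (by omega), zero_pow two_ne_zero] at hζS
    norm_num at hζS
  have hlin : AnalyticAt ℂ (fun z : ℂ => ζ * z) 0 := analyticAt_const.mul analyticAt_id
  have hχ2 : AnalyticAt ℂ χ (ζ * 0) := by rwa [mul_zero]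
  obtain ⟨t, htd⟩ : ∃ t : ℂ → ℂ, t = fun z => χ (ζ * z) := ⟨_, rfl⟩
  have ht : AnalyticAt ℂ t 0 := by
    rw [htd]
    exact hχ2.comp hlin
  have ht0 : t 0 = z₀ := by
    rw [htd]
    show χ (ζ * 0) = z₀
    rw [mul_zero, hχ0]
  have hft : AnalyticAt ℂ (fun z => f (t z)) 0 := by
    have h1 : AnalyticAt ℂ f (t 0) := by rwa [ht0]
    exact h1.comp ht
  have hgt : AnalyticAt ℂ (fun z => g (t z)) 0 := by
    have h1 : AnalyticAt ℂ g (t 0) := by rwa [ht0]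
    exact h1.comp ht
  refine ⟨t, ht, ht0, ?_, reflect hft ?_, reflect hgt ?_⟩
  · have h1 : HasDerivAt χ (deriv χ 0) (ζ * 0) := by
      rw [mul_zero]
      exact hχ.differentiableAt.hasDerivAt
    have h2 : HasDerivAt (fun z : ℂ => ζ * z) ζ 0 := by
      have h3 := (hasDerivAt_id (0 : ℂ)).const_mul ζ
      rw [mul_one] at h3
      exact h3
    have h3 : HasDerivAt (fun z : ℂ => χ (ζ * z)) (deriv χ 0 * ζ) 0 := h1.comp 0 h2
    rw [htd, h3.deriv]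
    exact mul_ne_zero hχ' hζ0
  · -- all small real numbers
    have h1 : Tendsto (fun z : ℂ => χ (ζ * z)) (𝓝 0) (𝓝 z₀) := by
      have h2 := ht.continuousAt.tendsto
      rwa [ht0, htd] at h2
    have h2 : Tendsto (fun z : ℂ => ζ * z) (𝓝 0) (𝓝 0) := by
      have h3 := hlin.continuousAt.tendsto
      rwa [mul_zero] at h3
    have h3 : ∀ᶠ z in 𝓝 (0 : ℂ), f (χ (ζ * z)) = f z₀ + (ζ * z) ^ m := by
      filter_upwards [h1.eventually hfm, h2.eventually hψχ] with z h4 h5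
      rw [h4, h5]
    have h4 : Tendsto (fun r : ℝ => (r : ℂ)) (𝓝[≠] (0 : ℝ)) (𝓝 (0 : ℂ)) := by
      have h5 := (Complex.continuous_ofReal.tendsto (0 : ℝ)).mono_left
        (nhdsWithin_le_nhds (s := {0}ᶜ))
      rwa [Complex.ofReal_zero] at h5
    refine Filter.Eventually.frequently ?_
    filter_upwards [h4.eventually h3] with r hr
    rw [htd]
    show (f (χ (ζ * (r : ℂ)))).re = 0
    rw [hr, Complex.add_re, hre, zero_add, mul_pow, ← Complex.ofReal_pow, Complex.re_mul_ofReal,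
      hζm, zero_mul]
  · have h1 : Tendsto (fun z => ‖ψ z‖) (𝓝[≠] z₀) (𝓝 0) := by
      have h2 : ContinuousAt (fun z => ‖ψ z‖) z₀ := hψ.continuousAt.norm
      have h3 := h2.tendsto
      rw [hψ0, norm_zero] at h3
      exact h3.mono_left nhdsWithin_le_nhds
    have h2 : ∃ᶠ z in 𝓝[≠] z₀, (fun r : ℝ => r ≠ 0 ∧ (g (χ (ζ * (r : ℂ)))).re = 0) ‖ψ z‖ := by
      refine hζ.mono fun z hz => ?_
      obtain ⟨⟨_, h3⟩, h4, h5, h6⟩ := hz
      refine ⟨norm_ne_zero_iff.2 h4, ?_⟩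
      rw [← h6, h5, h3]
    have h3 := h1.frequently (p := fun r : ℝ => r ≠ 0 ∧ (g (χ (ζ * (r : ℂ)))).re = 0) h2
    rw [frequently_nhdsWithin_iff, htd]
    exact h3.mono fun r hr => ⟨hr.2, hr.1⟩

end NE
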