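import Pool.Agent.Lib.MP_a325a5_ag.NE.Def

/-! Local normal form of a nonconstant analytic function: `f = f(z₀) + ψ ^ m` with a local coordinate `ψ`.
Proof: `AnalyticAt.exists_eventuallyEq_pow_smul_nonzero_iff` (or the analytic order of `f - f z₀` at `z₀`, finite
by `hf0` and positive) gives `f z - f z₀ = (z - z₀) ^ m * h z`, `h z₀ ≠ 0`, `m ≥ 1`.  Choose `c ^ m = h z₀` (`IsAlgClosed`) and
`ψ z = (z - z₀) * (c * Complex.exp (Complex.log (h z / h z₀) / m))`; then `ψ' z₀ = c ≠ 0`.  Inverse function theorem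
(`HasStrictDerivAt.localInverse`, its analyticity: `ContDiffAt.toOpenPartialHomeomorph` and `contDiffAt_symm`, or
differentiability in a neighbourhood and `DifferentiableOn.analyticAt`). -/

open Filter Topology

namespace NE

theorem root_coord {f : ℂ → ℂ} {z₀ : ℂ} (hf : AnalyticAt ℂ f z₀)
    (hf0 : ¬ ∀ᶠ z in 𝓝 z₀, f z = f z₀) :
    ∃ m : ℕ, 1 ≤ m ∧ ∃ ψ χ : ℂ → ℂ, AnalyticAt ℂ ψ z₀ ∧ ψ z₀ = 0 ∧ AnalyticAt ℂ χ 0 ∧ χ 0 = z₀ ∧
      deriv χ 0 ≠ 0 ∧ (∀ᶠ z in 𝓝 z₀, χ (ψ z) = z) ∧ (∀ᶠ x in 𝓝 (0 : ℂ), ψ (χ x) = x) ∧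
      ∀ᶠ z in 𝓝 z₀, f z = f z₀ + ψ z ^ m := by
  have hg : AnalyticAt ℂ (fun z => f z - f z₀) z₀ := hf.sub analyticAt_const
  obtain ⟨m, h, hh, hh0, heq⟩ := hg.exists_eventuallyEq_pow_smul_nonzero_iff.2 (by
    intro h1
    exact hf0 (h1.mono fun z hz => sub_eq_zero.1 hz))
  have hm : 1 ≤ m := by
    rcases Nat.eq_zero_or_pos m with h0 | h0
    · exfalso
      have h1 := heq.self_of_nhds
      rw [h0, sub_self, pow_zero, one_smul] at h1
      exact hh0 h1.symm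
    · exact h0
  have hm0 : (m : ℂ) ≠ 0 := Nat.cast_ne_zero.2 (by omega)
  obtain ⟨c, hc⟩ := IsAlgClosed.exists_pow_nat_eq (h z₀) hm
  have hc0 : c ≠ 0 := by
    intro h0
    rw [h0, zero_pow (by omega)] at hc
    exact hh0 hc.symm
  obtain ⟨G, hG⟩ : ∃ G : ℂ → ℂ, G = fun z => c * Complex.exp (Complex.log (h z / h z₀) / m) :=
    ⟨_, rfl⟩
  have hGa : AnalyticAt ℂ G z₀ := by
    rw [hG]
    have h1 : AnalyticAt ℂ (fun z => h z / h z₀) z₀ := hh.div analyticAt_const hh0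
    have h2 : AnalyticAt ℂ (fun z => Complex.log (h z / h z₀)) z₀ := by
      refine h1.clog ?_
      rw [div_self hh0]
      exact Complex.one_mem_slitPlane
    have h3 : AnalyticAt ℂ (fun z => Complex.log (h z / h z₀) / m) z₀ :=
      h2.div analyticAt_const hm0
    exact analyticAt_const.mul h3.cexp'
  have hG0 : G z₀ = c := by
    rw [hG]
    simp only
    rw [div_self hh0, Complex.log_one, zero_div, Complex.exp_zero, mul_one]
  obtain ⟨ψ, hψ⟩ : ∃ ψ : ℂ → ℂ, ψ = fun z => (z - z₀) * G z := ⟨_, rfl⟩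
  have hψa : AnalyticAt ℂ ψ z₀ := by
    rw [hψ]
    exact (analyticAt_id.sub analyticAt_const).mul hGa
  have hψ0 : ψ z₀ = 0 := by
    rw [hψ]
    simp only
    rw [sub_self, zero_mul]
  have hψd : deriv ψ z₀ = c := by
    have h1 : HasDerivAt (fun z : ℂ => z - z₀) 1 z₀ := (hasDerivAt_id z₀).sub_const z₀
    have h2 : HasDerivAt G (deriv G z₀) z₀ := hGa.differentiableAt.hasDerivAt
    have h3 := (h1.mul h2).deriv
    rw [hψ]
    have h4 : ((fun z : ℂ => z - z₀) * G) = fun z => (z - z₀) * G z := rfl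
    rw [h4] at h3
    rw [h3, one_mul, sub_self, zero_mul, add_zero, hG0]
  have hψd0 : deriv ψ z₀ ≠ 0 := by
    rw [hψd]
    exact hc0
  have hst : HasStrictDerivAt ψ (deriv ψ z₀) z₀ := hψa.hasStrictDerivAt
  refine ⟨m, hm, ψ, hst.localInverse ψ _ z₀ hψd0, hψa, hψ0, ?_, ?_, ?_, ?_, ?_, ?_⟩
  · have h1 := hψa.analyticAt_localInverse hψd0
    rw [hψ0] at h1
    exact h1
  · have h1 := (hst.eventually_left_inverse hψd0).self_of_nhds
    rw [hψ0] at h1
    exact h1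
  · have h1 := (hst.to_localInverse hψd0).hasDerivAt.deriv
    rw [hψ0] at h1
    rw [h1]
    exact inv_ne_zero hψd0
  · exact hst.eventually_left_inverse hψd0
  · have h1 := hst.eventually_right_inverse hψd0
    rw [hψ0] at h1
    exact h1
  · have h1 : ∀ᶠ z in 𝓝 z₀, h z ≠ 0 := hh.continuousAt.eventually_ne hh0
    filter_upwards [heq, h1] with z hz hz0
    have h2 : f z = f z₀ + (z - z₀) ^ m * h z := by
      rw [smul_eq_mul] at hz
      rw [← hz]
      ring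
    rw [h2, hψ, hG]
    simp only
    rw [mul_pow, mul_pow, hc, ← Complex.exp_nat_mul, mul_div_cancel₀ _ hm0,
      Complex.exp_log (div_ne_zero hz0 hh0), mul_div_cancel₀ _ hh0]

end NE
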