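import Pool.Agent.Lib.MP_a325a5_ag.NE.Part
import Pool.Agent.Lib.MP_a325a5_ag.NE.Co
import Pool.Agent.Lib.MP_a325a5_ag.NE.Circ

/-! The finiteness property for `Cv ℂ m`.
Proof: for `x ∈ Cv ℂ m`, `t = x 0`: `∑ c_j log |x_j| = u β (A c) t` with `β = node ℂ`, `A c none = c 0`, `A c (some i) = ev (tail c) i`, and `t ≠ β i`; `x` is
determined by `t`.  Suppose the set is infinite; so is the set of the `t`.
If the tails of `a`, `b` are independent: `comb` with `v₀ = (a 0, b 0)`, `v₁ = (∑ A, ∑ B)` gives a node `some j` which contradicts `partner`.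
If they are dependent there are `x, z` not both zero with `x • a + z • b = (c, 0, .., 0)`, `c ≠ 0` by independence: `log ‖t‖ = 0`; and a combination `d` of `a`, `b`
with tail not zero; `u β (A d) t = ∑ ev (tail d) i log ‖t - (i+2)‖` as `log ‖t‖ = 0`; `circle` (the numbers `ev (tail d) i` are not all zero, the `y m i` are `m ^ 3 ≥ m` distinct numbers). -/

open Polynomial

namespace NE

/-- the coefficients of the function `∑ c_j log |x_j|` at the nodes -/
private noncomputable def nA {m : ℕ} (c : Fin (m + 1) → ℝ) : Option (Fin (m ^ 3)) → ℝ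
  | none => c 0
  | some i => ev (fun j : Fin m => c j.succ) i

private theorem factor_ne {m : ℕ} {x : Fin (m + 1) → ℂˣ} (hx : x ∈ Cv ℂ m) (hm : 2 ≤ m)
    (i : Fin (m ^ 3)) : (x 0 : ℂ) - ((i : ℕ) + 2) ≠ 0 := by
  have h0 : (x (Fin.succ ⟨0, by omega⟩) : ℂ) ≠ 0 := Units.ne_zero _
  rw [hx ⟨0, by omega⟩, Finset.prod_ne_zero_iff] at h0
  have h1 := h0 i (Finset.mem_univ _)
  intro h2
  rw [h2] at h1
  simp at h1

private theorem u_eq {m : ℕ} (hm : 2 ≤ m) (c : Fin (m + 1) → ℝ) {x : Fin (m + 1) → ℂˣ}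
    (hx : x ∈ Cv ℂ m) : ∑ j, c j * Real.log ‖(x j : ℂ)‖ = u (node ℂ) (nA c) (x 0 : ℂ) := by
  have h1 : ∀ j : Fin m, Real.log ‖(x j.succ : ℂ)‖ =
      ∑ i : Fin (m ^ 3), (y m i : ℝ) ^ (j : ℕ) * Real.log ‖(x 0 : ℂ) - ((i : ℕ) + 2)‖ := by
    intro j
    rw [hx j, norm_prod, Real.log_prod]
    · refine Finset.sum_congr rfl fun i _ => ?_
      rw [norm_pow, Real.log_pow, Nat.cast_pow]
    · intro i _
      rw [norm_ne_zero_iff]
      exact pow_ne_zero _ (factor_ne hx hm i)
  rw [Fin.sum_univ_succ, u, Fintype.sum_option]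
  have h2 : c 0 * Real.log ‖(x 0 : ℂ)‖ = nA c none * Real.log ‖(x 0 : ℂ) - node ℂ (N := m ^ 3) none‖ := by
    simp [nA, node]
  rw [h2]
  congr 1
  simp only [h1, nA, node, ev, Finset.mul_sum, Finset.sum_mul]
  rw [Finset.sum_comm]
  refine Finset.sum_congr rfl fun i _ => Finset.sum_congr rfl fun j _ => ?_
  ring

private theorem node_inj {N : ℕ} : Function.Injective (node ℂ (N := N)) := by
  intro o o' h
  rcases o with _ | i <;> rcases o' with _ | i'
  · rfl
  · exfalso
    have h1 : (0 : ℂ) = ((i' : ℕ) : ℂ) + 2 := h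
    have h2 : ((0 : ℕ) : ℂ) = (((i' : ℕ) + 2 : ℕ) : ℂ) := by push_cast; exact h1
    have h3 := Nat.cast_injective h2
    omega
  · exfalso
    have h1 : ((i : ℕ) : ℂ) + 2 = (0 : ℂ) := h
    have h2 : (((i : ℕ) + 2 : ℕ) : ℂ) = ((0 : ℕ) : ℂ) := by push_cast; exact h1
    have h3 := Nat.cast_injective h2
    omega
  · have h1 : ((i : ℕ) : ℂ) + 2 = ((i' : ℕ) : ℂ) + 2 := h
    have h2 : (((i : ℕ) : ℕ) : ℂ) = (((i' : ℕ) : ℕ) : ℂ) := add_right_cancel h1
    have h3 := Nat.cast_injective h2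
    rw [Fin.ext h3]

private theorem y_inj {m : ℕ} (hm : 2 ≤ m) : Function.Injective (y m) := fun i j h =>
  Nat.pow_right_injective hm (Nat.pow_right_injective le_rfl h)

private theorem ev_zero {m : ℕ} (hm : 2 ≤ m) (c : Fin m → ℝ)
    (h : ∀ i : Fin (m ^ 3), ev c i = 0) : c = 0 := by
  have hmm : m ≤ m ^ 3 := Nat.le_self_pow (by norm_num) m
  have h1 : ∀ i : Fin m, ∑ p : Fin m, c p * (y m i : ℝ) ^ (p : ℕ) = 0 := fun i =>
    h ⟨i, i.2.trans_le hmm⟩
  have h2 : (Matrix.vandermonde fun i : Fin m => (y m i : ℝ)).det ≠ 0 := by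
    rw [Matrix.det_vandermonde_ne_zero_iff]
    intro i j hij
    exact Fin.ext (y_inj hm (Nat.cast_injective hij))
  refine Matrix.eq_zero_of_mulVec_eq_zero h2 ?_
  funext i
  rw [Matrix.mulVec, dotProduct, Pi.zero_apply, ← h1 i]
  refine Finset.sum_congr rfl fun p _ => ?_
  rw [Matrix.vandermonde_apply, mul_comm]

private theorem nA_comb {m : ℕ} (x z : ℝ) (a b : Fin (m + 1) → ℝ) (i : Fin (m ^ 3)) :
    ev (x • (fun j : Fin m => a j.succ) + z • (fun j : Fin m => b j.succ)) i =
      (x • nA a + z • nA b) (some i) := by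
  simp only [nA, ev, Pi.add_apply, Pi.smul_apply, smul_eq_mul, Finset.mul_sum]
  rw [← Finset.sum_add_distrib]
  refine Finset.sum_congr rfl fun p _ => ?_
  ring

theorem na {m : ℕ} (hm : 2 ≤ m) (a b : Fin (m + 1) → ℝ)
    (hab : ∀ x z : ℝ, x • a + z • b = 0 → x = 0 ∧ z = 0) :
    {x : Fin (m + 1) → ℂˣ | x ∈ Cv ℂ m ∧ ∑ j, a j * Real.log ‖(x j : ℂ)‖ = 0 ∧
      ∑ j, b j * Real.log ‖(x j : ℂ)‖ = 0}.Finite := by
  classical
  by_contra hinf
  obtain ⟨S, hS⟩ : ∃ S, S = {x : Fin (m + 1) → ℂˣ | x ∈ Cv ℂ m ∧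
    ∑ j, a j * Real.log ‖(x j : ℂ)‖ = 0 ∧ ∑ j, b j * Real.log ‖(x j : ℂ)‖ = 0} := ⟨_, rfl⟩
  rw [← hS] at hinf
  have hmem : ∀ x ∈ S, x ∈ Cv ℂ m ∧ u (node ℂ) (nA a) (x 0 : ℂ) = 0 ∧
      u (node ℂ) (nA b) (x 0 : ℂ) = 0 := by
    intro x hx
    rw [hS] at hx
    rw [← u_eq hm a hx.1, ← u_eq hm b hx.1]
    exact hx
  have hinj : Set.InjOn (fun x : Fin (m + 1) → ℂˣ => (x 0 : ℂ)) S := by
    intro x hx x' hx' h
    have h0 : (x 0 : ℂ) = (x' 0 : ℂ) := h
    funext j
    refine Fin.cases ?_ (fun j => ?_) j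
    · exact Units.ext h0
    · apply Units.ext
      rw [(hmem x hx).1 j, (hmem x' hx').1 j, h0]
  have hT : ((fun x : Fin (m + 1) → ℂˣ => (x 0 : ℂ)) '' S).Infinite := fun h =>
    hinf (h.of_finite_image hinj)
  by_cases hind : ∀ x z : ℝ, x • (fun j : Fin m => a j.succ) + z • (fun j : Fin m => b j.succ) = 0 →
      x = 0 ∧ z = 0
  · have hE : {t | (∀ i, t ≠ node ℂ (N := m ^ 3) i) ∧ u (node ℂ) (nA a) t = 0 ∧
        u (node ℂ) (nA b) t = 0}.Infinite := by
      refine hT.mono ?_
      rintro _ ⟨x, hx, rfl⟩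
      refine ⟨fun i => ?_, (hmem x hx).2⟩
      rcases i with _ | i
      · exact Units.ne_zero _
      · exact fun h => factor_ne (hmem x hx).1 hm i (sub_eq_zero.mpr h)
    have hind' : ∀ x z : ℝ, x • nA a + z • nA b = 0 → x = 0 ∧ z = 0 := by
      intro x z h
      apply hind
      apply ev_zero hm
      intro i
      rw [nA_comb, h, Pi.zero_apply]
    obtain ⟨j, hj0, hj1, hj2, hj3⟩ := comb hm (fun j : Fin m => a j.succ)
      (fun j : Fin m => b j.succ) hind (a 0, b 0) (∑ i, nA a i, ∑ i, nA b i)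
    rcases partner node_inj hind' hE (some j) hj0 with ⟨i, hij, hi0, hi⟩ | ⟨h1, h2⟩
    · rcases i with _ | i
      · have h3 : ((a 0, b 0) : ℝ × ℝ) ≠ 0 := by
          intro h4
          rw [Prod.mk_eq_zero] at h4
          rcases hi0 with h5 | h5
          · exact h5 h4.1
          · exact h5 h4.2
        exact hj2 h3 hi
      · exact hj1 i (fun h => hij (by rw [h])) hi0 hi
    · have h3 : ((∑ i, nA a i, ∑ i, nA b i) : ℝ × ℝ) ≠ 0 := by
        intro h4
        rw [Prod.mk_eq_zero] at h4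
        rcases h1 with h5 | h5
        · exact h5 h4.1
        · exact h5 h4.2
      exact hj3 h3 h2
  · push Not at hind
    obtain ⟨x, z, hxz, hne⟩ := hind
    have hc0 : x * a 0 + z * b 0 ≠ 0 := by
      intro h0
      have h1 : x • a + z • b = 0 := by
        funext j
        refine Fin.cases ?_ (fun j => ?_) j
        · exact h0
        · exact congrFun hxz j
      exact hne (hab x z h1).1 (hab x z h1).2
    have hnorm : ∀ t ∈ (fun x : Fin (m + 1) → ℂˣ => (x 0 : ℂ)) '' S, ‖t‖ = 1 := by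
      rintro _ ⟨x', hx', rfl⟩
      have h1 := (hmem x' hx').2
      have h2 : x * u (node ℂ) (nA a) (x' 0 : ℂ) + z * u (node ℂ) (nA b) (x' 0 : ℂ) =
          (x * a 0 + z * b 0) * Real.log ‖(x' 0 : ℂ)‖ := by
        have h3 : ∀ i : Fin (m ^ 3), x * nA a (some i) + z * nA b (some i) = 0 := by
          intro i
          have h4 := nA_comb x z a b i
          rw [hxz] at h4
          have h5 : ev (0 : Fin m → ℝ) i = 0 := by simp [ev]
          rw [h5] at h4
          exact h4.symm
        rw [u, u, Fintype.sum_option, Fintype.sum_option]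
        have h6 : x * ∑ i : Fin (m ^ 3), nA a (some i) * Real.log ‖(x' 0 : ℂ) - node ℂ (some i)‖ +
            z * ∑ i : Fin (m ^ 3), nA b (some i) * Real.log ‖(x' 0 : ℂ) - node ℂ (some i)‖ = 0 := by
          rw [Finset.mul_sum, Finset.mul_sum, ← Finset.sum_add_distrib]
          refine Finset.sum_eq_zero fun i _ => ?_
          calc _ = (x * nA a (some i) + z * nA b (some i)) *
                Real.log ‖(x' 0 : ℂ) - node ℂ (some i)‖ := by ring
            _ = 0 := by rw [h3, zero_mul]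
        have h7 : ‖(x' 0 : ℂ) - node ℂ (N := m ^ 3) none‖ = ‖(x' 0 : ℂ)‖ := by
          simp [node]
        rw [h7]
        have h8 : nA a (none : Option (Fin (m ^ 3))) = a 0 := rfl
        have h9 : nA b (none : Option (Fin (m ^ 3))) = b 0 := rfl
        rw [h8, h9]
        linear_combination h6
      rw [h1.1, h1.2, mul_zero, mul_zero, add_zero] at h2
      have h3 : Real.log ‖(x' 0 : ℂ)‖ = 0 := by
        rcases mul_eq_zero.mp h2.symm with h | h
        · exact absurd h hc0
        · exact h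
      rcases Real.log_eq_zero.mp h3 with h | h | h
      · exact absurd (norm_eq_zero.mp h) (Units.ne_zero _)
      · exact h
      · have := norm_nonneg (x' 0 : ℂ)
        linarith
    have hfin : ∀ d : Fin (m + 1) → ℝ, (fun j : Fin m => d j.succ) ≠ 0 →
        (∀ x' ∈ S, u (node ℂ) (nA d) (x' 0 : ℂ) = 0) → False := by
      intro d hd hu
      have hD : (fun i : Fin (m ^ 3) => ev (fun j : Fin m => d j.succ) i) ≠ 0 := by
        intro h
        exact hd (ev_zero hm _ fun i => congrFun h i)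
      refine hT ((circle _ hD).subset ?_)
      intro t ht
      have h1 := hnorm t ht
      refine ⟨h1, ?_⟩
      obtain ⟨x', hx', rfl⟩ := ht
      have h2 := hu x' hx'
      rw [u, Fintype.sum_option] at h2
      have h3 : ‖(x' 0 : ℂ) - node ℂ (N := m ^ 3) none‖ = 1 := by
        rw [← h1]
        simp [node]
      rw [h3, Real.log_one, mul_zero, zero_add] at h2
      exact h2
    by_cases ha : (fun j : Fin m => a j.succ) = 0
    · by_cases hb : (fun j : Fin m => b j.succ) = 0
      · have h1 : (b 0) • a + (- a 0) • b = 0 := by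
          funext j
          refine Fin.cases ?_ (fun j => ?_) j
          · simp only [Pi.add_apply, Pi.smul_apply, smul_eq_mul, Pi.zero_apply]
            ring
          · have h2 : a j.succ = 0 := congrFun ha j
            have h3 : b j.succ = 0 := congrFun hb j
            simp only [Pi.add_apply, Pi.smul_apply, smul_eq_mul, Pi.zero_apply, h2, h3]
            ring
        have h4 := hab _ _ h1
        apply hc0
        rw [h4.1]
        have h5 : a 0 = 0 := neg_eq_zero.mp h4.2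
        rw [h5]
        ring
      · exact hfin b hb fun x' hx' => (hmem x' hx').2.2
    · exact hfin a ha fun x' hx' => (hmem x' hx').2.1

end NE
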