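import Pool.Agent.Lib.MP_a325a5_ag.NE.Arc
import Pool.Agent.Lib.MP_a325a5_ag.NE.ExF
import Pool.Agent.Lib.MP_a325a5_ag.NE.Al1
import Pool.Agent.Lib.MP_a325a5_ag.NE.Al2

/-! The partner theorem.
`partner_act` (all nodes active): `exists_arc`, `exists_F`.  `G = F.map (evalRingHom (β j))` is not zero: otherwise `C (X - C (β j)) ∣ F`, against primitivity.
`F.eval (C c) ≠ 0` for all `c` by the third property of `F`.  If `G` has a root `σ` then `σ = cj β i` (`al2` for the `c` in `{A, B}` with `c j ≠ 0`), both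
multiplicities in `al1` are positive (`F (β_j, β~_i) = 0`), so `(A j, B j) = - λ (A i, B i)` with `λ > 0`; hence `i ≠ j` and `A j * B i = B j * A i`.
If `G` has no root it is constant (`IsAlgClosed`), and `al3` for `A` and `B`: `(A j, B j) = λ (∑ A, ∑ B)`, `λ > 0`.
`partner`: restrict `β`, `A`, `B` to the subtype of the active nodes (`u`, the sums and the independence do not change, the set of zeros
gets larger). -/

open Polynomial Filter Topology

namespace NE

variable {ι : Type} [Fintype ι] [DecidableEq ι]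

private theorem Part_G {F : ℂ[X][X]} (hprim : F.IsPrimitive) (b : ℂ) : F.map (evalRingHom b) ≠ 0 := by
  intro h
  have h1 : C (X - C b) ∣ F := by
    rw [C_dvd_iff_dvd_coeff]
    intro i
    have h2 := congrArg (fun G : ℂ[X] => G.coeff i) h
    simp only [coeff_map, coeff_zero, coe_evalRingHom] at h2
    exact dvd_iff_isRoot.2 h2
  exact not_isUnit_X_sub_C b (hprim _ h1)

theorem partner_act {β : ι → ℂ} (hβ : Function.Injective β) {A B : ι → ℝ}
    (hact : ∀ i, A i ≠ 0 ∨ B i ≠ 0)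
    (hind : ∀ x z : ℝ, x • A + z • B = 0 → x = 0 ∧ z = 0)
    (hE : {t | (∀ i, t ≠ β i) ∧ u β A t = 0 ∧ u β B t = 0}.Infinite) (j : ι) :
    (∃ i, i ≠ j ∧ A j * B i = B j * A i) ∨
    ((∑ i, A i ≠ 0 ∨ ∑ i, B i ≠ 0) ∧ A j * (∑ i, B i) = B j * (∑ i, A i)) := by
  have hA : A ≠ 0 := by
    rintro rfl
    have h := (hind 1 0 (by rw [smul_zero, zero_smul, add_zero])).1
    exact one_ne_zero h
  obtain ⟨t, s, harc⟩ := exists_arc hβ hA hact hE
  obtain ⟨F, hprim, hdeg, hlin, hFA, hFB⟩ := exists_F hβ hind harc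
  have hG : F.map (evalRingHom (β j)) ≠ 0 := Part_G hprim (β j)
  have hG' : ∀ c : ℂ, F.eval (C c) ≠ 0 := fun c h => hlin c (dvd_iff_isRoot.2 h)
  by_cases hdG : (F.map (evalRingHom (β j))).natDegree = 0
  · right
    obtain ⟨m1, hA3⟩ := al3 hβ A hFA j hdeg hG hdG
    obtain ⟨-, hB3⟩ := al3 hβ B hFB j hdeg hG hdG
    have hn : (F.natDegree : ℝ) ≠ 0 := by
      have : F.natDegree ≠ 0 := by omega
      exact_mod_cast this
    constructor
    · by_contra hcon
      push Not at hcon
      rw [hcon.1, mul_zero] at hA3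
      rw [hcon.2, mul_zero] at hB3
      rcases hact j with h | h
      · exact h ((mul_eq_zero.1 hA3).resolve_left hn)
      · exact h ((mul_eq_zero.1 hB3).resolve_left hn)
    · apply mul_left_cancel₀ hn
      linear_combination (∑ i, B i) * hA3 - (∑ i, A i) * hB3
  · left
    have hdG' : (F.map (evalRingHom (β j))).degree ≠ 0 := by
      intro h
      exact hdG (natDegree_eq_of_degree_eq_some h)
    obtain ⟨σ, hσ⟩ := IsAlgClosed.exists_root _ hdG'
    have hσ' : (F.map (evalRingHom (β j))).eval σ = 0 := hσ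
    obtain ⟨i, rfl⟩ : ∃ i, σ = cj β i := by
      rcases hact j with h | h
      · exact al2 hβ A hFA j h hG hσ'
      · exact al2 hβ B hFB j h hG hσ'
    have hm1 : 0 < (F.map (evalRingHom (β j))).rootMultiplicity (cj β i) := (rootMultiplicity_pos hG).2 hσ
    have hm2 : 0 < (F.eval (C (cj β i))).rootMultiplicity (β j) := by
      refine (rootMultiplicity_pos (hG' _)).2 ?_
      show (F.eval (C (cj β i))).eval (β j) = 0
      have h3 := hσ'
      rw [map_evalRingHom_eval] at h3
      exact h3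
    have eA := al1 hβ A hFA i j hG (hG' _)
    have eB := al1 hβ B hFB i j hG (hG' _)
    generalize (F.map (evalRingHom (β j))).rootMultiplicity (cj β i) = a at hm1 eA eB
    generalize (F.eval (C (cj β i))).rootMultiplicity (β j) = a' at hm2 eA eB
    have ha : (0 : ℝ) < a := by exact_mod_cast hm1
    have ha' : (0 : ℝ) < a' := by exact_mod_cast hm2
    refine ⟨i, ?_, ?_⟩
    · rintro rfl
      have hs : (0 : ℝ) < a + a' := add_pos ha ha'
      have h1 : ((a : ℝ) + a') * A i = 0 := by linear_combination eA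
      have h2 : ((a : ℝ) + a') * B i = 0 := by linear_combination eB
      rcases hact i with h | h
      · exact h ((mul_eq_zero.1 h1).resolve_left hs.ne')
      · exact h ((mul_eq_zero.1 h2).resolve_left hs.ne')
    · apply mul_left_cancel₀ ha.ne'
      linear_combination (B i) * eA - (A i) * eB

private theorem Part_sum {κ : Type} [Fintype κ] {p : κ → Prop} [Fintype {i // p i}] (f : κ → ℝ) (hf : ∀ i, ¬ p i → f i = 0) :
    ∑ i : {i // p i}, f i.1 = ∑ i, f i := by
  classical
  have h1 : ∑ i : {i // p i}, f i.1 = ∑ i ∈ Finset.univ.filter p, f i :=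
    (Finset.sum_subtype (Finset.univ.filter p) (fun i => by simp) f).symm
  rw [h1]
  refine Finset.sum_subset (Finset.filter_subset _ _) fun i _ hi => hf i fun hp => hi ?_
  exact Finset.mem_filter.2 ⟨Finset.mem_univ i, hp⟩

theorem partner {β : ι → ℂ} (hβ : Function.Injective β) {A B : ι → ℝ}
    (hind : ∀ x z : ℝ, x • A + z • B = 0 → x = 0 ∧ z = 0)
    (hE : {t | (∀ i, t ≠ β i) ∧ u β A t = 0 ∧ u β B t = 0}.Infinite) (j : ι)
    (hj : A j ≠ 0 ∨ B j ≠ 0) :
    (∃ i, i ≠ j ∧ (A i ≠ 0 ∨ B i ≠ 0) ∧ A j * B i = B j * A i) ∨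
    ((∑ i, A i ≠ 0 ∨ ∑ i, B i ≠ 0) ∧ A j * (∑ i, B i) = B j * (∑ i, A i)) := by
  classical
  have hAz : ∀ i, ¬ (A i ≠ 0 ∨ B i ≠ 0) → A i = 0 := fun i h => by
    by_contra h1
    exact h (Or.inl h1)
  have hBz : ∀ i, ¬ (A i ≠ 0 ∨ B i ≠ 0) → B i = 0 := fun i h => by
    by_contra h1
    exact h (Or.inr h1)
  have key := partner_act (ι := {i : ι // A i ≠ 0 ∨ B i ≠ 0}) (β := fun i => β i.1) (A := fun i => A i.1) (B := fun i => B i.1)
    (fun i i' h => Subtype.ext (hβ h)) (fun i => i.2) ?_ ?_ ⟨j, hj⟩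
  · have e1 : ∑ i : {i : ι // A i ≠ 0 ∨ B i ≠ 0}, A i.1 = ∑ i, A i := Part_sum A hAz
    have e2 : ∑ i : {i : ι // A i ≠ 0 ∨ B i ≠ 0}, B i.1 = ∑ i, B i := Part_sum B hBz
    rcases key with ⟨i, h1, h2⟩ | h
    · left
      exact ⟨i.1, fun h => h1 (Subtype.ext h), i.2, h2⟩
    · right
      rw [e1, e2] at h
      exact h
  · intro x z h
    apply hind
    funext i
    by_cases hi : A i ≠ 0 ∨ B i ≠ 0
    · exact congrFun h ⟨i, hi⟩
    · show x * A i + z * B i = 0
      rw [hAz i hi, hBz i hi, mul_zero, mul_zero, add_zero]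
  · refine hE.mono ?_
    rintro t ⟨h1, h2, h3⟩
    refine ⟨fun i => h1 i.1, ?_, ?_⟩
    · refine Eq.trans ?_ h2
      unfold u
      exact Part_sum (fun i => A i * Real.log ‖t - β i‖) fun i hi => by rw [hAz i hi, zero_mul]
    · refine Eq.trans ?_ h3
      unfold u
      exact Part_sum (fun i => B i * Real.log ‖t - β i‖) fun i hi => by rw [hBz i hi, zero_mul]

end NE
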