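import Pool.Agent.Lib.MP_a325a5_ag.NE.Arc
import Pool.Agent.Lib.MP_a325a5_ag.NE.ExF
import Pool.Agent.Lib.MP_a325a5_ag.NE.Al1
import Pool.Agent.Lib.MP_a325a5_ag.NE.Al2

/-! The partner theorem, strong form: if two functions `∑ A_i log |t - β_i|`, `∑ B_i log |t - β_i|` take given values at
infinitely many common points then every node with `(A_j, B_j) ≠ 0` has an opposite node (or infinity is opposite). -/

open Polynomial Filter Topology

namespace NE

variable {ι : Type} [Fintype ι] [DecidableEq ι]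

private theorem parts_act {β : ι → ℂ} (hβ : Function.Injective β) {A B : ι → ℝ}
    (hact : ∀ i, A i ≠ 0 ∨ B i ≠ 0)
    (hind : ∀ x z : ℝ, x • A + z • B = 0 → x = 0 ∧ z = 0) {c₁ c₂ : ℝ}
    (hE : {t | (∀ i, t ≠ β i) ∧ u β A t = c₁ ∧ u β B t = c₂}.Infinite) (j : ι) :
    (∃ i, ∃ l : ℝ, 0 < l ∧ A j = - (l * A i) ∧ B j = - (l * B i)) ∨
    (∃ l : ℝ, 0 < l ∧ A j = l * ∑ i, A i ∧ B j = l * ∑ i, B i) := by
  have hA : A ≠ 0 := by
    rintro rfl
    exact one_ne_zero (hind 1 0 (by simp)).1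
  obtain ⟨t, s, harc⟩ := exists_arc hβ hA hact hE
  obtain ⟨F, hprim, hdeg, hlin, hFA, hFB⟩ := exists_F hβ hind harc
  have hG : F.map (evalRingHom (β j)) ≠ 0 := by
    intro h0
    have h1 : C (X - C (β j)) ∣ F := by
      rw [C_dvd_iff_dvd_coeff]
      intro n
      rw [dvd_iff_isRoot]
      have h2 := congrArg (fun p => p.coeff n) h0
      simpa using h2
    exact not_isUnit_X_sub_C (β j) (hprim _ h1)
  have hG' : ∀ c : ℂ, F.eval (C c) ≠ 0 := fun c h => hlin c (dvd_iff_isRoot.mpr h)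
  by_cases hroot : ∃ σ, (F.map (evalRingHom (β j))).eval σ = 0
  · left
    obtain ⟨σ, hσ⟩ := hroot
    obtain ⟨i, rfl⟩ : ∃ i, σ = cj β i := by
      rcases hact j with h | h
      · exact al2 hβ A hFA j h hG hσ
      · exact al2 hβ B hFB j h hG hσ
    have h1 : 0 < (F.map (evalRingHom (β j))).rootMultiplicity (cj β i) :=
      (rootMultiplicity_pos hG).mpr hσ
    have h2 : 0 < (F.eval (C (cj β i))).rootMultiplicity (β j) := by
      refine (rootMultiplicity_pos (hG' _)).mpr ?_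
      rw [map_evalRingHom_eval] at hσ
      exact hσ
    have h3 : (0 : ℝ) < ((F.map (evalRingHom (β j))).rootMultiplicity (cj β i) : ℝ) := by
      exact_mod_cast h1
    have h4 : (0 : ℝ) < ((F.eval (C (cj β i))).rootMultiplicity (β j) : ℝ) := by exact_mod_cast h2
    have h5 := al1 hβ A hFA i j hG (hG' _)
    have h6 := al1 hβ B hFB i j hG (hG' _)
    refine ⟨i, ((F.eval (C (cj β i))).rootMultiplicity (β j) : ℝ) /
      ((F.map (evalRingHom (β j))).rootMultiplicity (cj β i) : ℝ), div_pos h4 h3, ?_, ?_⟩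
    · field_simp
      linarith
    · field_simp
      linarith
  · right
    push Not at hroot
    have hG0 : (F.map (evalRingHom (β j))).natDegree = 0 := by
      by_contra h
      obtain ⟨σ, hσ⟩ := IsAlgClosed.exists_root (F.map (evalRingHom (β j)))
        (fun h' => h (natDegree_eq_of_degree_eq_some h'))
      exact hroot σ hσ
    obtain ⟨h1, h2⟩ := al3 hβ A hFA j hdeg hG hG0
    obtain ⟨_, h3⟩ := al3 hβ B hFB j hdeg hG hG0
    have h4 : (0 : ℝ) < (F.natDegree : ℝ) := by exact_mod_cast hdeg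
    have h5 : (0 : ℝ) < (F.leadingCoeff.rootMultiplicity (β j) : ℝ) := by exact_mod_cast h1
    refine ⟨(F.leadingCoeff.rootMultiplicity (β j) : ℝ) / (F.natDegree : ℝ), div_pos h5 h4, ?_, ?_⟩
    · field_simp
      linarith
    · field_simp
      linarith

private theorem parts_sum {A B : ι → ℝ} (f : ι → ℝ) (hf : ∀ i, f i ≠ 0 → (A i ≠ 0 ∨ B i ≠ 0)) :
    ∑ i : {i // A i ≠ 0 ∨ B i ≠ 0}, f i = ∑ i, f i := by
  classical
  rw [← Finset.sum_subtype (Finset.univ.filter fun i => A i ≠ 0 ∨ B i ≠ 0) (by simp) f]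
  exact Finset.sum_filter_of_ne fun i _ h => hf i h

/-- opposite partners -/
theorem partner_strong {β : ι → ℂ} (hβ : Function.Injective β) {A B : ι → ℝ}
    (hind : ∀ x z : ℝ, x • A + z • B = 0 → x = 0 ∧ z = 0) {c₁ c₂ : ℝ}
    (hE : {t | (∀ i, t ≠ β i) ∧ u β A t = c₁ ∧ u β B t = c₂}.Infinite) (j : ι)
    (hj : A j ≠ 0 ∨ B j ≠ 0) :
    (∃ i, ∃ l : ℝ, 0 < l ∧ A j = - (l * A i) ∧ B j = - (l * B i)) ∨
    (∃ l : ℝ, 0 < l ∧ A j = l * ∑ i, A i ∧ B j = l * ∑ i, B i) := by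
  classical
  have huA : ∀ t, u (fun i : {i // A i ≠ 0 ∨ B i ≠ 0} => β i) (fun i => A i) t = u β A t := by
    intro t
    exact parts_sum (fun i => A i * Real.log ‖t - β i‖) fun i hi => Or.inl (left_ne_zero_of_mul hi)
  have huB : ∀ t, u (fun i : {i // A i ≠ 0 ∨ B i ≠ 0} => β i) (fun i => B i) t = u β B t := by
    intro t
    exact parts_sum (fun i => B i * Real.log ‖t - β i‖) fun i hi => Or.inr (left_ne_zero_of_mul hi)
  have hsA : ∑ i : {i // A i ≠ 0 ∨ B i ≠ 0}, A i = ∑ i, A i := parts_sum A fun i hi => Or.inl hi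
  have hsB : ∑ i : {i // A i ≠ 0 ∨ B i ≠ 0}, B i = ∑ i, B i := parts_sum B fun i hi => Or.inr hi
  have h := parts_act (β := fun i : {i // A i ≠ 0 ∨ B i ≠ 0} => β i)
    (fun i i' h => Subtype.ext (hβ h)) (A := fun i => A i) (B := fun i => B i) (fun i => i.2)
    (fun x z hxz => hind x z (funext fun i => by
      by_cases hi : A i ≠ 0 ∨ B i ≠ 0
      · exact congrFun hxz ⟨i, hi⟩
      · push Not at hi
        simp [hi.1, hi.2])) (c₁ := c₁) (c₂ := c₂)
    (hE.mono fun t ht => ⟨fun i => ht.1 i, by rw [huA]; exact ht.2.1, by rw [huB]; exact ht.2.2⟩)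
    ⟨j, hj⟩
  rw [hsA, hsB] at h
  rcases h with ⟨i, l, hl, h1, h2⟩ | h
  · exact Or.inl ⟨i, l, hl, h1, h2⟩
  · exact Or.inr h

end NE
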