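import Pool.Agent.Lib.MP_a325a5_ag.NE.Def

/-! The ideal `pp t s` is prime and contains no polynomial in one variable.
Proof: `z ↦ evalEval (t z) (s z) F` is meromorphic at `0` (induction on `F`, or a finite sum), so it is eventually zero or
eventually nonzero in `𝓝[≠] 0` (`MeromorphicAt.eventually_eq_zero_or_eventually_ne_zero`).  `C p ∈ pp` means `p (t z) = 0` near `0`,
`z ≠ 0`; if `p ≠ 0` then `t` takes finitely many values there, but near a point `z₁` with `deriv t z₁ ≠ 0` it is not locally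
constant (isolated values: `HasDerivAt.eventually_ne`).  The same for `s` and `X - C (C c)`. -/

open Polynomial Filter Topology

namespace NE

private theorem Pp_one {t : ℂ → ℂ} (ht : MeromorphicAt t 0) (p : ℂ[X]) :
    MeromorphicAt (fun z => p.eval (t z)) 0 := by
  induction p using Polynomial.induction_on' with
  | add p q hp hq =>
    have h : (fun z => (p + q).eval (t z)) = (fun z => p.eval (t z)) + fun z => q.eval (t z) := by
      funext z
      simp
    rw [h]
    exact hp.add hq
  | monomial n a =>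
    have h : (fun z => (monomial n a).eval (t z)) = (fun _ => a) * t ^ n := by
      funext z
      simp
    rw [h]
    exact (MeromorphicAt.const a 0).mul (ht.pow n)

theorem merom_eval {t s : ℂ → ℂ} (ht : MeromorphicAt t 0) (hs : MeromorphicAt s 0) (F : ℂ[X][X]) :
    MeromorphicAt (fun z => evalEval (t z) (s z) F) 0 := by
  induction F using Polynomial.induction_on' with
  | add p q hp hq =>
    have h : (fun z => evalEval (t z) (s z) (p + q)) =
        (fun z => evalEval (t z) (s z) p) + fun z => evalEval (t z) (s z) q := by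
      funext z
      simp only [Pi.add_apply]
      exact evalEval_add _ _ _ _
    rw [h]
    exact hp.add hq
  | monomial n a =>
    have h : (fun z => evalEval (t z) (s z) (monomial n a)) =
        (fun z => a.eval (t z)) * s ^ n := by
      funext z
      simp [evalEval]
    rw [h]
    exact (Pp_one ht a).mul (hs.pow n)

/-- a function with nonzero derivative does not take finitely many values -/
private theorem Pp_fin {s : ℂ → ℂ}
    (hd : ∀ᶠ z in 𝓝[≠] (0 : ℂ), DifferentiableAt ℂ s z ∧ deriv s z ≠ 0) (S : Finset ℂ)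
    (h : ∀ᶠ z in 𝓝[≠] (0 : ℂ), s z ∈ S) : False := by
  have h1 : ∀ᶠ y in 𝓝[≠] (0 : ℂ), ∀ᶠ z in 𝓝[≠] y, s z ∈ S := by
    have h2 := eventually_eventually_nhdsWithin.2 h
    filter_upwards [h2, self_mem_nhdsWithin] with y hy hy0
    have h3 : 𝓝[({0}ᶜ : Set ℂ)] y = 𝓝 y :=
      IsOpen.nhdsWithin_eq isOpen_compl_singleton hy0
    rw [h3] at hy
    exact hy.filter_mono nhdsWithin_le_nhds
  obtain ⟨y, ⟨hy1, hy2⟩, hy3⟩ := (hd.and h1).exists
  have h4 : ∀ᶠ z in 𝓝[≠] y, ∀ c ∈ S, s z ≠ c := by
    rw [Filter.eventually_all_finset]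
    intro c _
    exact hy1.hasDerivAt.eventually_ne hy2
  obtain ⟨z, hz1, hz2⟩ := (hy3.and h4).exists
  exact hz2 _ hz1 rfl

theorem pp_prime {t s : ℂ → ℂ} (ht : MeromorphicAt t 0) (hs : MeromorphicAt s 0) {F G : ℂ[X][X]}
    (h : F * G ∈ pp t s) : F ∈ pp t s ∨ G ∈ pp t s := by
  rw [mem_pp] at h
  rcases (merom_eval ht hs F).eventually_eq_zero_or_eventually_ne_zero with h1 | h1
  · exact Or.inl (mem_pp.2 h1)
  · right
    rw [mem_pp]
    filter_upwards [h, h1] with z h2 h3
    have h4 := evalEval_mul (t z) (s z) F G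
    rw [h2] at h4
    exact (mul_eq_zero.1 h4.symm).resolve_left h3

theorem pp_const {t s : ℂ → ℂ}
    (hd : ∀ᶠ z in 𝓝[≠] (0 : ℂ), DifferentiableAt ℂ t z ∧ deriv t z ≠ 0) {p : ℂ[X]}
    (hp : C p ∈ pp t s) : p = 0 := by
  classical
  by_contra hp0
  rw [mem_pp] at hp
  refine Pp_fin hd p.roots.toFinset ?_
  filter_upwards [hp] with z hz
  rw [evalEval_C] at hz
  rw [Multiset.mem_toFinset, mem_roots hp0]
  exact hz

theorem pp_lin {t s : ℂ → ℂ}
    (hd : ∀ᶠ z in 𝓝[≠] (0 : ℂ), DifferentiableAt ℂ s z ∧ deriv s z ≠ 0) (c : ℂ) :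
    (X - C (C c) : ℂ[X][X]) ∉ pp t s := by
  intro h
  rw [mem_pp] at h
  refine Pp_fin hd {c} ?_
  filter_upwards [h] with z hz
  have h1 := evalEval_sub (t z) (s z) (X : ℂ[X][X]) (C (C c))
  rw [hz, evalEval_X, evalEval_C, eval_C] at h1
  rw [Finset.mem_singleton]
  exact sub_eq_zero.1 h1.symm

end NE
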