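import Pool.Agent.Lib.MP_a325a5_ag.NE.Rc1
import Pool.Agent.Lib.MP_a325a5_ag.UL.KD

/-! The curves `rc β γ v` with a matrix `v` of exponents satisfying the combinatorial condition `NoOpp`
satisfy all hypotheses of the general theorem. -/

open MvPolynomial Pool.Agent.Lib.MP_a325a5_ag.UL Pool.Agent.Lib.MP_a325a5_ag.G2

namespace NE

section

variable {K : Type} [Field K] {k N : ℕ} (β : Fin N → K) (γ : Fin k → Kˣ) (v : Fin N → Fin k → ℕ)

theorem rc_dim [CharZero K] (hv : ∃ i j, 0 < v i j) : zdim (rc β γ v) = 1 := by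
  classical
  have hinj : Function.Injective (algebraMap (Polynomial K) (FractionRing (Polynomial K))) :=
    IsFractionRing.injective _ _
  have hne : ∀ j, algebraMap (Polynomial K) (FractionRing (Polynomial K)) (rcP β γ v j) ≠ 0 := by
    intro j h0
    have h1 : rcP β γ v j = 0 := hinj (by rw [h0, map_zero])
    unfold rcP at h1
    rw [mul_eq_zero] at h1
    rcases h1 with h1 | h1
    · rw [Polynomial.C_eq_zero] at h1
      exact Units.ne_zero _ h1
    · rw [Finset.prod_eq_zero_iff] at h1
      obtain ⟨i, -, h2⟩ := h1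
      exact pow_ne_zero _ (Polynomial.X_sub_C_ne_zero _) h2
  obtain ⟨g, hg⟩ : ∃ g : Fin k → (FractionRing (Polynomial K))ˣ, g = fun j => Units.mk0 _ (hne j) :=
    ⟨_, rfl⟩
  have hgv : ∀ j, ((g j : (FractionRing (Polynomial K))ˣ) : FractionRing (Polynomial K)) =
      algebraMap (Polynomial K) (FractionRing (Polynomial K)) (rcP β γ v j) := by
    intro j
    rw [hg]
    rfl
  have hae : (MvPolynomial.aeval (fun j => ((g j : (FractionRing (Polynomial K))ˣ) :
      FractionRing (Polynomial K))) : MvPolynomial (Fin k) K →ₐ[K] FractionRing (Polynomial K)) =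
      (IsScalarTower.toAlgHom K (Polynomial K) (FractionRing (Polynomial K))).comp
        (rcphi β γ v) := by
    refine MvPolynomial.algHom_ext fun j => ?_
    rw [MvPolynomial.aeval_X, hgv]
    show _ = algebraMap (Polynomial K) (FractionRing (Polynomial K)) (rcphi β γ v (MvPolynomial.X j))
    unfold rcphi
    rw [MvPolynomial.aeval_X]
  have hloc : locus K g = vanIdeal (rc β γ v) := by
    rw [rc_ker β γ v]
    ext f
    rw [locus, RingHom.mem_ker, RingHom.mem_ker, hae]
    show algebraMap (Polynomial K) (FractionRing (Polynomial K)) (rcphi β γ v f) = 0 ↔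
      rcphi β γ v f = 0
    constructor
    · intro h
      exact hinj (by rw [h, map_zero])
    · intro h
      rw [h, map_zero]
  rw [zdim_eq (rc β γ v) g hloc]
  obtain ⟨q, hq⟩ : ∃ q : Fin 1 → FractionRing (Polynomial K), q = fun _ =>
    algebraMap (Polynomial K) (FractionRing (Polynomial K)) Polynomial.X := ⟨_, rfl⟩
  have hup : td K g ≤ 1 := by
    have h1 := td_le_card_of_algebraic (K := K) g q (fun j => by
      rw [hgv]
      have h2 : algebraMap (Polynomial K) (FractionRing (Polynomial K)) (rcP β γ v j) ∈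
          Algebra.adjoin K (Set.range q) := by
        have h3 : ∀ f : Polynomial K, algebraMap (Polynomial K) (FractionRing (Polynomial K)) f ∈
            Algebra.adjoin K (Set.range q) := by
          intro f
          have h4 : algebraMap (Polynomial K) (FractionRing (Polynomial K)) f =
              Polynomial.aeval (algebraMap (Polynomial K) (FractionRing (Polynomial K))
                Polynomial.X) f := by
            rw [Polynomial.aeval_algebraMap_apply, Polynomial.aeval_X_left_apply]
          rw [h4]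
          refine Polynomial.aeval_mem_adjoin_singleton K _ |> (Algebra.adjoin_mono ?_)
          rw [Set.singleton_subset_iff, hq]
          exact ⟨0, rfl⟩
        exact h3 _
      exact isAlgebraic_algebraMap (⟨_, h2⟩ : Algebra.adjoin K (Set.range q)))
    rwa [Fintype.card_fin] at h1
  have hlo : 1 ≤ td K g := by
    have h1 := le_td (K := K) g q (by
      rw [algebraicIndependent_unique_type_iff, hq]
      show Transcendental K (algebraMap (Polynomial K) (FractionRing (Polynomial K)) Polynomial.X)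
      rw [transcendental_algebraMap_iff hinj]
      exact Polynomial.transcendental_X K) (fun _ => by
      rw [hq]
      show IsAlgebraic _ (algebraMap (Polynomial K) (FractionRing (Polynomial K)) Polynomial.X)
      obtain ⟨p, hpm, hp⟩ := rc_integral β γ v hv Polynomial.X
      have h2 : ∀ f : MvPolynomial (Fin k) K, algebraMap (Polynomial K)
          (FractionRing (Polynomial K)) (rcphi β γ v f) ∈ Algebra.adjoin K (Set.range fun i =>
            ((g i : (FractionRing (Polynomial K))ˣ) : FractionRing (Polynomial K))) := by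
        intro f
        have h3 : algebraMap (Polynomial K) (FractionRing (Polynomial K)) (rcphi β γ v f) =
          MvPolynomial.aeval (fun j => ((g j : (FractionRing (Polynomial K))ˣ) :
            FractionRing (Polynomial K))) f := by
          rw [hae]
          rfl
        rw [h3, Algebra.adjoin_range_eq_range_aeval]
        exact ⟨f, rfl⟩
      refine IsIntegral.isAlgebraic ?_
      obtain ⟨θ, hθ⟩ : ∃ θ : MvPolynomial (Fin k) K →+* Algebra.adjoin K (Set.range fun i =>
            ((g i : (FractionRing (Polynomial K))ˣ) : FractionRing (Polynomial K))),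
          θ = ((algebraMap (Polynomial K) (FractionRing (Polynomial K))).comp
            (rcphi β γ v).toRingHom).codRestrict _ h2 := ⟨_, rfl⟩
      refine ⟨p.map θ, hpm.map θ, ?_⟩
      rw [Polynomial.eval₂_map]
      have h4 := congrArg (algebraMap (Polynomial K) (FractionRing (Polynomial K))) hp
      rw [map_zero, Polynomial.hom_eval₂] at h4
      rw [← h4]
      congr 1
      rw [hθ]
      rfl)
    rwa [Fintype.card_fin] at h1
  have h : td K g = 1 := le_antisymm hup hlo
  rw [h]
  rfl

end

/-- a product of powers of linear forms is constant only if the exponents vanish -/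
private theorem Rc_const (K : Type) [Field K] [CharZero K] {κ : Type} [Fintype κ] [DecidableEq κ] (c : κ → K)
    (hc : Function.Injective c) (e : κ → ℤ) (ζ : K) (hζ : ζ ≠ 0)
    (h : ∀ t : K, (∀ i, t ≠ c i) → ∏ i, (t - c i) ^ (e i) = ζ) (i₀ : κ) : e i₀ = 0 := by
  obtain ⟨A, hA⟩ : ∃ A : Polynomial K, A = ∏ i, (Polynomial.X - Polynomial.C (c i)) ^ (e i).toNat :=
    ⟨_, rfl⟩
  obtain ⟨B, hB⟩ : ∃ B : Polynomial K,
      B = ∏ i, (Polynomial.X - Polynomial.C (c i)) ^ (-e i).toNat := ⟨_, rfl⟩
  have hAe : ∀ t, Polynomial.eval t A = ∏ i, (t - c i) ^ (e i).toNat := by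
    intro t
    rw [hA, Polynomial.eval_prod]
    refine Finset.prod_congr rfl fun i _ => ?_
    rw [Polynomial.eval_pow, Polynomial.eval_sub, Polynomial.eval_X, Polynomial.eval_C]
  have hBe : ∀ t, Polynomial.eval t B = ∏ i, (t - c i) ^ (-e i).toNat := by
    intro t
    rw [hB, Polynomial.eval_prod]
    refine Finset.prod_congr rfl fun i _ => ?_
    rw [Polynomial.eval_pow, Polynomial.eval_sub, Polynomial.eval_X, Polynomial.eval_C]
  have hAB : A - Polynomial.C ζ * B = 0 := by
    refine Polynomial.eq_zero_of_infinite_isRoot _ ?_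
    refine ((Set.finite_range c).infinite_compl).mono ?_
    intro t ht
    rw [Set.mem_compl_iff, Set.mem_range, not_exists] at ht
    rw [Set.mem_ofPred_eq, Polynomial.IsRoot.def, Polynomial.eval_sub, Polynomial.eval_mul,
      Polynomial.eval_C, hAe, hBe, sub_eq_zero, ← h t (fun i hi => ht i hi.symm),
      ← Finset.prod_mul_distrib]
    refine Finset.prod_congr rfl fun i _ => ?_
    have h0 : t - c i ≠ 0 := sub_ne_zero.mpr fun hi => ht i hi.symm
    rw [← zpow_natCast, ← zpow_natCast, ← zpow_add₀ h0]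
    congr 1
    omega
  have hev := congrArg (Polynomial.eval (c i₀)) hAB
  rw [Polynomial.eval_sub, Polynomial.eval_mul, Polynomial.eval_C, Polynomial.eval_zero, hAe, hBe,
    sub_eq_zero] at hev
  have hne : ∀ f : κ → ℕ, f i₀ = 0 → ∏ i, (c i₀ - c i) ^ f i ≠ 0 := by
    intro f hf
    refine Finset.prod_ne_zero_iff.mpr fun i _ => ?_
    by_cases hi : i = i₀
    · rw [hi, hf, pow_zero]
      exact one_ne_zero
    · exact pow_ne_zero _ (sub_ne_zero.mpr fun h => hi (hc h).symm)
  have hz : ∀ f : κ → ℕ, 0 < f i₀ → ∏ i, (c i₀ - c i) ^ f i = 0 := by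
    intro f hf
    refine Finset.prod_eq_zero (Finset.mem_univ i₀) ?_
    rw [sub_self, zero_pow hf.ne']
  rcases lt_trichotomy (e i₀) 0 with h1 | h1 | h1
  · exfalso
    rw [hz (fun i => (-e i).toNat) (by show 0 < (-e i₀).toNat; omega), mul_zero] at hev
    exact hne (fun i => (e i).toNat) (by show (e i₀).toNat = 0; omega) hev
  · exact h1
  · exfalso
    rw [hz (fun i => (e i).toNat) (by show 0 < (e i₀).toNat; omega)] at hev
    exact mul_ne_zero hζ (hne (fun i => (-e i).toNat) (by show (-e i₀).toNat = 0; omega)) hev.symm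


/-- a second vector -/
private theorem Rc_second {k : ℕ} (hk : 2 ≤ k) (a : Fin k → ℝ) (ha : a ≠ 0) :
    ∃ b : Fin k → ℝ, LinearIndependent ℝ ![a, b] := by
  obtain ⟨j₀, hj⟩ := Function.ne_iff.mp ha
  obtain ⟨j₁, hj₁⟩ : ∃ j₁ : Fin k, j₁ ≠ j₀ := by
    by_cases h0 : (j₀ : ℕ) = 0
    · exact ⟨⟨1, by omega⟩, fun h => by
        have h1 := congrArg Fin.val h
        simp only [h0] at h1
        exact absurd h1 one_ne_zero⟩
    · exact ⟨⟨0, by omega⟩, fun h => h0 (congrArg Fin.val h).symm⟩
  refine ⟨Pi.single j₁ 1, ?_⟩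
  rw [LinearIndependent.pair_iff]
  intro p r hpr
  have h1 := congrFun hpr j₀
  rw [Pi.add_apply, Pi.smul_apply, Pi.smul_apply, Pi.single_eq_of_ne hj₁.symm, smul_zero, add_zero,
    smul_eq_mul, Pi.zero_apply] at h1
  have hp : p = 0 := (mul_eq_zero.mp h1).resolve_right hj
  have h2 := congrFun hpr j₁
  rw [Pi.add_apply, Pi.smul_apply, Pi.smul_apply, Pi.single_eq_same, hp, zero_smul, zero_add,
    smul_eq_mul, mul_one, Pi.zero_apply] at h2
  exact ⟨hp, h2⟩

theorem NoOpp.pos {k N : ℕ} (hk : 2 ≤ k) {v : Fin N → Fin k → ℕ} (hv : NoOpp v) :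
    ∃ i j, 0 < v i j := by
  by_contra hc
  push Not at hc
  have h0 : ∀ (a : Fin k → ℝ) i, od v a i = 0 := by
    intro a i
    unfold od
    refine Finset.sum_eq_zero fun j _ => ?_
    have h1 : v i j = 0 := Nat.le_zero.mp (hc i j)
    rw [h1, Nat.cast_zero, mul_zero]
  obtain ⟨b, hb⟩ := Rc_second hk (fun _ => (1 : ℝ)) (fun h => one_ne_zero
    (congrFun h (⟨0, by omega⟩ : Fin k)))
  obtain ⟨i, h1, -⟩ := hv _ b hb
  rcases h1 with h1 | h1
  · exact h1 (h0 _ i)
  · exact h1 (h0 _ i)

theorem rc_coset {K : Type} [Field K] [CharZero K] {k N : ℕ} (hk : 2 ≤ k) {β : Fin N → K}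
    (hβ : Function.Injective β) (γ : Fin k → Kˣ) {v : Fin N → Fin k → ℕ} (hv : NoOpp v)
    (a : Fin k → ℤ) (ha : a ≠ 0) (ζ : Kˣ) : ¬ ∀ x ∈ rc β γ v, ∏ j, x j ^ a j = ζ := by
  classical
  intro h
  have key := Rc_const K β hβ (fun i => ∑ j, (v i j : ℤ) * a j)
    ((ζ * ∏ j, (γ j ^ a j)⁻¹ : Kˣ) : K) (Units.ne_zero _) (by
      intro t ht
      obtain ⟨x, hx, hxt⟩ := rc_pt β γ v t ht
      rw [← h x hx]
      push_cast
      rw [← Finset.prod_mul_distrib]
      have h1 : ∀ j, ((x j : K)) ^ a j * ((γ j : K) ^ a j)⁻¹ =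
          ∏ i, (t - β i) ^ ((v i j : ℤ) * a j) := by
        intro j
        rw [hxt j, mul_zpow, mul_comm ((γ j : K) ^ a j), mul_assoc,
          mul_inv_cancel₀ (zpow_ne_zero _ (Units.ne_zero _)), mul_one, ← Finset.prod_zpow]
        refine Finset.prod_congr rfl fun i _ => ?_
        rw [← zpow_natCast, ← zpow_mul]
      rw [Finset.prod_congr rfl fun j _ => h1 j, Finset.prod_comm]
      refine Finset.prod_congr rfl fun i _ => ?_
      have h2 : t - β i ≠ 0 := sub_ne_zero.mpr (ht i)
      have h3 : ∀ s : Finset (Fin k), (t - β i) ^ (∑ j ∈ s, (v i j : ℤ) * a j) =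
          ∏ j ∈ s, (t - β i) ^ ((v i j : ℤ) * a j) := by
        intro s
        induction s using Finset.induction_on with
        | empty => rw [Finset.sum_empty, Finset.prod_empty, zpow_zero]
        | insert b s hb ih =>
          rw [Finset.sum_insert hb, Finset.prod_insert hb, zpow_add₀ h2, ih]
      exact h3 Finset.univ)
  have ha' : (fun j => (a j : ℝ)) ≠ 0 := by
    intro h0
    apply ha
    funext j
    have h1 := congrFun h0 j
    simp only [Pi.zero_apply, Int.cast_eq_zero] at h1
    exact h1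
  obtain ⟨b, hb⟩ := Rc_second hk _ ha'
  have h4 := hv.inj hb 1 0 (fun i => by
    rw [zero_mul, add_zero, one_mul]
    have h5 := key i
    unfold od
    have h6 : ((∑ j, (v i j : ℤ) * a j : ℤ) : ℝ) = 0 := by rw [h5, Int.cast_zero]
    push_cast at h6
    rw [← h6]
    exact Finset.sum_congr rfl fun j _ => mul_comm _ _)
  exact one_ne_zero h4.1

/-- The curves parametrised by products `x_j = γ_j ∏ (t - β_i) ^ (v i j)` with a matrix of exponents
satisfying the combinatorial condition have all properties of the general theorem, whatever the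
distinct numbers `β_i` and the constants `γ_j` are. -/
theorem rc_hyp {k N : ℕ} (hk : 2 ≤ k) (β : Fin N → AlgebraicClosure ℚ) (hβ : Function.Injective β)
    (γ : Fin k → (AlgebraicClosure ℚ)ˣ) (v : Fin N → Fin k → ℕ) (hv : NoOpp v) :
    IrrClosed (rc β γ v) ∧ zdim (rc β γ v) = 1 ∧
    (∀ a : Fin k → ℤ, a ≠ 0 → ∀ ζ : (AlgebraicClosure ℚ)ˣ, ¬ ∀ x ∈ rc β γ v, ∏ j, x j ^ a j = ζ) ∧
    ∀ (τ : AlgebraicClosure ℚ →+* ℂ) (r s : Fin k → ℝ), LinearIndependent ℝ ![r, s] →
      {w : Fin k → ℂˣ | w ∈ cpts τ (rc β γ v) ∧ ∑ j, r j * Real.log ‖(w j : ℂ)‖ = 0 ∧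
        ∑ j, s j * Real.log ‖(w j : ℂ)‖ = 0}.Finite := by
  refine ⟨rc_irr β γ v (hv.pos hk), rc_dim β γ v (hv.pos hk), rc_coset hk hβ γ hv,
    fun τ r s hrs => ?_⟩
  refine (na_crit (fun _ _ h => hβ (τ.injective h) : Function.Injective fun i => τ (β i))
    (fun j => Units.map τ.toMonoidHom (γ j)) hv r s hrs).subset ?_
  rintro w ⟨hw, h1, h2⟩
  exact ⟨rc_cpts β γ v (hv.pos hk) τ hw, h1, h2⟩

end NE
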