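import Pool.Agent.Lib.MP_a325a5_ag.NE.Crit
import Pool.Agent.Lib.MP_a325a5_ag.UL.Defs
import Pool.Agent.Lib.MP_a325a5_ag.G2.CDef

/-! The curves `rc β γ v` over an algebraically closed field: the vanishing ideal is the kernel of the
parametrisation, all zeros of this ideal are points of the curve, over every algebraically closed
extension. -/

open MvPolynomial Pool.Agent.Lib.MP_a325a5_ag.UL Pool.Agent.Lib.MP_a325a5_ag.G2

namespace NE

/-- extension of homomorphisms along integral homomorphisms -/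
theorem Rc_ext {A B L : Type} [CommRing A] [CommRing B] [Field L] [IsAlgClosed L] (φ : A →+* B)
    (hφ : φ.IsIntegral) (e : A →+* L) (h : ∀ f, φ f = 0 → e f = 0) :
    ∃ ψ : B →+* L, ∀ f, ψ (φ f) = e f := by
  let _ := φ.toAlgebra
  have _ : Algebra.IsIntegral A B := ⟨hφ⟩
  obtain ⟨P, hP⟩ : ∃ P, P = RingHom.ker e := ⟨_, rfl⟩
  have hPp : P.IsPrime := by
    rw [hP]
    exact RingHom.ker_isPrime e
  obtain ⟨Q, -, hQp, hQ⟩ := Ideal.exists_ideal_over_prime_of_isIntegral (S := B) P ⊥ (by
    intro f hf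
    rw [hP, RingHom.mem_ker]
    rw [Ideal.mem_comap, Ideal.mem_bot] at hf
    exact h f hf)
  have _ := hQp
  have _ : Q.LiesOver P := ⟨hQ.symm⟩
  let _ : Algebra (A ⧸ P) L := (Ideal.Quotient.lift P e (fun a ha => by
    rw [hP] at ha
    exact ha)).toAlgebra
  have _ : Algebra.IsIntegral (A ⧸ P) (B ⧸ Q) := inferInstance
  have _ : Module.IsTorsionFree (A ⧸ P) L := by
    rw [Module.isTorsionFree_iff_algebraMap_injective]
    rw [injective_iff_map_eq_zero]
    intro a ha
    obtain ⟨a, rfl⟩ := Ideal.Quotient.mk_surjective a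
    rw [Ideal.Quotient.eq_zero_iff_mem, hP]
    exact ha
  let l : (B ⧸ Q) →ₐ[A ⧸ P] L := IsAlgClosed.lift
  refine ⟨l.toRingHom.comp (Ideal.Quotient.mk Q), fun f => ?_⟩
  have h1 : Ideal.Quotient.mk Q (φ f) = algebraMap (A ⧸ P) (B ⧸ Q) (Ideal.Quotient.mk P f) := rfl
  show l (Ideal.Quotient.mk Q (φ f)) = e f
  rw [h1, l.commutes]
  rfl

section

variable {K : Type} [Field K] {k N : ℕ} (β : Fin N → K) (γ : Fin k → Kˣ) (v : Fin N → Fin k → ℕ)

/-- the coordinate functions as polynomials in `t` -/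
noncomputable def rcP (j : Fin k) : Polynomial K :=
  Polynomial.C (γ j : K) * ∏ i, (Polynomial.X - Polynomial.C (β i)) ^ v i j

/-- the parametrisation -/
noncomputable def rcphi : MvPolynomial (Fin k) K →ₐ[K] Polynomial K :=
  MvPolynomial.aeval (rcP β γ v)

theorem rcP_eval₂ {L : Type} [Field L] (τ : K →+* L) (t : L) (j : Fin k) :
    Polynomial.eval₂ τ t (rcP β γ v j) = τ (γ j) * ∏ i, (t - τ (β i)) ^ v i j := by
  unfold rcP
  rw [Polynomial.eval₂_mul, Polynomial.eval₂_C, Polynomial.eval₂_finsetProd]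
  congr 1
  refine Finset.prod_congr rfl fun i _ => ?_
  rw [Polynomial.eval₂_pow, Polynomial.eval₂_sub, Polynomial.eval₂_X, Polynomial.eval₂_C]

theorem rcP_eval (t : K) (j : Fin k) :
    Polynomial.eval t (rcP β γ v j) = γ j * ∏ i, (t - β i) ^ v i j := by
  rw [← Polynomial.eval₂_id, rcP_eval₂]
  rfl

/-- values at points with a parameter -/
theorem rc_val {L : Type} [Field L] (τ : K →+* L) (x : Fin k → L) (t : L)
    (h : ∀ j, x j = τ (γ j) * ∏ i, (t - τ (β i)) ^ v i j) (f : MvPolynomial (Fin k) K) :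
    MvPolynomial.eval₂ τ x f = Polynomial.eval₂ τ t (rcphi β γ v f) := by
  have h1 : MvPolynomial.eval₂Hom τ x =
      (Polynomial.eval₂RingHom τ t).comp (rcphi β γ v).toRingHom := by
    refine MvPolynomial.ringHom_ext (fun r => ?_) (fun j => ?_)
    · rw [MvPolynomial.eval₂Hom_C]
      show τ r = Polynomial.eval₂ τ t (rcphi β γ v (MvPolynomial.C r))
      unfold rcphi
      rw [MvPolynomial.aeval_C, Polynomial.algebraMap_apply, Polynomial.eval₂_C]
      rfl
    · rw [MvPolynomial.eval₂Hom_X']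
      show x j = Polynomial.eval₂ τ t (rcphi β γ v (MvPolynomial.X j))
      unfold rcphi
      rw [MvPolynomial.aeval_X, rcP_eval₂]
      exact h j
  rw [← MvPolynomial.coe_eval₂Hom, h1]
  rfl

/-- the parametrisation is an integral homomorphism -/
theorem rc_integral (hv : ∃ i j, 0 < v i j) : (rcphi β γ v).toRingHom.IsIntegral := by
  classical
  obtain ⟨i₀, j, hij⟩ := hv
  have hX : (rcphi β γ v).toRingHom.IsIntegralElem Polynomial.X := by
    obtain ⟨A, hA⟩ : ∃ A : Polynomial (MvPolynomial (Fin k) K), A =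
      ∏ i, (Polynomial.X - Polynomial.C (MvPolynomial.C (β i))) ^ v i j := ⟨_, rfl⟩
    have hAm : A.Monic := by
      rw [hA]
      exact Polynomial.monic_prod_of_monic _ _ fun i _ => (Polynomial.monic_X_sub_C _).pow _
    have hAd : 0 < A.natDegree := by
      rw [hA, Polynomial.natDegree_prod_of_monic _ _
        (fun i _ => (Polynomial.monic_X_sub_C _).pow _)]
      refine lt_of_lt_of_le ?_ (Finset.single_le_sum (f := fun i =>
        ((Polynomial.X - Polynomial.C (MvPolynomial.C (σ := Fin k) (β i))) ^ v i j).natDegree)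
        (fun i _ => Nat.zero_le _) (Finset.mem_univ i₀))
      show 0 < ((Polynomial.X - Polynomial.C (MvPolynomial.C (σ := Fin k) (β i₀))) ^ v i₀ j).natDegree
      rw [Polynomial.natDegree_pow, Polynomial.natDegree_X_sub_C, mul_one]
      exact hij
    refine ⟨A - Polynomial.C (MvPolynomial.C ((γ j : K)⁻¹) * MvPolynomial.X j), ?_, ?_⟩
    · refine hAm.sub_of_left ?_
      refine lt_of_le_of_lt Polynomial.degree_C_le ?_
      rw [← Polynomial.natDegree_pos_iff_degree_pos]
      exact hAd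
    · have hC : ∀ r : K, (rcphi β γ v).toRingHom (MvPolynomial.C r) = Polynomial.C r := by
        intro r
        show rcphi β γ v (MvPolynomial.C r) = _
        unfold rcphi
        rw [MvPolynomial.aeval_C]
        rfl
      rw [Polynomial.eval₂_sub, Polynomial.eval₂_C, map_mul, hC, hA, Polynomial.eval₂_finsetProd]
      have h1 : (rcphi β γ v).toRingHom (MvPolynomial.X j) = rcP β γ v j := by
        show rcphi β γ v (MvPolynomial.X j) = _
        unfold rcphi
        rw [MvPolynomial.aeval_X]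
      have h2 : ∀ i, Polynomial.eval₂ (rcphi β γ v).toRingHom Polynomial.X
          ((Polynomial.X - Polynomial.C (MvPolynomial.C (β i))) ^ v i j) =
          (Polynomial.X - Polynomial.C (β i)) ^ v i j := by
        intro i
        rw [Polynomial.eval₂_pow, Polynomial.eval₂_sub, Polynomial.eval₂_X, Polynomial.eval₂_C, hC]
      rw [h1, Finset.prod_congr rfl fun i _ => h2 i, rcP, ← mul_assoc, ← Polynomial.C_mul,
        inv_mul_cancel₀ (Units.ne_zero _), Polynomial.C_1, one_mul, sub_self]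
  have hC : ∀ a : K, (rcphi β γ v).toRingHom.IsIntegralElem (Polynomial.C a) := by
    intro a
    have h1 : (rcphi β γ v).toRingHom (MvPolynomial.C a) = Polynomial.C a := by
      show rcphi β γ v (MvPolynomial.C a) = _
      unfold rcphi
      rw [MvPolynomial.aeval_C]
      rfl
    rw [← h1]
    exact RingHom.isIntegralElem_map _
  intro f
  induction f using Polynomial.induction_on with
  | C a => exact hC a
  | add p r hp hr => exact hp.add _ hr
  | monomial n a h =>
    rw [pow_succ, ← mul_assoc]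
    exact h.mul _ hX

/-- zeros of the ideal of the curve have a parameter -/
theorem rc_lift {L : Type} [Field L] [IsAlgClosed L] (τ : K →+* L) (hv : ∃ i j, 0 < v i j)
    (x : Fin k → L) (hx : ∀ f, rcphi β γ v f = 0 → MvPolynomial.eval₂ τ x f = 0) :
    ∃ t : L, ∀ j, x j = τ (γ j) * ∏ i, (t - τ (β i)) ^ v i j := by
  obtain ⟨ψ, hψ⟩ := Rc_ext (rcphi β γ v).toRingHom (rc_integral β γ v hv)
    (MvPolynomial.eval₂Hom τ x) hx
  refine ⟨ψ Polynomial.X, fun j => ?_⟩
  have h1 : ψ = Polynomial.eval₂RingHom τ (ψ Polynomial.X) := by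
    refine Polynomial.ringHom_ext (fun a => ?_) ?_
    · have h2 := hψ (MvPolynomial.C a)
      rw [MvPolynomial.eval₂Hom_C] at h2
      rw [Polynomial.coe_eval₂RingHom, Polynomial.eval₂_C, ← h2]
      congr 1
      show _ = rcphi β γ v (MvPolynomial.C a)
      unfold rcphi
      rw [MvPolynomial.aeval_C]
      rfl
    · rw [Polynomial.coe_eval₂RingHom, Polynomial.eval₂_X]
  have h3 := hψ (MvPolynomial.X j)
  rw [MvPolynomial.eval₂Hom_X'] at h3
  have h4 : (rcphi β γ v).toRingHom (MvPolynomial.X j) = rcP β γ v j := by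
    show rcphi β γ v (MvPolynomial.X j) = _
    unfold rcphi
    rw [MvPolynomial.aeval_X]
  rw [h4, h1, Polynomial.coe_eval₂RingHom, rcP_eval₂] at h3
  exact h3.symm

/-- good parameters give points -/
theorem rc_pt (t : K) (h : ∀ i, t ≠ β i) :
    ∃ x ∈ rc β γ v, ∀ j, (x j : K) = γ j * ∏ i, (t - β i) ^ v i j := by
  have h1 : ∀ j, (γ j : K) * ∏ i, (t - β i) ^ v i j ≠ 0 := fun j =>
    mul_ne_zero (Units.ne_zero _) (Finset.prod_ne_zero_iff.mpr fun i _ =>
      pow_ne_zero _ (sub_ne_zero.mpr (h i)))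
  refine ⟨fun j => Units.mk0 _ (h1 j), ⟨t, fun j => ?_⟩, fun j => ?_⟩
  · rfl
  · rfl

theorem rc_ker [CharZero K] : vanIdeal (rc β γ v) = RingHom.ker (rcphi β γ v).toRingHom := by
  ext f
  constructor
  · intro hf
    rw [RingHom.mem_ker]
    show rcphi β γ v f = 0
    refine Polynomial.eq_zero_of_infinite_isRoot _ ?_
    refine ((Set.finite_range β).infinite_compl).mono ?_
    intro t ht
    rw [Set.mem_compl_iff, Set.mem_range, not_exists] at ht
    obtain ⟨x, hx, hxt⟩ := rc_pt β γ v t (fun i h => ht i h.symm)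
    rw [Set.mem_ofPred_eq, Polynomial.IsRoot.def, ← Polynomial.eval₂_id,
      ← rc_val β γ v (RingHom.id K) (fun j => (x j : K)) t hxt f, MvPolynomial.eval₂_id]
    exact hf x hx
  · rintro hf x ⟨t, ht⟩
    rw [RingHom.mem_ker] at hf
    have hf' : rcphi β γ v f = 0 := hf
    rw [← MvPolynomial.eval₂_id, rc_val β γ v (RingHom.id K) (fun j => (x j : K)) t ht f, hf',
      Polynomial.eval₂_zero]

theorem rc_irr [CharZero K] [IsAlgClosed K] (hv : ∃ i j, 0 < v i j) : IrrClosed (rc β γ v) := by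
  refine ⟨?_, ?_⟩
  · rw [rc_ker β γ v]
    exact RingHom.ker_isPrime _
  · intro x hx
    refine rc_lift β γ v (RingHom.id K) hv (fun j => (x j : K)) fun f hf => ?_
    rw [MvPolynomial.eval₂_id]
    refine hx f ?_
    rw [rc_ker β γ v, RingHom.mem_ker]
    exact hf

end

theorem rc_cpts {k N : ℕ} (β : Fin N → AlgebraicClosure ℚ) (γ : Fin k → (AlgebraicClosure ℚ)ˣ)
    (v : Fin N → Fin k → ℕ) (hv : ∃ i j, 0 < v i j) (τ : AlgebraicClosure ℚ →+* ℂ)
    {w : Fin k → ℂˣ} (hw : w ∈ cpts τ (rc β γ v)) :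
    w ∈ rc (fun i => τ (β i)) (fun j => Units.map τ.toMonoidHom (γ j)) v := by
  refine rc_lift β γ v τ hv (fun j => (w j : ℂ)) fun f hf => hw f ?_
  rw [rc_ker β γ v, RingHom.mem_ker]
  exact hf

end NE
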